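import Pool.Agent.P.MP_c76d8c_an.Div

/-! Lattice points on circles: representation numbers of `X^2 + D Y^2` and the circle bound. -/

namespace Pool.Agent.P.MP_c76d8c_an

open Finset

theorem div_gcd_dvd {a b T : ℤ} (hT : T ≠ 0) (h : T ∣ a * b) : T / (Int.gcd a T : ℤ) ∣ b := by
  have hg : 0 < Int.gcd a T := Int.gcd_pos_of_ne_zero_right _ hT
  obtain ⟨e, g', h1, h2, h3⟩ := Int.exists_gcd_one hg
  set g : ℤ := (Int.gcd a T : ℤ) with hgdef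
  have hg0 : g ≠ 0 := by rw [hgdef]; exact_mod_cast hg.ne'
  have h4 : T / g = g' := by
    rw [h3]; exact Int.mul_ediv_cancel _ hg0
  rw [h4]
  have h5 : g' * g ∣ (e * b) * g := by
    rw [← h3]; have : e * b * g = a * b := by rw [h2]; ring
    rw [this]; exact h
  have h6 : g' ∣ e * b := (mul_dvd_mul_iff_right hg0).1 h5
  exact (Int.isCoprime_iff_gcd_eq_one.2 h1).symm.dvd_of_dvd_mul_left h6

theorem cop_snd {X Y D T : ℤ} (h : X ^ 2 + D * Y ^ 2 = T) (hc : IsCoprime X Y) : IsCoprime Y T := by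
  have h1 : IsCoprime Y (X ^ 2) := hc.symm.pow_right
  have : T = X ^ 2 + Y * (D * Y) := by rw [← h]; ring
  rw [this]; exact h1.add_mul_left_right _

theorem fiber_key {D T X0 Y0 X Y X' Y' : ℤ} (hD : 0 < D) (hT : 0 < T)
    (h0 : X0 ^ 2 + D * Y0 ^ 2 = T) (c0 : IsCoprime X0 Y0)
    (h1 : X ^ 2 + D * Y ^ 2 = T) (c1 : IsCoprime X Y)
    (h2 : X' ^ 2 + D * Y' ^ 2 = T)
    (hg : Int.gcd (X' * Y0 - X0 * Y') T = Int.gcd (X * Y0 - X0 * Y) T) :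
    ∃ q : ℤ, q ∈ Icc (-2 : ℤ) 2 ∧ X * Y' - X' * Y =
      lcm (Int.gcd (X * Y0 - X0 * Y) T : ℤ) (T / (Int.gcd (X * Y0 - X0 * Y) T : ℤ)) * q := by
  set g : ℤ := (Int.gcd (X * Y0 - X0 * Y) T : ℤ) with hgdef
  set g' : ℤ := T / g with hg'
  have hgT : g ∣ T := Int.gcd_dvd_right _ _
  have hgg : g * g' = T := Int.mul_ediv_cancel' hgT
  have a1 : g ∣ X * Y0 - X0 * Y := Int.gcd_dvd_left _ _
  have a2 : g ∣ X' * Y0 - X0 * Y' := by rw [hgdef, ← hg]; exact Int.gcd_dvd_left _ _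
  have b1 : g' ∣ X * Y0 + X0 * Y := div_gcd_dvd hT.ne'
    ⟨Y0 ^ 2 - Y ^ 2, by linear_combination Y0 ^ 2 * h1 - Y ^ 2 * h0⟩
  have b2 : g' ∣ X' * Y0 + X0 * Y' := by
    rw [hg', hgdef, ← hg]
    exact div_gcd_dvd hT.ne' ⟨Y0 ^ 2 - Y' ^ 2, by linear_combination Y0 ^ 2 * h2 - Y' ^ 2 * h0⟩
  have cT0 := cop_snd h0 c0
  have cT1 := cop_snd h1 c1
  have hg'T : g' ∣ T := Dvd.intro_left _ hgg
  have d1 : g ∣ X * Y' - X' * Y := by
    refine (cT0.symm.of_isCoprime_of_dvd_left hgT).dvd_of_dvd_mul_left ?_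
    have : Y0 * (X * Y' - X' * Y) = Y' * (X * Y0 - X0 * Y) - Y * (X' * Y0 - X0 * Y') := by ring
    rw [this]; exact (a1.mul_left _).sub (a2.mul_left _)
  have d2 : g' ∣ X * Y' - X' * Y := by
    refine (cT0.symm.of_isCoprime_of_dvd_left hg'T).dvd_of_dvd_mul_left ?_
    have : Y0 * (X * Y' - X' * Y) = Y' * (X * Y0 + X0 * Y) - Y * (X' * Y0 + X0 * Y') := by ring
    rw [this]; exact (b1.mul_left _).sub (b2.mul_left _)
  obtain ⟨q, hq⟩ := lcm_dvd d1 d2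
  refine ⟨q, ?_, hq⟩
  set n := lcm g g'
  set h := gcd g g'
  have hnh : (h * n) ^ 2 = T ^ 2 := by
    have := gcd_mul_lcm g g'
    rw [hgg] at this
    obtain ⟨u, hu⟩ := this
    rw [← hu, mul_pow (h * n)]
    rcases Int.units_eq_one_or u with rfl | rfl <;> simp
  have hh1 : h ∣ g := gcd_dvd_left _ _
  have hh2 : h ∣ g' := gcd_dvd_right _ _
  have hhT : h ∣ T := hh1.trans hgT
  have e1 : h ∣ 2 * X := by
    refine (cT0.symm.of_isCoprime_of_dvd_left hhT).dvd_of_dvd_mul_left ?_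
    have : Y0 * (2 * X) = (X * Y0 - X0 * Y) + (X * Y0 + X0 * Y) := by ring
    rw [this]; exact (hh1.trans a1).add (hh2.trans b1)
  have e2 : h ^ 2 ∣ T := by rw [← hgg, sq]; exact mul_dvd_mul hh1 hh2
  have e3 : h ^ 2 ∣ 4 * D := by
    refine ((cT1.symm.of_isCoprime_of_dvd_left hhT).pow (m := 2) (n := 2)).dvd_of_dvd_mul_left ?_
    have : Y ^ 2 * (4 * D) = 4 * T - (2 * X) ^ 2 := by linear_combination 4 * h1
    rw [this]; exact (e2.mul_left _).sub (pow_dvd_pow_of_dvd e1 2)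
  have e4 : h ^ 2 ≤ 4 * D := Int.le_of_dvd (by omega) e3
  have e5 : D * (n * q) ^ 2 ≤ T ^ 2 := by
    rw [← hq]
    have : (X * X' + D * Y * Y') ^ 2 + D * (X * Y' - X' * Y) ^ 2 = T ^ 2 := by
      linear_combination (X' ^ 2 + D * Y' ^ 2) * h1 + T * h2
    nlinarith [sq_nonneg (X * X' + D * Y * Y')]
  have hn0 : n ≠ 0 := by
    intro h0; rw [h0] at hnh
    have : 0 < T ^ 2 := by positivity
    rw [← hnh] at this; simp at this
  have hn2 : 0 < D * n ^ 2 := by positivity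
  have e6 : q ^ 2 ≤ 2 ^ 2 := by
    have : D * n ^ 2 * q ^ 2 ≤ D * n ^ 2 * 2 ^ 2 := by
      have : h ^ 2 * n ^ 2 ≤ 4 * D * n ^ 2 := by gcongr
      nlinarith
    exact le_of_mul_le_mul_left this hn2
  rw [mem_Icc]
  exact abs_le.1 (abs_le_of_sq_le_sq' e6 (by norm_num) |> fun h => abs_le.2 h)

theorem prim_count {D : ℤ} {T : ℕ} (hD : 0 < D) (hT : 0 < T) (F : Finset (ℤ × ℤ))
    (hF : ∀ z ∈ F, z.1 ^ 2 + D * z.2 ^ 2 = T ∧ IsCoprime z.1 z.2) :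
    F.card ≤ 10 * T.divisors.card := by
  classical
  rcases F.eq_empty_or_nonempty with rfl | ⟨z0, hz0⟩
  · simp
  have hT' : (0 : ℤ) < T := by exact_mod_cast hT
  refine card_le_mul_card_image_of_maps_to
    (f := fun z : ℤ × ℤ => Int.gcd (z.1 * z0.2 - z0.1 * z.2) T) (fun z _ => ?_) 10 fun g _ => ?_
  · rw [Nat.mem_divisors]
    exact ⟨by exact_mod_cast Int.gcd_dvd_right (z.1 * z0.2 - z0.1 * z.2) T, hT.ne'⟩
  rcases (F.filter fun z : ℤ × ℤ => Int.gcd (z.1 * z0.2 - z0.1 * z.2) T = g).eq_empty_or_nonempty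
    with h | ⟨z1, hz1⟩
  · rw [h]; simp
  rw [mem_filter] at hz1
  set n : ℤ := lcm (g : ℤ) (T / (g : ℤ)) with hn
  have key : ∀ z ∈ F.filter fun z : ℤ × ℤ => Int.gcd (z.1 * z0.2 - z0.1 * z.2) T = g,
      ∃ q : ℤ, q ∈ Icc (-2 : ℤ) 2 ∧ z1.1 * z.2 - z.1 * z1.2 = n * q := by
    intro z hz
    rw [mem_filter] at hz
    have := fiber_key hD hT' (hF _ hz0).1 (hF _ hz0).2 (hF _ hz1.1).1 (hF _ hz1.1).2 (hF _ hz.1).1
      (by rw [hz.2, hz1.2])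
    rwa [hz1.2] at this
  have hcard : (Icc (-2 : ℤ) 2 ×ˢ (univ : Finset Bool)).card = 10 := by simp
  rw [← hcard]
  choose! q hq using key
  refine card_le_card_of_injOn
    (fun z => (q z, decide (0 ≤ z1.1 * z.1 + D * z1.2 * z.2))) (fun z hz => ?_) ?_
  · simp only [coe_product, Set.mem_prod, mem_coe, mem_univ, and_true]
    exact (hq z hz).1
  intro z hz z' hz' h
  simp only [Prod.mk.injEq, decide_eq_decide] at h
  have h1 := (hq z hz).2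
  have h2 := (hq z' hz').2
  rw [← h.1, ← h1] at h2
  have e1 := (hF _ hz1.1).1
  have e2 := (hF _ (mem_filter.1 hz).1).1
  have e3 := (hF _ (mem_filter.1 hz').1).1
  have hE : (z1.1 * z.1 + D * z1.2 * z.2) ^ 2 = (z1.1 * z'.1 + D * z1.2 * z'.2) ^ 2 := by
    have a : (z1.1 * z.1 + D * z1.2 * z.2) ^ 2 + D * (z1.1 * z.2 - z.1 * z1.2) ^ 2 = T ^ 2 := by
      linear_combination (z.1 ^ 2 + D * z.2 ^ 2) * e1 + T * e2
    have b : (z1.1 * z'.1 + D * z1.2 * z'.2) ^ 2 + D * (z1.1 * z'.2 - z'.1 * z1.2) ^ 2 = T ^ 2 := by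
      linear_combination (z'.1 ^ 2 + D * z'.2 ^ 2) * e1 + T * e3
    rw [h2] at b
    linarith
  have hE' : z1.1 * z.1 + D * z1.2 * z.2 = z1.1 * z'.1 + D * z1.2 * z'.2 := by
    rcases sq_eq_sq_iff_eq_or_eq_neg.1 hE with h3 | h3
    · exact h3
    · have := h.2
      omega
  have x1 : (T : ℤ) * (z.1 - z'.1) = 0 := by
    linear_combination z1.1 * hE' + D * z1.2 * h2 - (z.1 - z'.1) * e1
  have x2 : (T : ℤ) * (z.2 - z'.2) = 0 := by
    linear_combination z1.2 * hE' - z1.1 * h2 - (z.2 - z'.2) * e1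
  refine Prod.ext ?_ ?_
  · have := (mul_eq_zero.1 x1).resolve_left hT'.ne'; linarith
  · have := (mul_eq_zero.1 x2).resolve_left hT'.ne'; linarith

theorem form_count {D : ℤ} {T : ℕ} (hD : 0 < D) (hT : 0 < T) (F : Finset (ℤ × ℤ))
    (hF : ∀ z ∈ F, z.1 ^ 2 + D * z.2 ^ 2 = T) :
    F.card ≤ 10 * T.divisors.card * T.divisors.card := by
  classical
  refine card_le_mul_card_image_of_maps_to
    (f := fun z : ℤ × ℤ => Int.gcd z.1 z.2) (fun z hz => ?_) _ fun g hg => ?_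
  · rw [Nat.mem_divisors]
    refine ⟨?_, hT.ne'⟩
    have : (Int.gcd z.1 z.2 : ℤ) ∣ T := by
      rw [← hF z hz]
      exact ((Int.gcd_dvd_left _ _).pow (by norm_num)).add
        (((Int.gcd_dvd_right _ _).pow (by norm_num)).mul_left _)
    exact_mod_cast this
  have hg0 : 0 < g := Nat.pos_of_mem_divisors hg
  have hg0' : (g : ℤ) ≠ 0 := by exact_mod_cast hg0.ne'
  rcases (F.filter fun z : ℤ × ℤ => Int.gcd z.1 z.2 = g).eq_empty_or_nonempty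
    with h | ⟨z1, hz1⟩
  · rw [h]; simp
  have hdec : ∀ z ∈ F.filter fun z : ℤ × ℤ => Int.gcd z.1 z.2 = g,
      z.1 = z.1 / g * g ∧ z.2 = z.2 / g * g ∧ IsCoprime (z.1 / g) (z.2 / g) := by
    intro z hz
    rw [mem_filter] at hz
    have hp : 0 < Int.gcd z.1 z.2 := by rw [hz.2]; exact hg0
    refine ⟨?_, ?_, ?_⟩
    · rw [Int.ediv_mul_cancel]; rw [← hz.2]; exact Int.gcd_dvd_left _ _
    · rw [Int.ediv_mul_cancel]; rw [← hz.2]; exact Int.gcd_dvd_right _ _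
    · rw [Int.isCoprime_iff_gcd_eq_one, ← hz.2]; exact Int.gcd_div_gcd_div_gcd hp
  have hT2 : g ^ 2 ∣ T := by
    have : ((g : ℤ)) ^ 2 ∣ T := by
      obtain ⟨h1, h2, -⟩ := hdec z1 hz1
      rw [← hF z1 (mem_filter.1 hz1).1, h1, h2]
      exact ⟨(z1.1 / g) ^ 2 + D * (z1.2 / g) ^ 2, by ring⟩
    exact_mod_cast this
  obtain ⟨T', hT'⟩ := hT2
  have hT'0 : 0 < T' := by
    rcases Nat.eq_zero_or_pos T' with rfl | h
    · omega
    · exact h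
  have hinj : Set.InjOn (fun z : ℤ × ℤ => (z.1 / g, z.2 / g))
      (F.filter fun z : ℤ × ℤ => Int.gcd z.1 z.2 = g : Finset _) := by
    intro z hz z' hz' h
    simp only [Prod.mk.injEq] at h
    obtain ⟨h1, h2, -⟩ := hdec z hz
    obtain ⟨h3, h4, -⟩ := hdec z' hz'
    exact Prod.ext (by rw [h1, h3, h.1]) (by rw [h2, h4, h.2])
  rw [← card_image_of_injOn hinj]
  refine (prim_count hD hT'0 _ fun w hw => ?_).trans ?_
  · obtain ⟨z, hz, rfl⟩ := mem_image.1 hw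
    obtain ⟨h1, h2, h3⟩ := hdec z hz
    refine ⟨?_, h3⟩
    have h4 := hF z (mem_filter.1 hz).1
    rw [h1, h2, hT'] at h4
    push_cast at h4
    have : (g : ℤ) ^ 2 * ((z.1 / g) ^ 2 + D * (z.2 / g) ^ 2) = (g : ℤ) ^ 2 * T' := by
      linear_combination h4
    exact mul_left_cancel₀ (pow_ne_zero 2 hg0') this
  · gcongr
    exact Dvd.intro_left _ hT'.symm

/-- Every circle cut from the sphere `|a|^2 = m` by a plane with a short nonzero integer normal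
carries at most `t` lattice points. -/
def Circ (m : ℕ) (t : ℝ) : Prop :=
  ∀ d : Fin 3 → ℤ, d ≠ 0 → (∀ i, |d i| ≤ 2 * m) → ∀ s : ℤ, ∀ F : Finset (Fin 3 → ℤ),
    (∀ a ∈ F, a ⬝ᵥ a = m ∧ a ⬝ᵥ d = s) → (F.card : ℝ) ≤ t

theorem dot3 (a b : Fin 3 → ℤ) : a ⬝ᵥ b = a 0 * b 0 + a 1 * b 1 + a 2 * b 2 := by
  simp [dotProduct, Fin.sum_univ_three]

theorem vec_ext {a b : Fin 3 → ℤ} (h0 : a 0 = b 0) (h1 : a 1 = b 1) (h2 : a 2 = b 2) : a = b := by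
  funext i; fin_cases i <;> assumption

theorem circle_count {m : ℕ} {d : Fin 3 → ℤ} (hd : d ≠ 0) (s : ℤ) (F : Finset (Fin 3 → ℤ))
    (hF : ∀ a ∈ F, a ⬝ᵥ a = m ∧ a ⬝ᵥ d = s) :
    F.card ≤ 1 ∨ ∃ T : ℕ, 0 < T ∧ (T : ℤ) ≤ (d ⬝ᵥ d * m) ^ 2 ∧
      F.card ≤ 10 * T.divisors.card * T.divisors.card := by
  classical
  have hn : 0 < d ⬝ᵥ d := by
    rw [dot3]
    by_contra hc
    apply hd
    refine vec_ext ?_ ?_ ?_ <;> simp only [Pi.zero_apply] <;>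
      nlinarith [sq_nonneg (d 0), sq_nonneg (d 1), sq_nonneg (d 2)]
  rcases F.eq_empty_or_nonempty with rfl | ⟨a0, ha0⟩
  · simp
  set T' : ℤ := d ⬝ᵥ d * m - s ^ 2 with hT'
  have hcr : ∀ a ∈ F, (d 1 * a 2 - d 2 * a 1) ^ 2 + (d 2 * a 0 - d 0 * a 2) ^ 2 +
      (d 0 * a 1 - d 1 * a 0) ^ 2 = T' := by
    intro a ha
    obtain ⟨h1, h2⟩ := hF a ha
    rw [hT', ← h1, ← h2]; simp only [dot3]; ring
  by_cases h0 : T' = 0
  · left
    have : ∀ a ∈ F, ∀ i, d ⬝ᵥ d * a i = s * d i := by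
      intro a ha
      have h1 := hcr a ha
      have h2 := (hF a ha).2
      rw [h0] at h1
      have x1 : d 1 * a 2 - d 2 * a 1 = 0 := by
        nlinarith [sq_nonneg (d 1 * a 2 - d 2 * a 1), sq_nonneg (d 2 * a 0 - d 0 * a 2),
          sq_nonneg (d 0 * a 1 - d 1 * a 0)]
      have x2 : d 2 * a 0 - d 0 * a 2 = 0 := by
        nlinarith [sq_nonneg (d 1 * a 2 - d 2 * a 1), sq_nonneg (d 2 * a 0 - d 0 * a 2),
          sq_nonneg (d 0 * a 1 - d 1 * a 0)]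
      have x3 : d 0 * a 1 - d 1 * a 0 = 0 := by
        nlinarith [sq_nonneg (d 1 * a 2 - d 2 * a 1), sq_nonneg (d 2 * a 0 - d 0 * a 2),
          sq_nonneg (d 0 * a 1 - d 1 * a 0)]
      rw [dot3] at h2
      intro i
      rw [dot3, ← h2]
      fin_cases i
      · show _ * a 0 = _ * d 0
        linear_combination d 2 * x2 - d 1 * x3
      · show _ * a 1 = _ * d 1
        linear_combination d 0 * x3 - d 2 * x1
      · show _ * a 2 = _ * d 2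
        linear_combination d 1 * x1 - d 0 * x2
    rw [card_le_one]
    intro a ha b hb
    funext i
    exact mul_left_cancel₀ hn.ne' ((this a ha i).trans (this b hb i).symm)
  right
  have hT0 : 0 ≤ T' := by rw [← hcr a0 ha0]; positivity
  refine ⟨T'.natAbs ^ 2, by positivity, ?_, ?_⟩
  · push_cast
    rw [sq_abs]
    have : T' ≤ d ⬝ᵥ d * m := by rw [hT']; nlinarith [sq_nonneg s]
    gcongr
  have hinj : Set.InjOn (fun a : Fin 3 → ℤ => (d ⬝ᵥ d * (a ⬝ᵥ a0) - s ^ 2,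
      a 0 * (d 1 * a0 2 - d 2 * a0 1) + a 1 * (d 2 * a0 0 - d 0 * a0 2) +
        a 2 * (d 0 * a0 1 - d 1 * a0 0))) F := by
    intro a ha b hb h
    simp only [Prod.mk.injEq] at h
    obtain ⟨h1, h2⟩ := h
    have h3 : a ⬝ᵥ a0 = b ⬝ᵥ a0 := mul_left_cancel₀ hn.ne' (by linarith)
    have h4 : a ⬝ᵥ d = b ⬝ᵥ d := by rw [(hF a ha).2, (hF b hb).2]
    have h5 := hcr a0 ha0
    rw [dot3, dot3] at h3 h4
    set w0 := d 1 * a0 2 - d 2 * a0 1 with hw0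
    set w1 := d 2 * a0 0 - d 0 * a0 2 with hw1
    set w2 := d 0 * a0 1 - d 1 * a0 0 with hw2
    refine vec_ext ?_ ?_ ?_
    · have : T' * (a 0 - b 0) = 0 := by
        rw [← h5, hw0, hw1, hw2]
        linear_combination w0 * h2 + (a0 1 * w2 - a0 2 * w1) * h4 + (w1 * d 2 - w2 * d 1) * h3
      have := (mul_eq_zero.1 this).resolve_left h0; linarith
    · have : T' * (a 1 - b 1) = 0 := by
        rw [← h5, hw0, hw1, hw2]
        linear_combination w1 * h2 + (a0 2 * w0 - a0 0 * w2) * h4 + (w2 * d 0 - w0 * d 2) * h3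
      have := (mul_eq_zero.1 this).resolve_left h0; linarith
    · have : T' * (a 2 - b 2) = 0 := by
        rw [← h5, hw0, hw1, hw2]
        linear_combination w2 * h2 + (a0 0 * w1 - a0 1 * w0) * h4 + (w0 * d 1 - w1 * d 0) * h3
      have := (mul_eq_zero.1 this).resolve_left h0; linarith
  rw [← card_image_of_injOn hinj]
  refine form_count hn (by positivity) _ fun z hz => ?_
  obtain ⟨a, ha, rfl⟩ := mem_image.1 hz
  obtain ⟨h1, h2⟩ := hF a ha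
  obtain ⟨h3, h4⟩ := hF a0 ha0
  push_cast
  rw [sq_abs, hT']
  have key : (a 0 * (d 1 * a0 2 - d 2 * a0 1) + a 1 * (d 2 * a0 0 - d 0 * a0 2) +
        a 2 * (d 0 * a0 1 - d 1 * a0 0)) ^ 2 =
      d ⬝ᵥ d * ((a0 ⬝ᵥ a0) * (a ⬝ᵥ a) - (a ⬝ᵥ a0) ^ 2)
        - (a0 ⬝ᵥ d) * ((a0 ⬝ᵥ d) * (a ⬝ᵥ a) - (a ⬝ᵥ d) * (a ⬝ᵥ a0))
        + (a ⬝ᵥ d) * ((a0 ⬝ᵥ d) * (a ⬝ᵥ a0) - (a ⬝ᵥ d) * (a0 ⬝ᵥ a0)) := by
    simp only [dot3]; ring
  rw [key, h1, h2, h3, h4]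
  ring

theorem circ_exists {δ : ℝ} (hδ : 0 < δ) :
    ∃ C : ℝ, 1 ≤ C ∧ ∀ m : ℕ, 1 ≤ m → Circ m (C * (m : ℝ) ^ δ) := by
  obtain ⟨C, hC, h⟩ := tau_le (ε := δ / 12) (by positivity)
  refine ⟨1 + 10 * (C * 144 ^ (δ / 12)) ^ 2, by
    linarith [show 0 ≤ 10 * (C * (144 : ℝ) ^ (δ / 12)) ^ 2 by positivity], ?_⟩
  intro m hm d hd hb s F hF
  have hm1 : (1 : ℝ) ≤ m := by exact_mod_cast hm
  have h1 : 1 ≤ (m : ℝ) ^ δ := Real.one_le_rpow hm1 hδ.le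
  have h2 : 0 ≤ 10 * (C * (144 : ℝ) ^ (δ / 12)) ^ 2 := by positivity
  rcases circle_count hd s F hF with h3 | ⟨T, hT, h3, h4⟩
  · have : (F.card : ℝ) ≤ 1 := by exact_mod_cast h3
    nlinarith
  have h5 : d ⬝ᵥ d ≤ 12 * m ^ 2 := by
    rw [dot3]
    have a0 := abs_le.1 (hb 0)
    have a1 := abs_le.1 (hb 1)
    have a2 := abs_le.1 (hb 2)
    nlinarith
  have h6 : (T : ℝ) ≤ 144 * m ^ 6 := by
    have h7 : 0 ≤ d ⬝ᵥ d := by rw [dot3]; nlinarith [sq_nonneg (d 0), sq_nonneg (d 1), sq_nonneg (d 2)]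
    have : (T : ℤ) ≤ 144 * m ^ 6 := by
      calc (T : ℤ) ≤ (d ⬝ᵥ d * m) ^ 2 := h3
        _ ≤ (12 * m ^ 2 * m) ^ 2 := by gcongr
        _ = _ := by ring
    exact_mod_cast this
  have h7 : tau T ≤ C * 144 ^ (δ / 12) * (m : ℝ) ^ (δ / 2) := by
    calc tau T ≤ C * (T : ℝ) ^ (δ / 12) := h T
      _ ≤ C * (144 * (m : ℝ) ^ 6) ^ (δ / 12) := by gcongr
      _ = _ := by
        rw [Real.mul_rpow (by norm_num) (by positivity), ← Real.rpow_natCast,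
          ← Real.rpow_mul (by positivity), mul_assoc]
        congr 3; push_cast; ring
  have h8 : (F.card : ℝ) ≤ 10 * tau T ^ 2 := by
    unfold tau; rw [sq, ← mul_assoc]; exact_mod_cast h4
  have h9 : ((m : ℝ) ^ (δ / 2)) ^ 2 = (m : ℝ) ^ δ := by
    rw [← Real.rpow_natCast, ← Real.rpow_mul (by positivity)]; congr 1; push_cast; ring
  have := tau_nonneg T
  calc (F.card : ℝ) ≤ 10 * (C * 144 ^ (δ / 12) * (m : ℝ) ^ (δ / 2)) ^ 2 := h8.trans (by gcongr)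
    _ = 10 * (C * 144 ^ (δ / 12)) ^ 2 * (m : ℝ) ^ δ := by rw [mul_pow _ ((m : ℝ) ^ (δ / 2)), h9]; ring
    _ ≤ _ := by gcongr; linarith

end Pool.Agent.P.MP_c76d8c_an
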