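import Pool.Agent.P.MP_c76d8c_an.Ind

/-! The discrete `L^5` and `L^q` bounds. -/

namespace Pool.Agent.P.MP_c76d8c_an

open Finset Matrix

theorem layer {P s y : ℝ} (hP : 0 ≤ P) (hs : 0 ≤ s) (hy : 0 ≤ y) (N : ℕ) (h : y ≤ P ^ N * s) :
    y ^ 5 ≤ s ^ 5 + ∑ j ∈ range N, (P ^ (j + 1) * s) ^ 5 * if P ^ j * s ≤ y then 1 else 0 := by
  induction N with
  | zero => simp only [pow_zero, one_mul] at h; simp only [range_zero, sum_empty, add_zero]; gcongr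
  | succ N ih =>
    rw [sum_range_succ]
    have h0 : 0 ≤ ∑ j ∈ range N, (P ^ (j + 1) * s) ^ 5 * if P ^ j * s ≤ y then 1 else 0 :=
      sum_nonneg fun j _ => by split_ifs <;> positivity
    split_ifs with h1
    · have : y ^ 5 ≤ (P ^ (N + 1) * s) ^ 5 := by gcongr
      have : 0 ≤ s ^ 5 := by positivity
      linarith
    · have := ih (not_le.1 h1).le
      linarith

theorem strong5 {Q : ℕ} [NeZero Q] {p : ℕ} (hp : 0 < p) {c : (Fin 3 → ℤ) → ℂ}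
    {S : Finset (Fin 3 → ℤ)} {M : ℝ} (hM : Lin Q p 0 c S M) {N : ℕ}
    (hN : ∀ x : Fin 3 → ZMod Q, ‖fs id c S x‖ ≤ (p : ℝ) ^ N * nr c S) :
    av (fun x : Fin 3 → ZMod Q => ‖fs id c S x‖ ^ 5) ≤ (1 + N * ((p : ℝ) ^ 5 * M)) * nr c S ^ 5 := by
  classical
  have p0 : (0 : ℝ) < p := by exact_mod_cast hp
  rcases (nr_nonneg c S).eq_or_lt with h0 | h0
  · have : ∀ x : Fin 3 → ZMod Q, ‖fs id c S x‖ = 0 := fun x =>
      le_antisymm (by simpa [← h0] using hN x) (norm_nonneg _)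
    simp [this, ← h0, av_const]
  refine (av_mono fun x => layer p0.le h0.le (norm_nonneg _) N (hN x)).trans ?_
  rw [av_add, av_const, av_sum, add_mul, one_mul]
  gcongr
  refine (sum_le_card_nsmul _ _ ((p : ℝ) ^ 5 * M * nr c S ^ 5) fun j _ => ?_).trans (le_of_eq ?_)
  · rw [av_mul]
    have h1 := hM S Subset.rfl (fun a _ b _ l => by simp) ((p : ℝ) ^ j * nr c S) (by positivity)
    calc _ = ((p : ℝ) ^ (j + 1) * nr c S) ^ 5 *
          mu (fun x : Fin 3 → ZMod Q => (p : ℝ) ^ j * nr c S ≤ ‖fs id c S x‖) := by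
          unfold mu; congr
      _ ≤ ((p : ℝ) ^ (j + 1) * nr c S) ^ 5 * (M * (nr c S / ((p : ℝ) ^ j * nr c S)) ^ 5) := by gcongr
      _ = _ := by field_simp; ring
  · simp only [card_range, nsmul_eq_mul]; ring

theorem exists_good_prime {J P m : ℕ} (hJ : 1 ≤ J) (hP : 1 ≤ P) (hm : 1 ≤ m) (h : m ≤ P ^ J) :
    ∃ p : ℕ, p.Prime ∧ P < p ∧ p ≤ 2 ^ J * P ∧ ¬ p ∣ m := by
  by_contra hc
  push Not at hc
  have key : ∀ j ≤ J, ∃ n, n ∣ m ∧ (P + 1) ^ j ≤ n ∧ ∀ q, q.Prime → q ∣ n → q ≤ 2 ^ j * P := by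
    intro j
    induction j with
    | zero => exact fun _ => ⟨1, one_dvd _, by simp, fun q hq h => absurd h hq.not_dvd_one⟩
    | succ j ih =>
      intro hj
      obtain ⟨n, h1, h2, h3⟩ := ih (by omega)
      obtain ⟨q, hq, h4, h5⟩ := Nat.exists_prime_lt_and_le_two_mul (2 ^ j * P) (by positivity)
      have h6 : P ≤ 2 ^ j * P := Nat.le_mul_of_pos_left _ (by positivity)
      have h7 : 2 * (2 ^ j * P) = 2 ^ (j + 1) * P := by ring
      have h8 : q ∣ m := hc q hq (by omega) (by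
        rw [h7] at h5
        exact h5.trans (Nat.mul_le_mul_right _ (Nat.pow_le_pow_right (by norm_num) hj)))
      have h9 : ¬ q ∣ n := fun h => by have := h3 q hq h; omega
      refine ⟨q * n, ((Nat.Prime.coprime_iff_not_dvd hq).2 h9).mul_dvd_of_dvd_of_dvd h8 h1, ?_,
        fun r hr h => ?_⟩
      · rw [pow_succ']; exact Nat.mul_le_mul (by omega) h2
      · rcases (Nat.Prime.dvd_mul hr).1 h with h | h
        · have := (Nat.prime_dvd_prime_iff_eq hr hq).1 h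
          omega
        · have := h3 r hr h
          omega
  obtain ⟨n, h1, h2, -⟩ := key J le_rfl
  have h3 := Nat.le_of_dvd hm h1
  have h4 : P ^ J < (P + 1) ^ J := Nat.pow_lt_pow_left (Nat.lt_succ_self P) (by omega)
  omega

theorem card_sphere_le {m : ℕ} {S : Finset (Fin 3 → ℤ)} (hS : ∀ b ∈ S, b ⬝ᵥ b = m) :
    S.card ≤ (2 * m + 1) ^ 3 := by
  have : S ⊆ Fintype.piFinset fun _ : Fin 3 => Icc (-(m : ℤ)) m := fun b hb =>
    Fintype.mem_piFinset.2 fun l => mem_Icc.2 (abs_le.1 (coord_le (hS b hb) l))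
  refine (card_le_card this).trans (le_of_eq ?_)
  simp only [Fintype.card_piFinset, Int.card_Icc, prod_const, card_univ, Fintype.card_fin]
  congr 1; omega

theorem const_le (J : ℕ) : ∃ C : ℝ, 0 < C ∧ ∀ (p : ℕ) (t : ℝ), 0 < p → 1 ≤ t →
    1 + ((2 * (J + 1) : ℕ) : ℝ) * ((p : ℝ) ^ 5 * (1 + 2 * cF p (J + 1) (3 * J + 2) (4 * J + 4) t)) ≤
      C * ((p : ℝ) ^ 76 * t ^ 5) := by
  set c1 : ℝ := 33 ^ (J + 1) * (1 + 64 * 33 ^ (3 * J + 2)) with hc1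
  set c2 : ℝ := c1 * (64 * (24 * (((4 * J + 4 : ℕ) : ℝ) + 2) ^ 8) * (2 * c1) + 1) with hc2
  refine ⟨1 + ((2 * (J + 1) : ℕ) : ℝ) * (1 + 2 * c2), by positivity, fun p t hp ht => ?_⟩
  have p1 : (1 : ℝ) ≤ p := by exact_mod_cast hp
  have hD0 := one_le_cD hp (J + 1) (3 * J + 2)
  have hD : cD p (J + 1) (3 * J + 2) ≤ c1 * (p : ℝ) ^ 30 := by
    have : (1 : ℝ) ≤ (p : ℝ) ^ 15 := one_le_pow₀ p1
    calc cD p (J + 1) (3 * J + 2) ≤ (p : ℝ) ^ 15 * (33 ^ (J + 1) *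
          ((p : ℝ) ^ 15 + 64 * (p : ℝ) ^ 15 * 33 ^ (3 * J + 2))) := by rw [cD]; gcongr
      _ = _ := by rw [hc1]; ring
  have t5 : t ≤ t ^ 5 := le_self_pow₀ ht (by norm_num)
  have t5' : 1 ≤ t ^ 5 := one_le_pow₀ ht
  have hF : cF p (J + 1) (3 * J + 2) (4 * J + 4) t ≤ c2 * ((p : ℝ) ^ 71 * t ^ 5) := by
    have : (1 : ℝ) ≤ (p : ℝ) ^ 41 := one_le_pow₀ p1
    have h2 : t ^ 5 ≤ (p : ℝ) ^ 41 * t ^ 5 := le_mul_of_one_le_left (by positivity) this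
    calc cF p (J + 1) (3 * J + 2) (4 * J + 4) t ≤ c1 * (p : ℝ) ^ 30 *
          (64 * (p : ℝ) ^ 8 * (24 * (p : ℝ) ^ 3 * (((4 * J + 4 : ℕ) : ℝ) + 2) ^ 8 * t ^ 5) *
            (2 * (c1 * (p : ℝ) ^ 30)) + (p : ℝ) ^ 41 * t ^ 5) := by rw [cF]; gcongr
      _ = _ := by rw [hc2]; ring
  have h1 : (1 : ℝ) ≤ (p : ℝ) ^ 71 * t ^ 5 := one_le_mul_of_one_le_of_one_le (one_le_pow₀ p1) t5'
  have h2 : (1 : ℝ) ≤ (p : ℝ) ^ 76 * t ^ 5 := one_le_mul_of_one_le_of_one_le (one_le_pow₀ p1) t5'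
  calc _ ≤ (p : ℝ) ^ 76 * t ^ 5 + ((2 * (J + 1) : ℕ) : ℝ) * ((p : ℝ) ^ 5 *
        ((p : ℝ) ^ 71 * t ^ 5 + 2 * (c2 * ((p : ℝ) ^ 71 * t ^ 5)))) := by gcongr
    _ = _ := by ring

theorem disc5 {η : ℝ} (hη : 0 < η) : ∃ C : ℝ, 0 < C ∧ ∀ m : ℕ, 1 ≤ m → ∃ (Q : ℕ) (_ : NeZero Q),
    ∀ (S : Finset (Fin 3 → ℤ)) (c : (Fin 3 → ℤ) → ℂ), (∀ b ∈ S, b ⬝ᵥ b = m) →
      av (fun x : Fin 3 → ZMod Q => ‖fs id c S x‖ ^ 5) ≤ C * (m : ℝ) ^ η * nr c S ^ 5 := by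
  obtain ⟨J, hJ⟩ := exists_nat_ge (152 / η)
  have hJ0 : (0 : ℝ) < J := lt_of_lt_of_le (by positivity) hJ
  have hJ1 : 1 ≤ J := by exact_mod_cast hJ0
  obtain ⟨C1, hC1, h1⟩ := circ_exists (δ := η / 10) (by positivity)
  obtain ⟨C2, hC2, h2⟩ := const_le J
  refine ⟨C2 * ((2 ^ J * 4) ^ 76 * C1 ^ 5), by positivity, fun m hm => ?_⟩
  have m1 : (1 : ℝ) ≤ m := by exact_mod_cast hm
  set y : ℝ := (m : ℝ) ^ (1 / J : ℝ) with hy
  have y1 : 1 ≤ y := Real.one_le_rpow m1 (by positivity)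
  have yJ : y ^ J = m := by
    rw [hy, one_div, Real.rpow_inv_natCast_pow (by positivity) (by omega)]
  have hP : m ≤ (⌈y⌉₊ + 2) ^ J := by
    have : (m : ℝ) ≤ ((⌈y⌉₊ + 2 : ℕ) : ℝ) ^ J := by
      rw [← yJ]; gcongr; push_cast; linarith [Nat.le_ceil y]
    exact_mod_cast this
  obtain ⟨p, hp, hp1, hp2, hpm⟩ := exists_good_prime hJ1 (by omega) hm hP
  have hmp : (m : ℤ) < (p : ℤ) ^ J := by
    exact_mod_cast hP.trans_lt (Nat.pow_lt_pow_left hp1 (by omega))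
  have p3 : (3 : ℤ) ≤ p := by omega
  have m0 : (0 : ℤ) ≤ m := Nat.cast_nonneg m
  have pJ : (0 : ℤ) < (p : ℤ) ^ J := by positivity
  have hK : 2 * (m : ℤ) < (p : ℤ) ^ (J + 1) := by rw [pow_succ]; nlinarith
  haveI : NeZero (p ^ (4 * J + 4)) := ⟨pow_ne_zero _ hp.ne_zero⟩
  refine ⟨p ^ (4 * J + 4), inferInstance, fun S c hS => ?_⟩
  set t := C1 * (m : ℝ) ^ (η / 10) with ht
  have t1 : 1 ≤ t := one_le_mul_of_one_le_of_one_le hC1 (Real.one_le_rpow m1 (by positivity))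
  have hw := weak5 (I := 4 * J + 4) (L := 3 * J + 2) (K := J + 1) hp (by omega) hpm (h1 m hm) t1
    (by
      have : (m : ℤ) ^ 3 < ((p : ℤ) ^ J) ^ 3 := by gcongr
      have e : (p : ℤ) ^ (3 * J + 2) = ((p : ℤ) ^ J) ^ 3 * (p * p) := by ring
      have : (9 : ℤ) ≤ p * p := by nlinarith
      have : (0 : ℤ) ≤ (m : ℤ) ^ 3 := by positivity
      rw [e]; nlinarith) (by omega)
    (by
      have e : 4 * J + 4 - (3 * J + 2) = J + 2 := by omega
      have : (9 : ℤ) ≤ p * p := by nlinarith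
      rw [e, pow_add, sq]; nlinarith) hK c hS
  have hs := strong5 hp.pos hw (N := 2 * (J + 1)) fun x => by
    have a0 := nr_nonneg c S
    refine (abs_le_of_sq_le_sq' ?_ (by positivity)).2
    rw [mul_pow, nr_sq]
    refine (fs_sq_le _ _ _ _).trans (mul_le_mul_of_nonneg_right ?_ (ms_nonneg _ _))
    have a1 : 2 * m + 1 ≤ p ^ (J + 1) := by exact_mod_cast hK
    have a2 : S.card ≤ (p ^ (2 * (J + 1))) ^ 2 := by
      refine (card_sphere_le hS).trans ((Nat.pow_le_pow_left a1 3).trans ?_)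
      rw [← pow_mul, ← pow_mul]
      exact Nat.pow_le_pow_right hp.pos (by omega)
    exact_mod_cast a2
  refine hs.trans (mul_le_mul_of_nonneg_right ((h2 p t hp.pos t1).trans ?_)
    (pow_nonneg (nr_nonneg _ _) _))
  have b1 : (p : ℝ) ≤ 2 ^ J * 4 * y := by
    have : (p : ℝ) ≤ 2 ^ J * ((⌈y⌉₊ : ℝ) + 2) := by exact_mod_cast hp2
    have h3 := (Nat.ceil_lt_add_one (show 0 ≤ y by linarith)).le
    refine this.trans ?_
    rw [mul_assoc]; gcongr; linarith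
  have b2 : y ^ 76 ≤ (m : ℝ) ^ (η / 2) := by
    rw [hy, ← Real.rpow_natCast, ← Real.rpow_mul (by positivity)]
    refine Real.rpow_le_rpow_of_exponent_le m1 ?_
    rw [div_le_iff₀ hη] at hJ
    rw [one_div, inv_mul_le_iff₀ hJ0]
    push_cast; linarith
  have b3 : ((m : ℝ) ^ (η / 10)) ^ 5 = (m : ℝ) ^ (η / 2) := by
    rw [← Real.rpow_natCast, ← Real.rpow_mul (by positivity)]; congr 1; push_cast; ring
  have b4 : (m : ℝ) ^ (η / 2) * (m : ℝ) ^ (η / 2) = (m : ℝ) ^ η := by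
    rw [← Real.rpow_add (by positivity)]; congr 1; ring
  calc C2 * ((p : ℝ) ^ 76 * t ^ 5) ≤ C2 * ((2 ^ J * 4 * y) ^ 76 * t ^ 5) := by gcongr
    _ = C2 * ((2 ^ J * 4) ^ 76 * C1 ^ 5) * (y ^ 76 * (m : ℝ) ^ (η / 2)) := by
        rw [ht, mul_pow C1, b3, mul_pow _ y]; ring
    _ ≤ C2 * ((2 ^ J * 4) ^ 76 * C1 ^ 5) * ((m : ℝ) ^ (η / 2) * (m : ℝ) ^ (η / 2)) := by gcongr
    _ = _ := by rw [b4]

theorem card_sphere_le' {m : ℕ} (hm : 1 ≤ m) {t : ℝ} (ht : 0 ≤ t) (hC : Circ m t)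
    {S : Finset (Fin 3 → ℤ)} (hS : ∀ b ∈ S, b ⬝ᵥ b = m) : (S.card : ℝ) ≤ 3 * √(m : ℝ) * t := by
  have hmem : ∀ b ∈ S, b 2 ∈ Icc (-(Nat.sqrt m : ℤ)) (Nat.sqrt m) := by
    intro b hb
    have h1 := hS b hb
    rw [dot3] at h1
    have h2 : (m : ℤ) < ((Nat.sqrt m : ℤ) + 1) ^ 2 := by exact_mod_cast Nat.lt_succ_sqrt' m
    have h3 : b 2 ^ 2 < ((Nat.sqrt m : ℤ) + 1) ^ 2 := by nlinarith [sq_nonneg (b 0), sq_nonneg (b 1)]
    have := abs_lt_of_sq_lt_sq' h3 (by positivity)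
    rw [mem_Icc]; omega
  rw [card_eq_sum_card_fiberwise hmem]
  push_cast
  refine (sum_le_card_nsmul _ _ t fun s _ => hC ![0, 0, 1] (fun h => ?_) (fun i => ?_) s _
    fun a ha => ⟨hS a (mem_filter.1 ha).1, ?_⟩).trans ?_
  · simpa using congrFun h 2
  · fin_cases i <;> simp <;> omega
  · rw [dot3, ← (mem_filter.1 ha).2]; simp
  · rw [nsmul_eq_mul]
    gcongr
    have h1 : (Icc (-(Nat.sqrt m : ℤ)) (Nat.sqrt m)).card = 2 * Nat.sqrt m + 1 := by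
      rw [Int.card_Icc]; omega
    have h2 : (Nat.sqrt m : ℝ) ≤ √(m : ℝ) := Real.nat_sqrt_le_real_sqrt
    have h3 : 1 ≤ √(m : ℝ) := Real.one_le_sqrt.2 (by exact_mod_cast hm)
    rw [h1]; push_cast; linarith

theorem discq {q ε : ℝ} (hq : 2 ≤ q) (hε : 0 < ε) : ∃ C : ℝ, 0 < C ∧ ∀ m : ℕ, 1 ≤ m →
    ∃ (Q : ℕ) (_ : NeZero Q), ∀ (S : Finset (Fin 3 → ℤ)) (c : (Fin 3 → ℤ) → ℂ),
      (∀ b ∈ S, b ⬝ᵥ b = m) → av (fun x : Fin 3 → ZMod Q => ‖fs id c S x‖ ^ q) ≤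
        C * (√(m : ℝ) ^ (max (1 / 2 - 5 / (2 * q)) 0 + ε) * nr c S) ^ q := by
  obtain ⟨C1, hC1, h1⟩ := disc5 hε
  obtain ⟨C2, hC2, h2⟩ := circ_exists hε
  refine ⟨1 + C1 * (1 + (3 * C2) ^ ((q - 5) / 2)), by positivity, fun m hm => ?_⟩
  obtain ⟨Q, hQ, h3⟩ := h1 m hm
  refine ⟨Q, hQ, fun S c hS => ?_⟩
  have h4 := h3 S c hS
  have m1 : (1 : ℝ) ≤ m := by exact_mod_cast hm
  set l := √(m : ℝ) with hl
  have l1 : 1 ≤ l := Real.one_le_sqrt.2 m1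
  have l0 : 0 < l := by linarith
  have hml : (m : ℝ) ^ ε = l ^ (2 * ε) := by
    rw [Real.rpow_mul l0.le, Real.rpow_two, hl, Real.sq_sqrt (by positivity)]
  rw [hml] at h4
  set s := nr c S with hs
  have q0 : 0 < q := by linarith
  rcases (nr_nonneg c S).eq_or_lt with h0 | h0
  · have : ∀ x : Fin 3 → ZMod Q, ‖fs id c S x‖ = 0 := fun x => by
      have := fs_sq_le id c S x
      rw [← nr_sq, ← h0] at this
      simpa using this
    simp only [this, av_const, Real.zero_rpow q0.ne']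
    positivity
  rw [← hs] at h0
  rw [Real.mul_rpow (by positivity) h0.le, ← Real.rpow_mul l0.le]
  have k0 : 0 ≤ (3 * C2) ^ ((q - 5) / 2) := by positivity
  rcases le_total q 5 with h5 | h5
  · have e1 : ∀ y : ℝ, 0 ≤ y → y ^ q ≤ s ^ q + s ^ q / s ^ 5 * y ^ 5 := by
      intro y hy
      rcases le_total y s with h | h
      · have : y ^ q ≤ s ^ q := by gcongr
        have : 0 ≤ s ^ q / s ^ 5 * y ^ 5 := by positivity
        linarith
      · have a1 : (y / s) ^ q ≤ (y / s) ^ (5 : ℝ) :=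
          Real.rpow_le_rpow_of_exponent_le ((one_le_div h0).2 h) h5
        rw [Real.div_rpow hy h0.le, div_le_iff₀ (by positivity)] at a1
        have a2 : (y / s) ^ (5 : ℝ) * s ^ q = s ^ q / s ^ 5 * y ^ 5 := by
          rw [show (5 : ℝ) = ((5 : ℕ) : ℝ) by norm_num, Real.rpow_natCast]; field_simp
        have : 0 ≤ s ^ q := by positivity
        linarith
    refine (av_mono fun x => e1 _ (norm_nonneg _)).trans ?_
    rw [av_add, av_const, av_mul]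
    have e2 : l ^ (2 * ε) ≤ l ^ ((max (1 / 2 - 5 / (2 * q)) 0 + ε) * q) := by
      refine Real.rpow_le_rpow_of_exponent_le l1 ?_
      have := le_max_right (1 / 2 - 5 / (2 * q)) 0
      nlinarith
    have e3 : 1 ≤ l ^ (2 * ε) := Real.one_le_rpow l1 (by positivity)
    calc _ ≤ s ^ q + s ^ q / s ^ 5 * (C1 * l ^ (2 * ε) * s ^ 5) := by gcongr
      _ = (1 + C1 * l ^ (2 * ε)) * s ^ q := by field_simp
      _ ≤ (l ^ (2 * ε) + C1 * (1 + (3 * C2) ^ ((q - 5) / 2)) * l ^ (2 * ε)) * s ^ q := by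
          gcongr; exact le_mul_of_one_le_right hC1.le (by linarith)
      _ = (1 + C1 * (1 + (3 * C2) ^ ((q - 5) / 2))) * (l ^ (2 * ε) * s ^ q) := by ring
      _ ≤ _ := by gcongr
  · have hc := card_sphere_le' hm (by positivity) (h2 m hm) hS
    rw [hml, ← hl] at hc
    set B := 3 * C2 * l ^ (1 + 2 * ε) with hB
    have hc' : (S.card : ℝ) ≤ B := by
      rw [hB, Real.rpow_add l0, Real.rpow_one]; linarith
    have B0 : 0 ≤ B := by positivity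
    have e1 : ∀ x : Fin 3 → ZMod Q, ‖fs id c S x‖ ^ q ≤
        B ^ ((q - 5) / 2) * s ^ (q - 5) * ‖fs id c S x‖ ^ 5 := by
      intro x
      have a1 : ‖fs id c S x‖ ≤ B ^ (1 / 2 : ℝ) * s := by
        refine (abs_le_of_sq_le_sq' ?_ (by positivity)).2
        rw [mul_pow, hs, nr_sq, ← Real.sqrt_eq_rpow, Real.sq_sqrt B0]
        exact (fs_sq_le _ _ _ _).trans (mul_le_mul_of_nonneg_right hc' (ms_nonneg _ _))
      have a2 : ‖fs id c S x‖ ^ q = ‖fs id c S x‖ ^ (q - 5) * ‖fs id c S x‖ ^ 5 := by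
        rw [← Real.rpow_natCast _ 5, ← Real.rpow_add' (norm_nonneg _) (by push_cast; linarith)]
        congr 1; push_cast; ring
      have a3 : (B ^ (1 / 2 : ℝ) * s) ^ (q - 5) = B ^ ((q - 5) / 2) * s ^ (q - 5) := by
        rw [Real.mul_rpow (by positivity) h0.le, ← Real.rpow_mul B0]
        congr 2; ring
      rw [a2, ← a3]
      gcongr
    refine (av_mono e1).trans ?_
    rw [av_mul]
    have e2 : s ^ (q - 5) * s ^ 5 = s ^ q := by
      rw [← Real.rpow_natCast _ 5, ← Real.rpow_add h0]; congr 1; push_cast; ring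
    have e3 : B ^ ((q - 5) / 2) = (3 * C2) ^ ((q - 5) / 2) * l ^ ((1 + 2 * ε) * ((q - 5) / 2)) := by
      rw [hB, Real.mul_rpow (by positivity) (by positivity), ← Real.rpow_mul l0.le]
    have e4 : l ^ ((1 + 2 * ε) * ((q - 5) / 2)) * l ^ (2 * ε) ≤
        l ^ ((max (1 / 2 - 5 / (2 * q)) 0 + ε) * q) := by
      rw [← Real.rpow_add l0]
      refine Real.rpow_le_rpow_of_exponent_le l1 ?_
      have a1 := le_max_left (1 / 2 - 5 / (2 * q)) 0
      have a2 : (1 / 2 - 5 / (2 * q)) * q = (q - 5) / 2 := by field_simp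
      nlinarith
    calc _ ≤ B ^ ((q - 5) / 2) * s ^ (q - 5) * (C1 * l ^ (2 * ε) * s ^ 5) := by gcongr
      _ = C1 * (3 * C2) ^ ((q - 5) / 2) *
          (l ^ ((1 + 2 * ε) * ((q - 5) / 2)) * l ^ (2 * ε) * (s ^ (q - 5) * s ^ 5)) := by
          rw [e3]; ring
      _ ≤ _ := by
          rw [e2]
          gcongr
          nlinarith

theorem av_sq_eq {Q : ℕ} [NeZero Q] {ι : Type*} (a : ι → Fin 3 → ℤ) (c : ι → ℂ) {A : Finset ι}
    (h : ∀ b ∈ A, ∀ b' ∈ A, (∀ l, (Q : ℤ) ∣ a b l - a b' l) → b = b') :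
    av (fun x : Fin 3 → ZMod Q => ‖fs a c A x‖ ^ 2) = ms c A := by
  classical
  have h1 := Eop_sq (Q := Q) a c A 1 0
  rw [Int.cast_one, Eop_one] at h1
  apply Complex.ofReal_injective
  rw [h1, ms, Complex.ofReal_sum]
  refine sum_congr rfl fun b hb => ?_
  rw [sum_eq_single_of_mem b hb]
  · rw [if_pos (by simp), sub_self, ch_of_dvd (by simp), mul_one, Complex.mul_conj']
    push_cast; rfl
  · intro b' hb' hne
    rw [if_neg fun hc => hne (h b hb b' hb' (by simpa using hc)).symm]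

end Pool.Agent.P.MP_c76d8c_an
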