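import Mathlib

/-! The divisor bound (copied from the helper file Div of MP_0ad054_nt). -/

namespace Pool.Agent.P.MP_c76d8c_an

open Finset

/-- number of divisors, as a real number -/
noncomputable def tau (n : ℕ) : ℝ := (n.divisors.card : ℝ)

theorem tau_nonneg (n : ℕ) : 0 ≤ tau n := Nat.cast_nonneg _

theorem one_le_tau {n : ℕ} (hn : n ≠ 0) : 1 ≤ tau n := by
  unfold tau
  exact_mod_cast card_pos.2 ⟨1, Nat.one_mem_divisors.2 hn⟩

theorem tau_mul_le (a b : ℕ) : tau (a * b) ≤ tau a * tau b := by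
  unfold tau
  rw [Nat.divisors_mul]
  exact_mod_cast card_mul_le

theorem two_pow_le_tau {n : ℕ} (hn : n ≠ 0) : (2 : ℝ) ^ n.primeFactors.card ≤ tau n := by
  unfold tau
  rw [Nat.card_divisors hn]
  have : 2 ^ n.primeFactors.card ≤ ∏ x ∈ n.primeFactors, (n.factorization x + 1) :=
    pow_card_le_prod _ _ _ fun p hp => by
      have := (Nat.prime_of_mem_primeFactors hp).factorization_pos_of_dvd hn
        (Nat.dvd_of_mem_primeFactors hp)
      omega
  exact_mod_cast this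

/-- Sums over products: a general splitting inequality. -/
theorem sum_divisors_split (X : ℕ) (f : ℕ → ℕ → ℝ) (hf : ∀ a b, 0 ≤ f a b) :
    ∑ n ∈ Icc 1 X, ∑ d ∈ n.divisors, f d (n / d) ≤ ∑ a ∈ Icc 1 X, ∑ b ∈ Icc 1 X, f a b := by
  rw [sum_sigma', ← sum_product']
  set φ : (Σ _ : ℕ, ℕ) → ℕ × ℕ := fun z => (z.2, z.1 / z.2)
  have hinj : Set.InjOn φ ((Icc 1 X).sigma (fun n => n.divisors) : Finset _) := by
    rintro ⟨n, d⟩ h1 ⟨n', d'⟩ h2 h
    simp only [coe_sigma, Set.mem_sigma_iff, mem_coe] at h1 h2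
    simp only [φ, Prod.mk.injEq] at h
    obtain ⟨rfl, h3⟩ := h
    rw [← Nat.mul_div_cancel' (Nat.dvd_of_mem_divisors h1.2), h3,
      Nat.mul_div_cancel' (Nat.dvd_of_mem_divisors h2.2)]
  have : ∑ z ∈ (Icc 1 X).sigma (fun n => n.divisors), f z.2 (z.1 / z.2) =
      ∑ z ∈ (Icc 1 X).sigma (fun n => n.divisors), (fun y : ℕ × ℕ => f y.1 y.2) (φ z) := rfl
  rw [this, ← sum_image (f := fun y : ℕ × ℕ => f y.1 y.2) hinj]
  refine sum_le_sum_of_subset_of_nonneg ?_ fun _ _ _ => hf _ _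
  intro y hy
  obtain ⟨⟨n, d⟩, hz, rfl⟩ := mem_image.1 hy
  simp only [mem_sigma, mem_Icc, Nat.mem_divisors] at hz
  have h1 := Nat.le_of_dvd (by omega) hz.2.1
  have h2 := Nat.pos_of_dvd_of_pos hz.2.1 (by omega)
  have h3 := Nat.div_pos h1 h2
  have h4 := Nat.div_le_self n d
  simp only [φ, mem_product, mem_Icc]
  omega

theorem sum_inv_le_log (X : ℕ) : ∑ n ∈ Icc 1 X, 1 / (n : ℝ) ≤ 1 + Real.log X := by
  have := harmonic_le_one_add_log X
  rw [harmonic_eq_sum_Icc] at this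
  push_cast at this
  simpa using this

theorem sum_tau_pow_div_le (k X : ℕ) :
    ∑ n ∈ Icc 1 X, tau n ^ k / n ≤ (1 + Real.log X) ^ 2 ^ k := by
  induction k with
  | zero => simpa using sum_inv_le_log X
  | succ k ih =>
    have h0 : 0 ≤ ∑ n ∈ Icc 1 X, tau n ^ k / n :=
      sum_nonneg fun n _ => by have := tau_nonneg n; positivity
    calc ∑ n ∈ Icc 1 X, tau n ^ (k + 1) / n
        ≤ ∑ n ∈ Icc 1 X, ∑ d ∈ n.divisors, tau d ^ k / d * (tau (n / d) ^ k / (n / d : ℕ)) := by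
          refine sum_le_sum fun n _ => ?_
          have e1 : tau n ^ (k + 1) / n = ∑ _d ∈ n.divisors, tau n ^ k / n := by
            rw [sum_const, nsmul_eq_mul, pow_succ]; unfold tau; ring
          rw [e1]
          refine sum_le_sum fun d hd => ?_
          have h1 := Nat.mul_div_cancel' (Nat.dvd_of_mem_divisors hd)
          have h2 := tau_mul_le d (n / d)
          rw [h1] at h2
          have h3 : (n : ℝ) = d * (n / d : ℕ) := by exact_mod_cast h1.symm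
          rw [div_mul_div_comm, ← h3, ← mul_pow]
          have := tau_nonneg n
          gcongr
      _ ≤ ∑ a ∈ Icc 1 X, ∑ b ∈ Icc 1 X, tau a ^ k / a * (tau b ^ k / b) :=
          sum_divisors_split X (fun a b => tau a ^ k / a * (tau b ^ k / b)) fun a b => by
            have := tau_nonneg a; have := tau_nonneg b; positivity
      _ = (∑ n ∈ Icc 1 X, tau n ^ k / n) ^ 2 := by rw [← sum_mul_sum, sq]
      _ ≤ ((1 + Real.log X) ^ 2 ^ k) ^ 2 := by gcongr
      _ = _ := by rw [← pow_mul, pow_succ]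

theorem sum_tau_pow_le (k X : ℕ) :
    ∑ n ∈ Icc 1 X, tau n ^ k ≤ X * (1 + Real.log X) ^ 2 ^ k := by
  calc ∑ n ∈ Icc 1 X, tau n ^ k ≤ ∑ n ∈ Icc 1 X, X * (tau n ^ k / n) := by
        refine sum_le_sum fun n hn => ?_
        rw [mem_Icc] at hn
        have h1 : (0 : ℝ) < n := by exact_mod_cast hn.1
        have h2 : (n : ℝ) ≤ X := by exact_mod_cast hn.2
        have := tau_nonneg n
        rw [← mul_div_assoc, le_div_iff₀ h1, mul_comm]
        gcongr
    _ ≤ _ := by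
        rw [← mul_sum]
        gcongr
        exact sum_tau_pow_div_le k X

theorem one_add_log_le {ε : ℝ} (hε : 0 < ε) :
    ∃ C : ℝ, 0 < C ∧ ∀ x : ℝ, 1 ≤ x → 1 + Real.log x ≤ C * x ^ ε := by
  refine ⟨1 + 1 / ε, by positivity, fun x hx => ?_⟩
  have h1 := Real.log_le_rpow_div (show 0 ≤ x by linarith) hε
  have h2 : 1 ≤ x ^ ε := Real.one_le_rpow hx hε.le
  have : (1 + 1 / ε) * x ^ ε = x ^ ε + x ^ ε / ε := by ring
  linarith

/-- The divisor bound. -/
theorem tau_le {ε : ℝ} (hε : 0 < ε) : ∃ C : ℝ, 0 < C ∧ ∀ n : ℕ, tau n ≤ C * (n : ℝ) ^ ε := by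
  obtain ⟨k, hk⟩ := exists_nat_ge (2 / ε)
  have hk0 : (0 : ℝ) < k := lt_of_lt_of_le (by positivity) hk
  have hk1 : k ≠ 0 := by exact_mod_cast hk0.ne'
  obtain ⟨C, hC, h⟩ := one_add_log_le (ε := 1 / 2 ^ k) (by positivity)
  refine ⟨(C ^ 2 ^ k) ^ (1 / k : ℝ), by positivity, fun n => ?_⟩
  rcases Nat.eq_zero_or_pos n with rfl | hn
  · simp only [tau, Nat.divisors_zero, card_empty, Nat.cast_zero]; positivity
  have hn1 : (1 : ℝ) ≤ n := by exact_mod_cast hn
  have h1 : tau n ^ k ≤ n * (1 + Real.log n) ^ 2 ^ k :=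
    (single_le_sum (f := fun m => tau m ^ k) (fun m _ => pow_nonneg (tau_nonneg m) k)
      (mem_Icc.2 ⟨hn, le_rfl⟩)).trans (sum_tau_pow_le k n)
  have h2 : (1 + Real.log n) ^ 2 ^ k ≤ C ^ 2 ^ k * n := by
    have l0 := Real.log_nonneg hn1
    calc _ ≤ (C * (n : ℝ) ^ (1 / 2 ^ k : ℝ)) ^ 2 ^ k := by gcongr; exact h n hn1
      _ = _ := by
        rw [mul_pow, ← Real.rpow_natCast ((n : ℝ) ^ (1 / 2 ^ k : ℝ)), ← Real.rpow_mul (by linarith)]
        simp
  have h3 : tau n ^ k ≤ ((C ^ 2 ^ k) ^ (1 / k : ℝ) * (n : ℝ) ^ ε) ^ k := by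
    rw [mul_pow, ← Real.rpow_natCast ((C ^ 2 ^ k) ^ (1 / k : ℝ)), ← Real.rpow_mul (by positivity),
      ← Real.rpow_natCast ((n : ℝ) ^ ε), ← Real.rpow_mul (by linarith), one_div_mul_cancel hk0.ne',
      Real.rpow_one]
    have h4 : (n : ℝ) * n ≤ (n : ℝ) ^ (ε * k) := by
      rw [← sq, ← Real.rpow_two]
      refine Real.rpow_le_rpow_of_exponent_le hn1 ?_
      rwa [div_le_iff₀' hε] at hk
    calc tau n ^ k ≤ n * (C ^ 2 ^ k * n) := h1.trans (by gcongr)
      _ = C ^ 2 ^ k * (n * n) := by ring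
      _ ≤ _ := by gcongr
  exact le_of_pow_le_pow_left₀ hk1 (by positivity) h3

end Pool.Agent.P.MP_c76d8c_an
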