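import Mathlib

/-! Finite Fourier analysis on `(ZMod Q)^3`: averages, characters, subgroup averages. -/

namespace Pool.Agent.P.MP_c76d8c_an

open Finset ComplexConjugate

/-- normalised average -/
noncomputable def av {X : Type*} [Fintype X] (F : X → ℝ) : ℝ := (∑ x, F x) / Fintype.card X

open Classical in
/-- normalised counting measure of a predicate -/
noncomputable def mu {X : Type*} [Fintype X] (P : X → Prop) : ℝ :=
  av fun x => if P x then 1 else 0

section Av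
variable {X : Type*} [Fintype X]

theorem av_mono {F H : X → ℝ} (h : ∀ x, F x ≤ H x) : av F ≤ av H := by
  unfold av; gcongr with x; exact h x

theorem av_nonneg {F : X → ℝ} (h : ∀ x, 0 ≤ F x) : 0 ≤ av F :=
  div_nonneg (sum_nonneg fun x _ => h x) (Nat.cast_nonneg _)

theorem av_const [Nonempty X] (r : ℝ) : av (fun _ : X => r) = r := by
  unfold av
  have : (Fintype.card X : ℝ) ≠ 0 := by exact_mod_cast Fintype.card_ne_zero
  simp only [sum_const, card_univ, nsmul_eq_mul]; field_simp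

theorem av_add (F H : X → ℝ) : av (fun x => F x + H x) = av F + av H := by
  unfold av; rw [sum_add_distrib, add_div]

theorem av_mul (r : ℝ) (F : X → ℝ) : av (fun x => r * F x) = r * av F := by
  unfold av; rw [← mul_sum, mul_div_assoc]

theorem av_sum {κ : Type*} (Z : Finset κ) (F : κ → X → ℝ) :
    av (fun x => ∑ z ∈ Z, F z x) = ∑ z ∈ Z, av (F z) := by
  unfold av; rw [sum_comm, sum_div]

theorem av_comm {Y : Type*} [Fintype Y] (F : X → Y → ℝ) :
    av (fun x => av fun y => F x y) = av fun y => av fun x => F x y := by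
  unfold av
  simp only [← sum_div]
  rw [sum_comm, div_div, div_div, mul_comm]

theorem av_equiv (e : X ≃ X) (F : X → ℝ) : av (fun x => F (e x)) = av F := by
  unfold av; rw [e.sum_comp]

theorem av_shift [AddGroup X] (v : X) (F : X → ℝ) : av (fun x => F (x + v)) = av F :=
  av_equiv (Equiv.addRight v) F

theorem av_shift' [AddGroup X] (v : X) (F : X → ℝ) : av (fun x => F (v + x)) = av F :=
  av_equiv (Equiv.addLeft v) F

theorem mu_nonneg (P : X → Prop) : 0 ≤ mu P := av_nonneg fun x => by split_ifs <;> norm_num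

theorem mu_le_av {P : X → Prop} {F : X → ℝ} (h0 : ∀ x, 0 ≤ F x) (h : ∀ x, P x → 1 ≤ F x) :
    mu P ≤ av F := av_mono fun x => by
  split_ifs with hx
  · exact h x hx
  · exact h0 x

theorem mu_le_one [Nonempty X] (P : X → Prop) : mu P ≤ 1 := by
  rw [← av_const (X := X) 1]; exact mu_le_av (fun _ => zero_le_one) fun _ _ => le_rfl

theorem mu_mono {P R : X → Prop} (h : ∀ x, P x → R x) : mu P ≤ mu R :=
  mu_le_av (fun x => by split_ifs <;> norm_num) fun x hx => by rw [if_pos (h x hx)]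

theorem mu_empty {P : X → Prop} (h : ∀ x, ¬ P x) : mu P = 0 := by
  unfold mu av; simp [h]

theorem mu_or (P R : X → Prop) : mu (fun x => P x ∨ R x) ≤ mu P + mu R := by
  unfold mu; rw [← av_add]
  refine av_mono fun x => ?_
  by_cases h1 : P x <;> by_cases h2 : R x <;> simp [h1, h2]

theorem mu_exists {κ : Type*} (Z : Finset κ) (P : κ → X → Prop) :
    mu (fun x => ∃ z ∈ Z, P z x) ≤ ∑ z ∈ Z, mu (P z) := by
  classical
  unfold mu; rw [← av_sum]
  refine av_mono fun x => ?_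
  split_ifs with h
  · obtain ⟨z, hz, hP⟩ := h
    refine le_trans ?_ (single_le_sum (f := fun z => if P z x then (1 : ℝ) else 0)
      (fun z _ => by split_ifs <;> norm_num) hz)
    rw [if_pos hP]
  · exact sum_nonneg fun z _ => by split_ifs <;> norm_num

theorem mul_mu_le {P : X → Prop} {F : X → ℝ} {α : ℝ} (h0 : ∀ x, 0 ≤ F x)
    (h : ∀ x, P x → α ≤ F x) : α * mu P ≤ av F := by
  unfold mu; rw [← av_mul]
  refine av_mono fun x => ?_
  split_ifs with hx
  · rw [mul_one]; exact h x hx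
  · rw [mul_zero]; exact h0 x

theorem mu_shift [AddGroup X] [Nonempty X] {P : X → Prop} (L : X → X) {B : ℝ}
    (h : ∀ x, mu (fun y => P (x + L y)) ≤ B) : mu P ≤ B := by
  classical
  calc mu P = av fun _ : X => mu P := (av_const _).symm
    _ = av fun y : X => av fun x : X => if P (x + L y) then 1 else 0 := by
        congr 1; funext y
        exact (av_shift (L y) fun x => if P x then 1 else 0).symm
    _ = av fun x : X => mu fun y => P (x + L y) := av_comm _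
    _ ≤ av fun _ : X => B := av_mono h
    _ = B := av_const _

end Av

variable {Q : ℕ} [NeZero Q]

/-- the character of frequency `k` -/
noncomputable def ch (k : Fin 3 → ℤ) (x : Fin 3 → ZMod Q) : ℂ :=
  ZMod.stdAddChar (∑ l, (k l : ZMod Q) * x l)

theorem ch_add (k : Fin 3 → ℤ) (x y : Fin 3 → ZMod Q) : ch k (x + y) = ch k x * ch k y := by
  unfold ch; rw [← AddChar.map_add_eq_mul, ← sum_add_distrib]
  simp only [Pi.add_apply, mul_add]

theorem norm_ch (k : Fin 3 → ℤ) (x : Fin 3 → ZMod Q) : ‖ch k x‖ = 1 := by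
  unfold ch; rw [ZMod.stdAddChar_apply]; exact Circle.norm_coe _

theorem ch_sub (k k' : Fin 3 → ℤ) (x : Fin 3 → ZMod Q) :
    ch (k - k') x = ch k x * conj (ch k' x) := by
  unfold ch
  rw [← AddChar.map_neg_eq_conj, ← AddChar.map_add_eq_mul, ← sub_eq_add_neg, ← sum_sub_distrib]
  simp only [Pi.sub_apply, Int.cast_sub, sub_mul]

theorem ch_smul (k : Fin 3 → ℤ) (n : ℤ) (y : Fin 3 → ZMod Q) :
    ch k ((n : ZMod Q) • y) = ch (n • k) y := by
  unfold ch; congr 1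
  refine sum_congr rfl fun l _ => ?_
  simp only [Pi.smul_apply, smul_eq_mul, Int.cast_mul]; ring

theorem ch_of_dvd {k : Fin 3 → ℤ} (h : ∀ l, (Q : ℤ) ∣ k l) (x : Fin 3 → ZMod Q) : ch k x = 1 := by
  unfold ch
  have : ∀ l, (k l : ZMod Q) = 0 := fun l => (ZMod.intCast_zmod_eq_zero_iff_dvd _ _).2 (h l)
  simp [this]

theorem ch_single (k : Fin 3 → ℤ) (j : Fin 3) (s : ZMod Q) :
    ch k (Pi.single j s) = ZMod.stdAddChar ((k j : ZMod Q) * s) := by
  unfold ch; congr 1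
  rw [sum_eq_single j]
  · simp
  · intro l _ hl; simp [Pi.single_eq_of_ne hl]
  · simp

open Classical in
theorem sum_ch (k : Fin 3 → ℤ) : ∑ x : Fin 3 → ZMod Q, ch k x =
    if ∀ l, (Q : ℤ) ∣ k l then (Fintype.card (Fin 3 → ZMod Q) : ℂ) else 0 := by
  split_ifs with h
  · simp [ch_of_dvd h]
  · push Not at h
    obtain ⟨l, hl⟩ := h
    have h1 : ch k (Pi.single l (1 : ZMod Q)) ≠ 1 := by
      rw [ch_single, mul_one, ← (ZMod.stdAddChar (N := Q)).map_zero_eq_one]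
      intro h
      exact hl ((ZMod.intCast_zmod_eq_zero_iff_dvd _ _).1 (ZMod.injective_stdAddChar h))
    have h2 : ∑ x : Fin 3 → ZMod Q, ch k x =
        (∑ x : Fin 3 → ZMod Q, ch k x) * ch k (Pi.single l (1 : ZMod Q)) := by
      rw [sum_mul, ← Equiv.sum_comp (Equiv.addRight (Pi.single l (1 : ZMod Q) : Fin 3 → ZMod Q))
        (fun x => ch k x)]
      simp only [Equiv.coe_addRight, ch_add]
    by_contra h3
    exact h1 (mul_left_cancel₀ h3 (h2.symm.trans (mul_one _).symm))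

variable {ι : Type*}

/-- the exponential sum over `A` with frequencies `a` and coefficients `c` -/
noncomputable def fs (a : ι → Fin 3 → ℤ) (c : ι → ℂ) (A : Finset ι) (x : Fin 3 → ZMod Q) : ℂ :=
  ∑ b ∈ A, c b * ch (a b) x

/-- the mass of the coefficients on `A` -/
noncomputable def ms (c : ι → ℂ) (A : Finset ι) : ℝ := ∑ b ∈ A, ‖c b‖ ^ 2

theorem ms_nonneg (c : ι → ℂ) (A : Finset ι) : 0 ≤ ms c A := sum_nonneg fun _ _ => by positivity

theorem ms_mono (c : ι → ℂ) {A B : Finset ι} (h : A ⊆ B) : ms c A ≤ ms c B :=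
  sum_le_sum_of_subset_of_nonneg h fun _ _ _ => by positivity

theorem ms_fiber {κ : Type*} [DecidableEq κ] (c : ι → ℂ) {A : Finset ι} {Z : Finset κ}
    {lab : ι → κ} (h : ∀ b ∈ A, lab b ∈ Z) :
    ∑ z ∈ Z, ms c (A.filter fun b => lab b = z) = ms c A := sum_fiberwise_of_maps_to h _

theorem fs_fiber {κ : Type*} [DecidableEq κ] (a : ι → Fin 3 → ℤ) (c : ι → ℂ) {A : Finset ι}
    {Z : Finset κ} {lab : ι → κ} (h : ∀ b ∈ A, lab b ∈ Z) (x : Fin 3 → ZMod Q) :
    ∑ z ∈ Z, fs a c (A.filter fun b => lab b = z) x = fs a c A x := sum_fiberwise_of_maps_to h _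

theorem norm_sum_sq_le {κ : Type*} (Z : Finset κ) (F : κ → ℂ) :
    ‖∑ z ∈ Z, F z‖ ^ 2 ≤ Z.card * ∑ z ∈ Z, ‖F z‖ ^ 2 :=
  le_trans (by gcongr; exact norm_sum_le _ _) sq_sum_le_card_mul_sum_sq

theorem fs_sq_le (a : ι → Fin 3 → ℤ) (c : ι → ℂ) (A : Finset ι) (x : Fin 3 → ZMod Q) :
    ‖fs a c A x‖ ^ 2 ≤ A.card * ms c A := by
  refine (norm_sum_sq_le _ _).trans (le_of_eq ?_)
  simp only [ms, norm_mul, norm_ch, mul_one]

theorem fs_sq (a : ι → Fin 3 → ℤ) (c : ι → ℂ) (A : Finset ι) (x : Fin 3 → ZMod Q) :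
    ((‖fs a c A x‖ ^ 2 : ℝ) : ℂ) =
      ∑ b ∈ A, ∑ b' ∈ A, c b * conj (c b') * ch (a b - a b') x := by
  push_cast
  rw [← Complex.mul_conj', fs, map_sum, sum_mul_sum]
  refine sum_congr rfl fun b _ => sum_congr rfl fun b' _ => ?_
  rw [ch_sub, map_mul]; ring

/-- average over the coset `x + r G` -/
noncomputable def Eop (r : ZMod Q) (F : (Fin 3 → ZMod Q) → ℝ) (x : Fin 3 → ZMod Q) : ℝ :=
  av fun y => F (x + r • y)

theorem av_Eop (r : ZMod Q) (F : (Fin 3 → ZMod Q) → ℝ) : av (Eop r F) = av F := by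
  unfold Eop
  rw [av_comm]
  simp only [av_shift, av_const]

theorem Eop_Eop (r s : ZMod Q) (F : (Fin 3 → ZMod Q) → ℝ) (x : Fin 3 → ZMod Q) :
    Eop r (Eop (r * s) F) x = Eop r F x := by
  unfold Eop
  rw [av_comm]
  have : ∀ z : Fin 3 → ZMod Q, (av fun y => F (x + r • y + (r * s) • z)) =
      av fun y => F (x + r • y) := by
    intro z
    rw [← av_shift (s • z) fun y => F (x + r • y)]
    simp only [smul_add, mul_smul, add_assoc]
  simp only [this, av_const]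

theorem Eop_inv (r : ZMod Q) (F : (Fin 3 → ZMod Q) → ℝ) (x y : Fin 3 → ZMod Q) :
    Eop r F (x + r • y) = Eop r F x := by
  unfold Eop
  rw [← av_shift' y fun z => F (x + r • z)]
  simp only [smul_add, add_assoc]

theorem Eop_zero (F : (Fin 3 → ZMod Q) → ℝ) (x : Fin 3 → ZMod Q) : Eop 0 F x = F x := by
  unfold Eop; simp only [zero_smul, add_zero, av_const]

theorem Eop_one (F : (Fin 3 → ZMod Q) → ℝ) (x : Fin 3 → ZMod Q) : Eop 1 F x = av F := by
  unfold Eop; simp only [one_smul, av_shift']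

open Classical in
theorem Eop_sq (a : ι → Fin 3 → ℤ) (c : ι → ℂ) (A : Finset ι) (n : ℤ) (x : Fin 3 → ZMod Q) :
    ((Eop (n : ZMod Q) (fun x => ‖fs a c A x‖ ^ 2) x : ℝ) : ℂ) =
      ∑ b ∈ A, ∑ b' ∈ A, if ∀ l, (Q : ℤ) ∣ n * (a b l - a b' l) then
        c b * conj (c b') * ch (a b - a b') x else 0 := by
  unfold Eop av
  rw [Complex.ofReal_div, Complex.ofReal_sum]
  simp only [fs_sq]
  have hc : ((Fintype.card (Fin 3 → ZMod Q) : ℝ) : ℂ) ≠ 0 := by
    exact_mod_cast Fintype.card_ne_zero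
  rw [div_eq_iff hc, sum_comm, sum_mul]
  refine sum_congr rfl fun b _ => ?_
  rw [sum_comm, sum_mul]
  refine sum_congr rfl fun b' _ => ?_
  simp only [ch_add, ch_smul, ← mul_assoc]
  rw [← mul_sum, sum_ch]
  simp only [Pi.smul_apply, Pi.sub_apply, smul_eq_mul]
  split_ifs <;> simp

open Classical in
theorem av_sq_le (a : ι → Fin 3 → ℤ) (c : ι → ℂ) (A : Finset ι) {t : ℝ}
    (h : ∀ b ∈ A, ((A.filter fun b' => ∀ l, (Q : ℤ) ∣ a b l - a b' l).card : ℝ) ≤ t) :
    av (fun x : Fin 3 → ZMod Q => ‖fs a c A x‖ ^ 2) ≤ t * ms c A := by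
  have h1 := Eop_sq (Q := Q) a c A 1 0
  rw [Int.cast_one, Eop_one] at h1
  simp only [one_mul] at h1
  have h2 : av (fun x : Fin 3 → ZMod Q => ‖fs a c A x‖ ^ 2) ≤ ∑ b ∈ A, ∑ b' ∈ A,
      if ∀ l, (Q : ℤ) ∣ a b l - a b' l then (‖c b‖ ^ 2 + ‖c b'‖ ^ 2) / 2 else 0 := by
    refine (le_abs_self _).trans ?_
    rw [← Real.norm_eq_abs, ← Complex.norm_real, h1]
    refine (norm_sum_le _ _).trans (sum_le_sum fun b _ => (norm_sum_le _ _).trans
      (sum_le_sum fun b' _ => ?_))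
    split_ifs
    · rw [norm_mul, norm_mul, norm_ch, RCLike.norm_conj]
      nlinarith [sq_nonneg (‖c b‖ - ‖c b'‖)]
    · simp
  have h3 : ∑ b ∈ A, ∑ b' ∈ A, (if ∀ l, (Q : ℤ) ∣ a b l - a b' l then ‖c b‖ ^ 2 else 0)
      ≤ t * ms c A := by
    rw [ms, mul_sum]
    refine sum_le_sum fun b hb => ?_
    rw [← sum_filter, sum_const, nsmul_eq_mul]
    gcongr
    exact h b hb
  have h4 : ∑ b ∈ A, ∑ b' ∈ A, (if ∀ l, (Q : ℤ) ∣ a b l - a b' l then ‖c b'‖ ^ 2 else 0)
      = ∑ b ∈ A, ∑ b' ∈ A, (if ∀ l, (Q : ℤ) ∣ a b l - a b' l then ‖c b‖ ^ 2 else 0) := by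
    rw [sum_comm]
    refine sum_congr rfl fun b _ => sum_congr rfl fun b' _ => ?_
    simp only [dvd_sub_comm (b := a b _)]
  refine h2.trans ?_
  have h5 : ∑ b ∈ A, ∑ b' ∈ A,
      (if ∀ l, (Q : ℤ) ∣ a b l - a b' l then (‖c b‖ ^ 2 + ‖c b'‖ ^ 2) / 2 else 0) =
      (∑ b ∈ A, ∑ b' ∈ A, (if ∀ l, (Q : ℤ) ∣ a b l - a b' l then ‖c b‖ ^ 2 else 0) +
      ∑ b ∈ A, ∑ b' ∈ A, (if ∀ l, (Q : ℤ) ∣ a b l - a b' l then ‖c b'‖ ^ 2 else 0)) / 2 := by
    rw [← sum_add_distrib, sum_div]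
    refine sum_congr rfl fun b _ => ?_
    rw [← sum_add_distrib, sum_div]
    refine sum_congr rfl fun b' _ => ?_
    split_ifs <;> simp
  rw [h5, h4]; linarith

theorem sum_three {X : Type*} [Fintype X] (F : (Fin 3 → X) → ℝ) :
    ∑ y, F y = ∑ u, ∑ v, ∑ w, F ![u, v, w] := by
  rw [← (Fin.consEquiv fun _ : Fin 3 => X).sum_comp, Fintype.sum_prod_type]
  refine sum_congr rfl fun u _ => ?_
  rw [← (Fin.consEquiv fun _ : Fin 2 => X).sum_comp, Fintype.sum_prod_type]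
  refine sum_congr rfl fun v _ => ?_
  rw [← Equiv.sum_comp (Equiv.funUnique (Fin 1) X).symm]
  refine sum_congr rfl fun w _ => congrArg F ?_
  funext i; fin_cases i <;> rfl

theorem lw_sum {X : Type*} [Fintype X] (g0 g1 g2 : X → X → ℝ) :
    (∑ u, ∑ v, ∑ w, g0 v w * g1 u w * g2 u v) ^ 2 ≤
      (∑ v, ∑ w, g0 v w ^ 2) * (∑ u, ∑ w, g1 u w ^ 2) * ∑ u, ∑ v, g2 u v ^ 2 := by
  have h1 : ∑ u, ∑ v, ∑ w, g0 v w * g1 u w * g2 u v =
      ∑ z : X × X, (∑ w, g0 z.2 w * g1 z.1 w) * g2 z.1 z.2 := by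
    rw [Fintype.sum_prod_type]; simp only [sum_mul]
  rw [h1]
  refine (sum_mul_sq_le_sq_mul_sq _ _ _).trans ?_
  rw [Fintype.sum_prod_type, Fintype.sum_prod_type]
  gcongr
  rw [mul_comm, sum_mul_sum]
  refine sum_le_sum fun u _ => sum_le_sum fun v _ => ?_
  rw [mul_comm]
  exact sum_mul_sq_le_sq_mul_sq _ _ _

/-- The discrete Loomis-Whitney inequality. -/
theorem lw {X : Type*} [Fintype X] [AddGroup X] (g : Fin 3 → (Fin 3 → X) → ℝ)
    (h : ∀ j y s, g j (y + Pi.single j s) = g j y) :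
    av (fun y => ∏ j, g j y) ≤ ∏ j, √(av fun y => g j y ^ 2) := by
  have e0 : ∀ u v w, g 0 ![u, v, w] = g 0 ![0, v, w] := fun u v w => by
    rw [← h 0 ![0, v, w] u]; congr 1; funext i; fin_cases i <;> simp
  have e1 : ∀ u v w, g 1 ![u, v, w] = g 1 ![u, 0, w] := fun u v w => by
    rw [← h 1 ![u, 0, w] v]; congr 1; funext i; fin_cases i <;> simp
  have e2 : ∀ u v w, g 2 ![u, v, w] = g 2 ![u, v, 0] := fun u v w => by
    rw [← h 2 ![u, v, 0] w]; congr 1; funext i; fin_cases i <;> simp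
  have key := lw_sum (fun v w => g 0 ![0, v, w]) (fun u w => g 1 ![u, 0, w])
    (fun u v => g 2 ![u, v, 0])
  obtain ⟨N, hN⟩ : ∃ N : ℝ, N = (Fintype.card X : ℝ) := ⟨_, rfl⟩
  have hN0 : 0 < N := by rw [hN]; exact_mod_cast Fintype.card_pos
  have hc : (Fintype.card (Fin 3 → X) : ℝ) = N ^ 3 := by simp [hN]
  have a0 : av (fun y => g 0 y ^ 2) = (∑ v, ∑ w, g 0 ![0, v, w] ^ 2) / N ^ 2 := by
    rw [av, sum_three, hc]
    have : ∀ u : X, ∑ v, ∑ w, g 0 ![u, v, w] ^ 2 = ∑ v, ∑ w, g 0 ![0, v, w] ^ 2 := fun u =>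
      sum_congr rfl fun v _ => sum_congr rfl fun w _ => by rw [e0]
    simp only [this, sum_const, card_univ, nsmul_eq_mul, ← hN]
    field_simp
  have a1 : av (fun y => g 1 y ^ 2) = (∑ u, ∑ w, g 1 ![u, 0, w] ^ 2) / N ^ 2 := by
    rw [av, sum_three, hc]
    have : ∀ u v : X, ∑ w, g 1 ![u, v, w] ^ 2 = ∑ w, g 1 ![u, 0, w] ^ 2 := fun u v =>
      sum_congr rfl fun w _ => by rw [e1]
    simp only [this, sum_const, card_univ, nsmul_eq_mul, ← hN, ← mul_sum]
    field_simp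
  have a2 : av (fun y => g 2 y ^ 2) = (∑ u, ∑ v, g 2 ![u, v, 0] ^ 2) / N ^ 2 := by
    rw [av, sum_three, hc]
    have : ∀ u v w : X, g 2 ![u, v, w] ^ 2 = g 2 ![u, v, 0] ^ 2 := fun u v w => by rw [e2]
    simp only [this, sum_const, card_univ, nsmul_eq_mul, ← hN, ← mul_sum]
    field_simp
  have a3 : av (fun y => ∏ j, g j y) =
      (∑ u, ∑ v, ∑ w, g 0 ![0, v, w] * g 1 ![u, 0, w] * g 2 ![u, v, 0]) / N ^ 3 := by
    rw [av, sum_three, hc]
    congr 1
    refine sum_congr rfl fun u _ => sum_congr rfl fun v _ => sum_congr rfl fun w _ => ?_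
    rw [Fin.prod_univ_three, e0, e1, e2]
  have p0 : 0 ≤ av (fun y => g 0 y ^ 2) := av_nonneg fun _ => sq_nonneg _
  have p1 : 0 ≤ av (fun y => g 1 y ^ 2) := av_nonneg fun _ => sq_nonneg _
  rw [Fin.prod_univ_three, ← Real.sqrt_mul p0, ← Real.sqrt_mul (mul_nonneg p0 p1)]
  refine Real.le_sqrt_of_sq_le ?_
  rw [a0, a1, a2, a3, div_pow, div_mul_div_comm, div_mul_div_comm]
  have : (N ^ 3) ^ 2 = N ^ 2 * N ^ 2 * N ^ 2 := by ring
  rw [this]
  gcongr

end Pool.Agent.P.MP_c76d8c_an
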