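import Pool.Agent.P.MP_c76d8c_an.Tri
import Pool.Agent.P.MP_c76d8c_an.Circ

/-! `p`-adic frames for pairs of caps of the sphere. -/

namespace Pool.Agent.P.MP_c76d8c_an

open Finset Matrix

theorem coord_le {m : ℕ} {b : Fin 3 → ℤ} (h : b ⬝ᵥ b = m) (l : Fin 3) : |b l| ≤ m := by
  have h1 : b l ^ 2 ≤ m := by
    rw [← h, dot3]
    fin_cases l <;> simp <;> nlinarith [sq_nonneg (b 0), sq_nonneg (b 1), sq_nonneg (b 2)]
  have h2 : |b l| ≤ b l ^ 2 := by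
    rw [← sq_abs]
    rcases (abs_nonneg (b l)).eq_or_lt with h | h
    · rw [← h]; simp
    · nlinarith
  exact h2.trans h1

theorem eq_of_cl {p k : ℕ} {n : ℤ} (hn : n < (p : ℤ) ^ k) {u v : Fin 3 → ℤ}
    (hb : ∀ l, |u l - v l| ≤ n) (h : cl p k u v) : u = v := by
  funext l
  exact sub_eq_zero.1 (Int.eq_zero_of_abs_lt_dvd (h l) ((hb l).trans_lt hn))

theorem cop_pow {p : ℕ} (hp : p.Prime) {w : ℤ} (hw : ¬ (p : ℤ) ∣ w) (k : ℕ) :
    IsCoprime ((p : ℤ) ^ k) w :=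
  ((Nat.prime_iff_prime_int.1 hp).coprime_iff_not_dvd.2 hw).pow_left

theorem cl_vecMul {p I v : ℕ} (hp : p.Prime) (hv : v ≤ I) {Ψ : Matrix (Fin 3) (Fin 3) ℤ} {w : ℤ}
    (hw : ¬ (p : ℤ) ∣ w) (hdet : Ψ.det = (p : ℤ) ^ v * w) {b b' : Fin 3 → ℤ}
    (h : cl p I (b ᵥ* Ψ) (b' ᵥ* Ψ)) : cl p (I - v) b b' := by
  intro l
  have h1 : ((b - b') ᵥ* Ψ) ᵥ* Ψ.adjugate = Ψ.det • (b - b') := by
    rw [vecMul_vecMul, mul_adjugate, vecMul_smul, vecMul_one]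
  have h2 : (p : ℤ) ^ I ∣ Ψ.det * (b l - b' l) := by
    have := congrFun h1 l
    simp only [Pi.smul_apply, Pi.sub_apply, smul_eq_mul] at this
    rw [← this, vecMul, dotProduct]
    refine dvd_sum fun k _ => Dvd.dvd.mul_right ?_ _
    rw [sub_vecMul]; exact h k
  have h3 : (p : ℤ) ^ I = (p : ℤ) ^ v * (p : ℤ) ^ (I - v) := by
    rw [← pow_add, Nat.add_sub_cancel' hv]
  have hp0 : (p : ℤ) ^ v ≠ 0 := pow_ne_zero _ (by exact_mod_cast hp.ne_zero)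
  rw [hdet, h3, mul_assoc, mul_dvd_mul_iff_left hp0] at h2
  exact (cop_pow hp hw _).dvd_of_dvd_mul_left h2

theorem ch_mulVec {Q : ℕ} [NeZero Q] (Ψ : Matrix (Fin 3) (Fin 3) ℤ) (b : Fin 3 → ℤ)
    (y : Fin 3 → ZMod Q) : ch b ((Ψ.map (Int.cast : ℤ → ZMod Q)) *ᵥ y) = ch (b ᵥ* Ψ) y := by
  unfold ch; congr 1
  simp only [mulVec, vecMul, dotProduct, map_apply, Fin.sum_univ_three]
  push_cast; ring

/-- the trilinear level set bound with constant `T` -/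
def TB (Q : ℕ) [NeZero Q] (c : (Fin 3 → ℤ) → ℂ) (T : ℝ) (A : Fin 3 → Finset (Fin 3 → ℤ)) : Prop :=
  ∀ (α ρ : Fin 3 → ℝ) (r : ℝ), (∀ j, 0 < α j) → (∀ j, 0 < ρ j) → (∀ j, ρ j ≤ r) →
    (∀ j, ms c (A j) ≤ (ρ j * α j) ^ 2) →
    mu (fun x : Fin 3 → ZMod Q => ∀ j, α j ≤ ‖fs id c (A j) x‖) ≤ T * ((∏ j, ρ j) * r ^ 2)

theorem triG {p I v m : ℕ} [NeZero (p ^ I)] (hp : p.Prime) (hp2 : p ≠ 2) {t : ℝ} (hC : Circ m t)
    (ht : 1 ≤ t) (hv : v ≤ I) (hI : 4 * (m : ℤ) < (p : ℤ) ^ (I - v)) (c : (Fin 3 → ℤ) → ℂ)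
    {A : Fin 3 → Finset (Fin 3 → ℤ)} (hA : ∀ j, ∀ b ∈ A j, b ⬝ᵥ b = m)
    {Φ T : Matrix (Fin 3) (Fin 3) ℤ} {u w : ℤ} (hw : ¬ (p : ℤ) ∣ w)
    (hdet : Φ.det = (p : ℤ) ^ v * w) (hT : ¬ (p : ℤ) ∣ T.det) {X : (Fin 3 → ℤ) → Fin 3 → ℤ}
    (hX : ∀ j, ∀ b ∈ A j, Φ *ᵥ X b = u • b ∧ ∀ l, (p : ℤ) ∣ X b l - T l j) :
    TB (p ^ I) c (24 * (p : ℝ) ^ 3 * ((I : ℝ) + 2) ^ 8 * t) A := by
  classical
  intro α ρ r hα hρ hr hm
  have hpi := Nat.prime_iff_prime_int.1 hp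
  set Ψ := Φ * T with hΨ
  have hw' : ¬ (p : ℤ) ∣ w * T.det := fun h => (hpi.dvd_or_dvd h).elim hw hT
  have hdet' : Ψ.det = (p : ℤ) ^ v * (w * T.det) := by rw [hΨ, det_mul, hdet, mul_assoc]
  have hsep : ∀ {b b' : Fin 3 → ℤ}, (∀ l, |b l - b' l| ≤ 4 * m) →
      cl p I (b ᵥ* Ψ) (b' ᵥ* Ψ) → b = b' := fun hb h =>
    eq_of_cl hI hb (cl_vecMul hp hv hw' hdet' h)
  have hb2 : ∀ j, ∀ b ∈ A j, ∀ b' ∈ A j, ∀ l, |b l - b' l| ≤ 2 * m := fun j b hb b' hb' l => by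
    have h1 := coord_le (hA j b hb) l
    have h2 := coord_le (hA j b' hb') l
    exact (abs_sub _ _).trans (by linarith)
  refine mu_shift (fun y => (Ψ.map (Int.cast : ℤ → ZMod (p ^ I))) *ᵥ y) fun x0 => ?_
  have e : ∀ j y, fs id c (A j) (x0 + (Ψ.map (Int.cast : ℤ → ZMod (p ^ I))) *ᵥ y) =
      fs (fun b => b ᵥ* Ψ) (fun b => c b * ch b x0) (A j) y := fun j y => by
    simp only [fs, id, ch_add, ch_mulVec, mul_assoc]
  simp only [e]
  refine lemT hp.pos _ ht (fun j => ?_) (fun j b hb b' hb' h => hsep (fun l => ?_) h)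
    (fun j => ?_) hα hρ hr fun j => ?_
  · intro b hb b' hb' i hc
    have hμ : ∀ b ∈ A j, Ψ *ᵥ (T.adjugate *ᵥ X b) = (T.det * u) • b := fun b hb => by
      rw [hΨ, mulVec_mulVec, mul_assoc, mul_adjugate, ← mulVec_mulVec, smul_mulVec, one_mulVec,
        mulVec_smul, (hX j b hb).1, mul_smul]
    have hμ2 : ∀ b ∈ A j, ∀ l, (p : ℤ) ∣ (T.adjugate *ᵥ X b) l - if l = j then T.det else 0 := by
      intro b hb l
      have h1 : (if l = j then T.det else 0) = ∑ k, T.adjugate l k * T k j := by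
        rw [← mul_apply, adjugate_mul, Matrix.smul_apply, one_apply]; simp
      rw [h1, mulVec, dotProduct, ← sum_sub_distrib]
      refine dvd_sum fun k _ => ?_
      rw [← mul_sub]
      exact ((hX j b hb).2 k).mul_left _
    have h0 : ∑ l, (b ᵥ* Ψ - b' ᵥ* Ψ) l * (T.adjugate *ᵥ X b + T.adjugate *ᵥ X b') l = 0 := by
      rw [← dotProduct, ← sub_vecMul, ← dotProduct_mulVec, mulVec_add, hμ b hb, hμ b' hb',
        ← smul_add, dotProduct_smul, sub_dotProduct, dotProduct_add, dotProduct_add,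
        hA j b hb, hA j b' hb', dotProduct_comm b' b, smul_eq_mul]
      ring
    have h1 : (p : ℤ) ^ (i + 1) ∣ ∑ l, (b ᵥ* Ψ - b' ᵥ* Ψ) l *
        (((T.adjugate *ᵥ X b) l - if l = j then T.det else 0) +
          ((T.adjugate *ᵥ X b') l - if l = j then T.det else 0)) := by
      refine dvd_sum fun l _ => ?_
      rw [pow_succ]
      exact mul_dvd_mul (hc l) ((hμ2 b hb l).add (hμ2 b' hb' l))
    have h2 : ∑ l, (b ᵥ* Ψ - b' ᵥ* Ψ) l *
        (((T.adjugate *ᵥ X b) l - if l = j then T.det else 0) +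
          ((T.adjugate *ᵥ X b') l - if l = j then T.det else 0)) =
        ∑ l, (b ᵥ* Ψ - b' ᵥ* Ψ) l * (T.adjugate *ᵥ X b + T.adjugate *ᵥ X b') l -
          ∑ l, if l = j then (2 * T.det) * (b ᵥ* Ψ - b' ᵥ* Ψ) l else 0 := by
      rw [← sum_sub_distrib]
      refine sum_congr rfl fun l _ => ?_
      simp only [Pi.add_apply]
      split_ifs <;> ring
    rw [h2, h0, sum_ite_eq', if_pos (mem_univ _), zero_sub, dvd_neg] at h1
    have h3 : ¬ (p : ℤ) ∣ 2 * T.det := fun h => by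
      refine (hpi.dvd_or_dvd h).elim (fun h2 => hp2 ?_) hT
      have : p ∣ 2 := by exact_mod_cast h2
      exact (Nat.prime_dvd_prime_iff_eq hp Nat.prime_two).1 this
    exact (cop_pow hp h3 _).dvd_of_dvd_mul_left h1
  · have := hb2 j b hb b' hb' l
    have : (0 : ℤ) ≤ m := Nat.cast_nonneg m
    linarith
  · intro b hb b' hb' hne P hP
    have hP' : ∀ z ∈ P, b - b' = z.1 - z.2 := fun z hz => by
      refine hsep (fun l => ?_) ?_
      · have h1 := hb2 j b hb b' hb' l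
        have h2 := hb2 j _ (hP z hz).1 _ (hP z hz).2.1 l
        exact (abs_sub _ _).trans (by simp only [Pi.sub_apply]; linarith)
      · rw [sub_vecMul, sub_vecMul]; exact (hP z hz).2.2
    have hinj : Set.InjOn (fun z : (Fin 3 → ℤ) × (Fin 3 → ℤ) => z.1) P := by
      intro z hz z' hz' h
      have h1 := (hP' z hz).symm.trans (hP' z' hz')
      simp only at h
      rw [h] at h1
      exact Prod.ext h (sub_right_injective h1)
    rw [← card_image_of_injOn hinj]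
    refine hC (b - b') (sub_ne_zero.2 hne) (hb2 j b hb b' hb') (b ⬝ᵥ (b - b')) _ fun a ha => ?_
    obtain ⟨z, hz, rfl⟩ := mem_image.1 ha
    refine ⟨hA j _ (hP z hz).1, ?_⟩
    have key : ∀ a a' : Fin 3 → ℤ, a ⬝ᵥ a = m → a' ⬝ᵥ a' = m →
        2 * (a ⬝ᵥ (a - a')) = (a - a') ⬝ᵥ (a - a') := fun a a' h1 h2 => by
      rw [dot3] at h1 h2
      simp only [dot3, Pi.sub_apply]
      linear_combination h1 - h2
    have h1 := key _ _ (hA j b hb) (hA j b' hb')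
    have h2 := key _ _ (hA j _ (hP z hz).1) (hA j _ (hP z hz).2.1)
    rw [← hP' z hz] at h2
    linarith
  · simpa only [ms, norm_mul, norm_ch, mul_one] using hm j

/-- A `p`-adic frame of determinant valuation `v` in which `B1` has coordinates `(1,0,*)` and
`B2` has coordinates `(0,1,*)` modulo `p`. -/
def Fr (p v : ℕ) (B1 B2 : Finset (Fin 3 → ℤ)) : Prop :=
  ∃ (Φ : Matrix (Fin 3) (Fin 3) ℤ) (u w : ℤ) (X : (Fin 3 → ℤ) → Fin 3 → ℤ),
    ¬ (p : ℤ) ∣ u ∧ ¬ (p : ℤ) ∣ w ∧ Φ.det = (p : ℤ) ^ v * w ∧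
    (∀ b ∈ B1, Φ *ᵥ X b = u • b ∧ (p : ℤ) ∣ X b 0 - 1 ∧ (p : ℤ) ∣ X b 1) ∧
    (∀ b ∈ B2, Φ *ᵥ X b = u • b ∧ (p : ℤ) ∣ X b 0 ∧ (p : ℤ) ∣ X b 1 - 1)

theorem not_dvd_sub {p : ℕ} {z z' : ℤ} (hz : z ∈ Ico (0 : ℤ) p) (hz' : z' ∈ Ico (0 : ℤ) p)
    (h : z ≠ z') : ¬ (p : ℤ) ∣ z - z' := fun hd => by
  rw [mem_Ico] at hz hz'
  exact h (sub_eq_zero.1 (Int.eq_zero_of_abs_lt_dvd hd (abs_lt.2 ⟨by omega, by omega⟩)))

theorem Fr.split {p I v m : ℕ} [NeZero (p ^ I)] (hp : p.Prime) (hp2 : p ≠ 2) {t : ℝ}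
    (hC : Circ m t) (ht : 1 ≤ t) (hv : v ≤ I) (hI : 4 * (m : ℤ) < (p : ℤ) ^ (I - v))
    (c : (Fin 3 → ℤ) → ℂ) {B1 B2 : Finset (Fin 3 → ℤ)} (h1 : ∀ b ∈ B1, b ⬝ᵥ b = m)
    (h2 : ∀ b ∈ B2, b ⬝ᵥ b = m) (h : Fr p v B1 B2) :
    ∃ lab : (Fin 3 → ℤ) → ℤ, (∀ b, lab b ∈ Ico (0 : ℤ) p) ∧
      (∀ z z', Fr p (v + 1) (B1.filter fun b => lab b = z) (B2.filter fun b => lab b = z')) ∧
      (∀ z ∈ Ico (0 : ℤ) p, ∀ y ∈ Ico (0 : ℤ) p, z ≠ y → ∀ z',
        TB (p ^ I) c (24 * (p : ℝ) ^ 3 * ((I : ℝ) + 2) ^ 8 * t)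
          ![B1.filter fun b => lab b = z, B1.filter fun b => lab b = y,
            B2.filter fun b => lab b = z']) ∧
      (∀ z ∈ Ico (0 : ℤ) p, ∀ y ∈ Ico (0 : ℤ) p, z ≠ y → ∀ z',
        TB (p ^ I) c (24 * (p : ℝ) ^ 3 * ((I : ℝ) + 2) ^ 8 * t)
          ![B2.filter fun b => lab b = z, B2.filter fun b => lab b = y,
            B1.filter fun b => lab b = z']) := by
  obtain ⟨Φ, u, w, X, hu, hw, hdet, hB1, hB2⟩ := h
  have hp0 : (0 : ℤ) < p := by exact_mod_cast hp.pos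
  have hl : ∀ {b : Fin 3 → ℤ} {z : ℤ}, X b 2 % p = z → (p : ℤ) ∣ X b 2 - z := fun h => by
    rw [← h]; exact Int.dvd_self_sub_emod
  refine ⟨fun b => X b 2 % p, fun b => mem_Ico.2 ⟨Int.emod_nonneg _ hp0.ne',
    Int.emod_lt_of_pos _ hp0⟩, fun z z' => ?_, fun z hz y hy hzy z' => ?_,
    fun z hz y hy hzy z' => ?_⟩
  · have key : ∀ b, (p : ℤ) ∣ X b 2 - z * X b 0 - z' * X b 1 →
        (Φ * !![1, 0, 0; 0, 1, 0; z, z', (p : ℤ)]) *ᵥ
          ![X b 0, X b 1, (X b 2 - z * X b 0 - z' * X b 1) / p] = Φ *ᵥ X b := by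
      intro b hb
      rw [← mulVec_mulVec]
      congr 1
      have := Int.mul_ediv_cancel' hb
      refine vec_ext ?_ ?_ ?_ <;> simp [mulVec, dotProduct, Fin.sum_univ_three]
      linarith
    refine ⟨Φ * !![1, 0, 0; 0, 1, 0; z, z', (p : ℤ)], u, w,
      fun b => ![X b 0, X b 1, (X b 2 - z * X b 0 - z' * X b 1) / p], hu, hw, ?_,
      fun b hb => ?_, fun b hb => ?_⟩
    · rw [det_mul, hdet, det_fin_three]; simp; ring
    · rw [mem_filter] at hb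
      obtain ⟨e1, e2, e3⟩ := hB1 b hb.1
      refine ⟨(key b ?_).trans e1, e2, e3⟩
      have : X b 2 - z * X b 0 - z' * X b 1 = (X b 2 - z) - z * (X b 0 - 1) - z' * X b 1 := by ring
      rw [this]
      exact ((hl hb.2).sub (e2.mul_left _)).sub (e3.mul_left _)
    · rw [mem_filter] at hb
      obtain ⟨e1, e2, e3⟩ := hB2 b hb.1
      refine ⟨(key b ?_).trans e1, e2, e3⟩
      have : X b 2 - z * X b 0 - z' * X b 1 = (X b 2 - z') - z * X b 0 - z' * (X b 1 - 1) := by ring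
      rw [this]
      exact ((hl hb.2).sub (e2.mul_left _)).sub (e3.mul_left _)
  · refine triG hp hp2 hC ht hv hI c (T := !![1, 1, 0; 0, 0, 1; z, y, z']) (u := u) (X := X)
      ?_ hw hdet ?_ ?_
    · intro j b hb
      fin_cases j
      · exact h1 b (mem_filter.1 hb).1
      · exact h1 b (mem_filter.1 hb).1
      · exact h2 b (mem_filter.1 hb).1
    · have : (!![1, 1, 0; 0, 0, 1; z, y, z'] : Matrix (Fin 3) (Fin 3) ℤ).det = z - y := by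
        rw [det_fin_three]; simp; ring
      rw [this]; exact not_dvd_sub hz hy hzy
    · intro j b hb
      fin_cases j
      · obtain ⟨hb1, hb2⟩ := mem_filter.1 hb
        obtain ⟨e1, e2, e3⟩ := hB1 b hb1
        refine ⟨e1, fun l => ?_⟩
        fin_cases l
        · simpa using e2
        · simpa using e3
        · simpa using hl hb2
      · obtain ⟨hb1, hb2⟩ := mem_filter.1 hb
        obtain ⟨e1, e2, e3⟩ := hB1 b hb1
        refine ⟨e1, fun l => ?_⟩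
        fin_cases l
        · simpa using e2
        · simpa using e3
        · simpa using hl hb2
      · obtain ⟨hb1, hb2⟩ := mem_filter.1 hb
        obtain ⟨e1, e2, e3⟩ := hB2 b hb1
        refine ⟨e1, fun l => ?_⟩
        fin_cases l
        · simpa using e2
        · simpa using e3
        · simpa using hl hb2
  · refine triG hp hp2 hC ht hv hI c (T := !![0, 0, 1; 1, 1, 0; z, y, z']) (u := u) (X := X)
      ?_ hw hdet ?_ ?_
    · intro j b hb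
      fin_cases j
      · exact h2 b (mem_filter.1 hb).1
      · exact h2 b (mem_filter.1 hb).1
      · exact h1 b (mem_filter.1 hb).1
    · have : (!![0, 0, 1; 1, 1, 0; z, y, z'] : Matrix (Fin 3) (Fin 3) ℤ).det = y - z := by
        rw [det_fin_three]; simp
      rw [this]; exact not_dvd_sub hy hz hzy.symm
    · intro j b hb
      fin_cases j
      · obtain ⟨hb1, hb2⟩ := mem_filter.1 hb
        obtain ⟨e1, e2, e3⟩ := hB2 b hb1
        refine ⟨e1, fun l => ?_⟩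
        fin_cases l
        · simpa using e2
        · simpa using e3
        · simpa using hl hb2
      · obtain ⟨hb1, hb2⟩ := mem_filter.1 hb
        obtain ⟨e1, e2, e3⟩ := hB2 b hb1
        refine ⟨e1, fun l => ?_⟩
        fin_cases l
        · simpa using e2
        · simpa using e3
        · simpa using hl hb2
      · obtain ⟨hb1, hb2⟩ := mem_filter.1 hb
        obtain ⟨e1, e2, e3⟩ := hB1 b hb1
        refine ⟨e1, fun l => ?_⟩
        fin_cases l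
        · simpa using e2
        · simpa using e3
        · simpa using hl hb2

/-- the triple product -/
def tp (a b c : Fin 3 → ℤ) : ℤ :=
  a 0 * (b 1 * c 2 - b 2 * c 1) + a 1 * (b 2 * c 0 - b 0 * c 2) + a 2 * (b 0 * c 1 - b 1 * c 0)

theorem tp_mulVec (Φ : Matrix (Fin 3) (Fin 3) ℤ) (a b c : Fin 3 → ℤ) :
    tp (Φ *ᵥ a) (Φ *ᵥ b) (Φ *ᵥ c) = Φ.det * tp a b c := by
  simp only [tp, mulVec, dotProduct, Fin.sum_univ_three, det_fin_three]; ring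

theorem Fr.card_le {p v m : ℕ} (hp : p.Prime) {t : ℝ} (hC : Circ m t)
    (hv : 6 * (m : ℤ) ^ 3 < (p : ℤ) ^ v) {B1 B2 : Finset (Fin 3 → ℤ)} (h1 : ∀ b ∈ B1, b ⬝ᵥ b = m)
    (h2 : ∀ b ∈ B2, b ⬝ᵥ b = m) (h : Fr p v B1 B2) (n1 : B1.Nonempty) (n2 : B2.Nonempty) :
    (B1.card : ℝ) ≤ t ∧ (B2.card : ℝ) ≤ t := by
  obtain ⟨Φ, u, w, X, hu, hw, hdet, hB1, hB2⟩ := h
  obtain ⟨b1, hb1⟩ := n1
  obtain ⟨b2, hb2⟩ := n2
  have hpi := Nat.prime_iff_prime_int.1 hp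
  set d : Fin 3 → ℤ := ![b1 1 * b2 2 - b1 2 * b2 1, b1 2 * b2 0 - b1 0 * b2 2,
    b1 0 * b2 1 - b1 1 * b2 0] with hd
  have hdot : ∀ b, b ⬝ᵥ d = tp b1 b2 b := fun b => by
    rw [dot3]; simp [hd, tp]; ring
  have hd0 : d ≠ 0 := by
    intro h0
    have e1 := tp_mulVec Φ (X b1) (X b2) ![0, 0, 1]
    rw [(hB1 b1 hb1).1, (hB2 b2 hb2).1] at e1
    have e2 : tp (u • b1) (u • b2) (Φ *ᵥ ![0, 0, 1]) = u ^ 2 * ((Φ *ᵥ ![0, 0, 1]) ⬝ᵥ d) := by
      rw [hdot]; simp only [tp, Pi.smul_apply, smul_eq_mul]; ring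
    rw [e2, h0, dotProduct_zero, mul_zero, hdet] at e1
    have e3 : tp (X b1) (X b2) ![0, 0, 1] = 0 := by
      refine (mul_eq_zero.1 e1.symm).resolve_left (mul_ne_zero (pow_ne_zero _ hpi.ne_zero) ?_)
      rintro rfl; exact hw (dvd_zero _)
    obtain ⟨-, ⟨x1, hx1⟩, ⟨x2, hx2⟩⟩ := hB1 b1 hb1
    obtain ⟨-, ⟨y1, hy1⟩, ⟨y2, hy2⟩⟩ := hB2 b2 hb2
    refine hpi.not_dvd_one ⟨x2 * X b2 0 - x1 * X b2 1 - y2, ?_⟩
    simp [tp] at e3
    linear_combination e3 - X b2 1 * hx1 + X b2 0 * hx2 - hy2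
  have hdb : ∀ i, |d i| ≤ 2 * m := by
    have a1 := h1 b1 hb1
    have a2 := h2 b2 hb2
    rw [dot3] at a1 a2
    intro i
    rw [abs_le]
    fin_cases i <;> simp [hd] <;> constructor <;>
      nlinarith [sq_nonneg (b1 1 + b2 2), sq_nonneg (b1 1 - b2 2), sq_nonneg (b1 2 + b2 1),
        sq_nonneg (b1 2 - b2 1), sq_nonneg (b1 2 + b2 0), sq_nonneg (b1 2 - b2 0),
        sq_nonneg (b1 0 + b2 2), sq_nonneg (b1 0 - b2 2), sq_nonneg (b1 0 + b2 1),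
        sq_nonneg (b1 0 - b2 1), sq_nonneg (b1 1 + b2 0), sq_nonneg (b1 1 - b2 0),
        sq_nonneg (b1 0), sq_nonneg (b1 1), sq_nonneg (b1 2), sq_nonneg (b2 0), sq_nonneg (b2 1),
        sq_nonneg (b2 2)]
  have key : ∀ b : Fin 3 → ℤ, b ⬝ᵥ b = m → Φ *ᵥ X b = u • b → b ⬝ᵥ d = 0 := by
    intro b hb hX
    have e1 := tp_mulVec Φ (X b1) (X b2) (X b)
    rw [(hB1 b1 hb1).1, (hB2 b2 hb2).1, hX, hdet] at e1
    have e2 : tp (u • b1) (u • b2) (u • b) = u ^ 3 * (b ⬝ᵥ d) := by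
      rw [hdot]; simp only [tp, Pi.smul_apply, smul_eq_mul]; ring
    have e3 : (p : ℤ) ^ v ∣ b ⬝ᵥ d := by
      refine ((cop_pow hp hu v).pow_right (n := 3)).dvd_of_dvd_mul_left ?_
      rw [← e2, e1, mul_assoc]; exact dvd_mul_right _ _
    refine Int.eq_zero_of_abs_lt_dvd e3 (lt_of_le_of_lt ?_ hv)
    have hm : (0 : ℤ) ≤ m := Nat.cast_nonneg m
    have e4 : ∀ l, |b l * d l| ≤ 2 * (m : ℤ) ^ 2 := fun l => by
      rw [abs_mul]
      calc |b l| * |d l| ≤ m * (2 * m) := mul_le_mul (coord_le hb l) (hdb l) (abs_nonneg _) hm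
        _ = _ := by ring
    rw [dot3]
    have e5 : (m : ℤ) ^ 2 ≤ (m : ℤ) ^ 3 := by
      rcases Nat.eq_zero_or_pos m with rfl | h
      · simp
      · exact pow_le_pow_right₀ (by exact_mod_cast h) (by norm_num)
    have := abs_add_three (b 0 * d 0) (b 1 * d 1) (b 2 * d 2)
    linarith [e4 0, e4 1, e4 2]
  exact ⟨hC d hd0 hdb 0 _ fun b hb => ⟨h1 b hb, key b (h1 b hb) (hB1 b hb).1⟩,
    hC d hd0 hdb 0 _ fun b hb => ⟨h2 b hb, key b (h2 b hb) (hB2 b hb).1⟩⟩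

theorem Fr.init {p k m : ℕ} (hp : p.Prime) (hp2 : p ≠ 2) (hpm : ¬ p ∣ m) (hk : 1 ≤ k)
    {B1 B2 : Finset (Fin 3 → ℤ)} {ν1 ν2 : Fin 3 → ℤ} (n1 : ν1 ⬝ᵥ ν1 = m) (n2 : ν2 ⬝ᵥ ν2 = m)
    (hc : cl p k ν2 ν1) (hn : ¬ cl p (k + 1) ν2 ν1) (h1 : ∀ b ∈ B1, cl p (k + 1) b ν1)
    (h2 : ∀ b ∈ B2, cl p (k + 1) b ν2) : Fr p (2 * k) B1 B2 := by
  have hpi := Nat.prime_iff_prime_int.1 hp
  have hq : (p : ℤ) ^ k ≠ 0 := pow_ne_zero _ hpi.ne_zero
  choose η hη using hc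
  have hpq : (p : ℤ) ∣ (p : ℤ) ^ k := dvd_pow_self _ (by omega)
  have hνη : (p : ℤ) ∣ ν1 ⬝ᵥ η := by
    have e : (p : ℤ) ^ k * (2 * (ν1 ⬝ᵥ η) + (p : ℤ) ^ k * (η ⬝ᵥ η)) = 0 := by
      rw [dot3] at n1 n2
      simp only [dot3]
      have a0 : ν2 0 = ν1 0 + (p : ℤ) ^ k * η 0 := by linarith [hη 0]
      have a1 : ν2 1 = ν1 1 + (p : ℤ) ^ k * η 1 := by linarith [hη 1]
      have a2 : ν2 2 = ν1 2 + (p : ℤ) ^ k * η 2 := by linarith [hη 2]
      rw [a0, a1, a2] at n2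
      linear_combination n2 - n1
    have e2 := (mul_eq_zero.1 e).resolve_left hq
    have e3 : (p : ℤ) ∣ 2 * (ν1 ⬝ᵥ η) := by
      rw [eq_neg_of_add_eq_zero_left e2, dvd_neg]; exact hpq.mul_right _
    refine (hpi.dvd_or_dvd e3).resolve_left fun h2 => hp2 ?_
    have : p ∣ 2 := by exact_mod_cast h2
    exact (Nat.prime_dvd_prime_iff_eq hp Nat.prime_two).1 this
  have hex : ∃ e, ¬ (p : ℤ) ∣ tp ν1 η e := by
    by_contra hc
    push Not at hc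
    have c0 := hc ![1, 0, 0]
    have c1 := hc ![0, 1, 0]
    have c2 := hc ![0, 0, 1]
    have hm : ∀ l, (p : ℤ) ∣ (m : ℤ) * η l := by
      intro l
      rw [← n1]
      fin_cases l
      · have : ν1 ⬝ᵥ ν1 * η 0 = ν1 0 * (ν1 ⬝ᵥ η) + ν1 2 * tp ν1 η ![0, 1, 0] -
            ν1 1 * tp ν1 η ![0, 0, 1] := by simp [dot3, tp]; ring
        exact this ▸ ((hνη.mul_left _).add (c1.mul_left _)).sub (c2.mul_left _)
      · have : ν1 ⬝ᵥ ν1 * η 1 = ν1 1 * (ν1 ⬝ᵥ η) + ν1 0 * tp ν1 η ![0, 0, 1] -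
            ν1 2 * tp ν1 η ![1, 0, 0] := by simp [dot3, tp]; ring
        exact this ▸ ((hνη.mul_left _).add (c2.mul_left _)).sub (c0.mul_left _)
      · have : ν1 ⬝ᵥ ν1 * η 2 = ν1 2 * (ν1 ⬝ᵥ η) + ν1 1 * tp ν1 η ![1, 0, 0] -
            ν1 0 * tp ν1 η ![0, 1, 0] := by simp [dot3, tp]; ring
        exact this ▸ ((hνη.mul_left _).add (c0.mul_left _)).sub (c1.mul_left _)
    refine hn fun l => ?_
    rw [hη l, pow_succ]
    refine mul_dvd_mul_left _ ((hpi.dvd_or_dvd (hm l)).resolve_left ?_)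
    exact_mod_cast hpm
  obtain ⟨e, he⟩ := hex
  obtain ⟨y, u', hu'⟩ := hpi.coprime_iff_not_dvd.2 he
  set u0 := tp ν1 η e with hu0
  set β : (Fin 3 → ℤ) → Fin 3 → ℤ := fun b l => (b l - ν1 l) / (p : ℤ) ^ k with hβ
  have key : ∀ b : Fin 3 → ℤ, (∀ l, b l = ν1 l + (p : ℤ) ^ k * β b l) →
      !![ν1 0, ν2 0, (p : ℤ) ^ k * e 0; ν1 1, ν2 1, (p : ℤ) ^ k * e 1;
        ν1 2, ν2 2, (p : ℤ) ^ k * e 2] *ᵥ
        ![u' * (u0 + (p : ℤ) ^ k * tp (β b) η e - tp ν1 (β b) e), u' * tp ν1 (β b) e,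
          u' * tp ν1 η (β b)] = (u' * u0) • b := by
    intro b hb
    have a0 : ν2 0 = ν1 0 + (p : ℤ) ^ k * η 0 := by linarith [hη 0]
    have a1 : ν2 1 = ν1 1 + (p : ℤ) ^ k * η 1 := by linarith [hη 1]
    have a2 : ν2 2 = ν1 2 + (p : ℤ) ^ k * η 2 := by linarith [hη 2]
    refine vec_ext ?_ ?_ ?_ <;>
      simp only [mulVec, dotProduct, Fin.sum_univ_three, of_apply, cons_val', cons_val_zero,
        cons_val_one, Matrix.cons_val, cons_val_fin_one, Pi.smul_apply, smul_eq_mul]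
    · rw [hb 0, a0, hu0]; simp only [tp]; ring
    · rw [hb 1, a1, hu0]; simp only [tp]; ring
    · rw [hb 2, a2, hu0]; simp only [tp]; ring
  refine ⟨!![ν1 0, ν2 0, (p : ℤ) ^ k * e 0; ν1 1, ν2 1, (p : ℤ) ^ k * e 1;
      ν1 2, ν2 2, (p : ℤ) ^ k * e 2], u' * u0, u0,
    fun b => ![u' * (u0 + (p : ℤ) ^ k * tp (β b) η e - tp ν1 (β b) e), u' * tp ν1 (β b) e,
      u' * tp ν1 η (β b)], fun h => ?_, he, ?_, fun b hb => ?_, fun b hb => ?_⟩
  · exact hpi.not_dvd_one (hu' ▸ (dvd_mul_left _ _).add h)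
  · have a0 : ν2 0 = ν1 0 + (p : ℤ) ^ k * η 0 := by linarith [hη 0]
    have a1 : ν2 1 = ν1 1 + (p : ℤ) ^ k * η 1 := by linarith [hη 1]
    have a2 : ν2 2 = ν1 2 + (p : ℤ) ^ k * η 2 := by linarith [hη 2]
    rw [det_fin_three]
    simp only [of_apply, cons_val', cons_val_zero, cons_val_one, Matrix.cons_val, cons_val_fin_one]
    rw [a0, a1, a2, hu0]; simp only [tp]; ring
  · choose γ hγ using h1 b hb
    have hb' : β b = (p : ℤ) • γ := by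
      funext l
      simp only [hβ, Pi.smul_apply, smul_eq_mul]
      rw [hγ l, pow_succ, mul_assoc, Int.mul_ediv_cancel_left _ hq]
    refine ⟨key b fun l => ?_, ?_, ?_⟩
    · rw [hb']; simp only [Pi.smul_apply, smul_eq_mul]; linear_combination hγ l
    · refine ⟨u' * ((p : ℤ) ^ k * tp γ η e - tp ν1 γ e) - y, ?_⟩
      simp only [cons_val_zero, hb', tp, Pi.smul_apply, smul_eq_mul]
      linear_combination hu'
    · refine ⟨u' * tp ν1 γ e, ?_⟩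
      simp only [cons_val_one, cons_val_zero, hb', tp, Pi.smul_apply, smul_eq_mul]
      ring
  · choose γ hγ using h2 b hb
    have hb' : β b = η + (p : ℤ) • γ := by
      funext l
      simp only [hβ, Pi.smul_apply, smul_eq_mul, Pi.add_apply]
      have : b l - ν1 l = (p : ℤ) ^ k * (η l + p * γ l) := by linear_combination hγ l + hη l
      rw [this, Int.mul_ediv_cancel_left _ hq]
    refine ⟨key b fun l => ?_, ?_, ?_⟩
    · rw [hb']; simp only [Pi.smul_apply, smul_eq_mul, Pi.add_apply]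
      linear_combination hγ l + hη l
    · refine ⟨u' * ((p : ℤ) ^ k * tp γ η e - tp ν1 γ e), ?_⟩
      simp only [cons_val_zero, hb', hu0, tp, Pi.smul_apply, smul_eq_mul, Pi.add_apply]
      ring
    · refine ⟨u' * tp ν1 γ e - y, ?_⟩
      simp only [hu0, tp] at hu'
      simp only [cons_val_one, cons_val_zero, hb', tp, Pi.smul_apply, smul_eq_mul, Pi.add_apply]
      linear_combination hu'

end Pool.Agent.P.MP_c76d8c_an
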