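import Pool.Agent.P.MP_c76d8c_an.Frame

/-! The bilinear and linear inductions. -/

namespace Pool.Agent.P.MP_c76d8c_an

open Finset Matrix

section Gen
variable {ι : Type*} {Q : ℕ} [NeZero Q]

/-- the `l^2` norm of the coefficients on `A` -/
noncomputable def nr (c : ι → ℂ) (A : Finset ι) : ℝ := √(ms c A)

theorem nr_nonneg (c : ι → ℂ) (A : Finset ι) : 0 ≤ nr c A := Real.sqrt_nonneg _

theorem nr_sq (c : ι → ℂ) (A : Finset ι) : nr c A ^ 2 = ms c A := Real.sq_sqrt (ms_nonneg c A)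

theorem nr_mono (c : ι → ℂ) {A B : Finset ι} (h : A ⊆ B) : nr c A ≤ nr c B :=
  Real.sqrt_le_sqrt (ms_mono c h)

theorem triv_le (a : ι → Fin 3 → ℤ) (c : ι → ℂ) {A : Finset ι} {n α : ℝ} (hn : 1 ≤ n)
    (hA : (A.card : ℝ) ≤ n) (hα : 0 < α) {x : Fin 3 → ZMod Q} (hx : α ≤ ‖fs a c A x‖) :
    1 ≤ n * (nr c A / α) := by
  rw [← mul_div_assoc, le_div_iff₀ hα, one_mul]
  have h0 := nr_nonneg c A
  refine hx.trans (abs_le_of_sq_le_sq' ?_ (by positivity)).2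
  rw [mul_pow, nr_sq]
  have := ms_nonneg c A
  refine (fs_sq_le a c A x).trans ?_
  gcongr
  nlinarith

theorem mu_le_of {X : Type*} [Fintype X] [Nonempty X] {P : X → Prop} {B : ℝ} (h0 : 0 ≤ B)
    (h : ∀ x, P x → 1 ≤ B) : mu P ≤ B := by
  rw [← av_const (X := X) B]; exact mu_le_av (fun _ => h0) h

theorem dich {κ : Type*} [DecidableEq κ] (a : ι → Fin 3 → ℤ) (c : ι → ℂ)
    {A : Finset ι} {Z : Finset κ} {lab : ι → κ} (h : ∀ b ∈ A, lab b ∈ Z) {α n : ℝ} (hα : 0 < α)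
    (hn : (Z.card : ℝ) ≤ n) {x : Fin 3 → ZMod Q} (hx : α ≤ ‖fs a c A x‖) :
    (∃ z ∈ Z, α / 2 ≤ ‖fs a c (A.filter fun b => lab b = z) x‖) ∨
      ∃ z ∈ Z, ∃ y ∈ Z, z ≠ y ∧ α / (2 * n) ≤ ‖fs a c (A.filter fun b => lab b = z) x‖ ∧
        α / (2 * n) ≤ ‖fs a c (A.filter fun b => lab b = y) x‖ := by
  obtain ⟨z, hz, h1⟩ := exists_cell a c h hα hn hx
  have hc : (1 : ℝ) ≤ Z.card := by exact_mod_cast card_pos.2 ⟨z, hz⟩
  have hn0 : 0 < n := by linarith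
  by_cases h2 : ∃ y ∈ Z, z ≠ y ∧ α / (2 * n) ≤ ‖fs a c (A.filter fun b => lab b = y) x‖
  · obtain ⟨y, hy, h3, h4⟩ := h2
    refine Or.inr ⟨z, hz, y, hy, h3, le_trans ?_ h1, h4⟩
    gcongr; linarith
  · push Not at h2
    refine Or.inl ⟨z, hz, ?_⟩
    rw [← fs_fiber a c h] at hx
    have h3 := hx.trans (norm_sum_le _ _)
    rw [← add_sum_erase _ _ hz] at h3
    have h4 : ∑ y ∈ Z.erase z, ‖fs a c (A.filter fun b => lab b = y) x‖ ≤ α / 2 := by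
      refine (sum_le_card_nsmul _ _ (α / (2 * n)) fun y hy =>
        (h2 y (mem_erase.1 hy).2 (mem_erase.1 hy).1.symm).le).trans ?_
      have : ((Z.erase z).card : ℝ) ≤ n := le_trans (by exact_mod_cast card_erase_le) hn
      rw [nsmul_eq_mul]
      calc ((Z.erase z).card : ℝ) * (α / (2 * n)) ≤ n * (α / (2 * n)) := by gcongr
        _ = α / 2 := by field_simp
    linarith

theorem pair_sum {κ : Type*} [DecidableEq κ] (c : ι → ℂ) {B1 B2 : Finset ι} {Z : Finset κ}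
    {lab : ι → κ} (h1 : ∀ b ∈ B1, lab b ∈ Z) (h2 : ∀ b ∈ B2, lab b ∈ Z) {α1 α2 Y : ℝ}
    (hα1 : 0 < α1) (hα2 : 0 < α2) (hY : 0 ≤ Y) :
    ∑ w ∈ Z ×ˢ Z, Y * ((nr c (B1.filter fun b => lab b = w.1) / α1) ^ 2 *
      (nr c (B2.filter fun b => lab b = w.2) / α2) ^ 2 *
      (nr c (B1.filter fun b => lab b = w.1) / α1 + nr c (B2.filter fun b => lab b = w.2) / α2)) ≤
    Y * ((nr c B1 / α1) ^ 2 * (nr c B2 / α2) ^ 2 * (nr c B1 / α1 + nr c B2 / α2)) := by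
  rw [← mul_sum]
  gcongr
  calc _ ≤ ∑ w ∈ Z ×ˢ Z, (ms c (B1.filter fun b => lab b = w.1) *
        ms c (B2.filter fun b => lab b = w.2)) *
        ((α1 ^ 2 * α2 ^ 2)⁻¹ * (nr c B1 / α1 + nr c B2 / α2)) := by
        refine sum_le_sum fun w _ => ?_
        rw [div_pow, div_pow, nr_sq, nr_sq]
        have := ms_nonneg c (B1.filter fun b => lab b = w.1)
        have := ms_nonneg c (B2.filter fun b => lab b = w.2)
        calc _ ≤ ms c (B1.filter fun b => lab b = w.1) / α1 ^ 2 *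
            (ms c (B2.filter fun b => lab b = w.2) / α2 ^ 2) * (nr c B1 / α1 + nr c B2 / α2) := by
              gcongr <;> exact nr_mono c (filter_subset _ _)
          _ = _ := by field_simp
    _ = _ := by
        rw [← sum_mul, sum_product]
        simp only
        rw [← sum_mul_sum, ms_fiber c h1, ms_fiber c h2, div_pow, div_pow, nr_sq, nr_sq]
        field_simp

end Gen

/-- weak `L^5` bound for subsets of `S` inside one class modulo `p^k` -/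
def Lin (Q : ℕ) [NeZero Q] (p k : ℕ) (c : (Fin 3 → ℤ) → ℂ) (S : Finset (Fin 3 → ℤ)) (X : ℝ) :
    Prop :=
  ∀ A ⊆ S, (∀ a ∈ A, ∀ b ∈ A, cl p k a b) → ∀ α : ℝ, 0 < α →
    mu (fun x : Fin 3 → ZMod Q => α ≤ ‖fs id c A x‖) ≤ X * (nr c A / α) ^ 5

/-- bilinear weak bound for framed pairs -/
def Bil (Q : ℕ) [NeZero Q] (p v : ℕ) (c : (Fin 3 → ℤ) → ℂ) (S : Finset (Fin 3 → ℤ)) (Y : ℝ) :
    Prop :=
  ∀ B1 ⊆ S, ∀ B2 ⊆ S, Fr p v B1 B2 → ∀ α1 α2 : ℝ, 0 < α1 → 0 < α2 →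
    mu (fun x : Fin 3 → ZMod Q => α1 ≤ ‖fs id c B1 x‖ ∧ α2 ≤ ‖fs id c B2 x‖) ≤
      Y * ((nr c B1 / α1) ^ 2 * (nr c B2 / α2) ^ 2 * (nr c B1 / α1 + nr c B2 / α2))

theorem Lin.mono {Q : ℕ} [NeZero Q] {p k : ℕ} {c : (Fin 3 → ℤ) → ℂ} {S : Finset (Fin 3 → ℤ)}
    {X X' : ℝ} (h : Lin Q p k c S X) (hX : X ≤ X') : Lin Q p k c S X' := fun A hA hc α hα =>
  (h A hA hc α hα).trans (by have := nr_nonneg c A; gcongr)

theorem Bil.mono {Q : ℕ} [NeZero Q] {p v : ℕ} {c : (Fin 3 → ℤ) → ℂ} {S : Finset (Fin 3 → ℤ)}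
    {Y Y' : ℝ} (h : Bil Q p v c S Y) (hY : Y ≤ Y') : Bil Q p v c S Y' :=
  fun B1 h1 B2 h2 hF α1 α2 a1 a2 => (h B1 h1 B2 h2 hF α1 α2 a1 a2).trans (by
    have := nr_nonneg c B1; have := nr_nonneg c B2; gcongr)

theorem broad {Q : ℕ} [NeZero Q] {p : ℕ} (hp : 0 < p) {c : (Fin 3 → ℤ) → ℂ}
    {B1 B2 : Finset (Fin 3 → ℤ)} {lab : (Fin 3 → ℤ) → ℤ} {T lam α1 α2 : ℝ} (hT : 0 ≤ T)
    (hlam : 1 ≤ lam) (hα1 : 0 < α1) (hα2 : 0 < α2) (hr : nr c B1 / α1 < lam * (nr c B2 / α2))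
    (hr' : nr c B2 / α2 < lam * (nr c B1 / α1))
    (h : ∀ z ∈ Ico (0 : ℤ) p, ∀ y ∈ Ico (0 : ℤ) p, z ≠ y → ∀ z', TB Q c T
      ![B1.filter fun b => lab b = z, B1.filter fun b => lab b = y, B2.filter fun b => lab b = z']) :
    mu (fun x : Fin 3 → ZMod Q => ∃ w ∈ Ico (0 : ℤ) p ×ˢ Ico (0 : ℤ) p ×ˢ Ico (0 : ℤ) p,
      w.1 ≠ w.2.1 ∧ α1 / (2 * p) ≤ ‖fs id c (B1.filter fun b => lab b = w.1) x‖ ∧
        α1 / (2 * p) ≤ ‖fs id c (B1.filter fun b => lab b = w.2.1) x‖ ∧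
        α2 / (2 * p) ≤ ‖fs id c (B2.filter fun b => lab b = w.2.2) x‖) ≤
      32 * (p : ℝ) ^ 8 * T * lam *
        ((nr c B1 / α1) ^ 2 * (nr c B2 / α2) ^ 2 * (nr c B1 / α1 + nr c B2 / α2)) := by
  set r1 := nr c B1 / α1 with hr1
  set r2 := nr c B2 / α2 with hr2
  have p0 : (0 : ℝ) < p := by exact_mod_cast hp
  have n1 : 0 ≤ r1 := div_nonneg (nr_nonneg _ _) hα1.le
  have n2 : 0 ≤ r2 := div_nonneg (nr_nonneg _ _) hα2.le
  have q1 : 0 < r1 := (mul_pos_iff_of_pos_left (by linarith)).1 (n2.trans_lt hr')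
  have q2 : 0 < r2 := (mul_pos_iff_of_pos_left (by linarith)).1 (n1.trans_lt hr)
  refine (mu_exists _ _).trans ((sum_le_card_nsmul _ _
    (32 * (p : ℝ) ^ 5 * T * lam * (r1 ^ 2 * r2 ^ 2 * (r1 + r2))) fun w hw => ?_).trans
    (le_of_eq ?_))
  · by_cases hne : w.1 = w.2.1
    · rw [mu_empty fun x hx => hx.1 hne]; positivity
    simp only [mem_product] at hw
    have e1 : ∀ D ⊆ B1, ms c D ≤ (2 * p * r1 * (α1 / (2 * p))) ^ 2 := fun D hD => by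
      have : 2 * p * r1 * (α1 / (2 * p)) = nr c B1 := by rw [hr1]; field_simp
      rw [this, nr_sq]; exact ms_mono c hD
    have e2 : ∀ D ⊆ B2, ms c D ≤ (2 * p * r2 * (α2 / (2 * p))) ^ 2 := fun D hD => by
      have : 2 * p * r2 * (α2 / (2 * p)) = nr c B2 := by rw [hr2]; field_simp
      rw [this, nr_sq]; exact ms_mono c hD
    have key := h w.1 hw.1 w.2.1 hw.2.1 hne w.2.2 ![α1 / (2 * p), α1 / (2 * p), α2 / (2 * p)]
      ![2 * p * r1, 2 * p * r1, 2 * p * r2] (2 * p * max r1 r2)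
      (fun j => by fin_cases j <;> simp <;> positivity)
      (fun j => by fin_cases j <;> simp <;> positivity)
      (fun j => by
        fin_cases j
        · exact mul_le_mul_of_nonneg_left (le_max_left _ _) (by positivity)
        · exact mul_le_mul_of_nonneg_left (le_max_left _ _) (by positivity)
        · exact mul_le_mul_of_nonneg_left (le_max_right _ _) (by positivity))
      (fun j => by
        fin_cases j
        · exact e1 _ (filter_subset _ _)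
        · exact e1 _ (filter_subset _ _)
        · exact e2 _ (filter_subset _ _))
    refine (mu_mono fun x hx j => ?_).trans (key.trans ?_)
    · fin_cases j
      · exact hx.2.1
      · exact hx.2.2.1
      · exact hx.2.2.2
    · have m1 : max r1 r2 ≤ lam * r2 := max_le hr.le (by nlinarith)
      have m2 : max r1 r2 ≤ r1 + r2 := max_le (by linarith) (by linarith)
      have m3 : max r1 r2 ^ 2 ≤ lam * r2 * (r1 + r2) := by
        rw [sq]; exact mul_le_mul m1 m2 (le_max_of_le_left n1) (by positivity)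
      rw [Fin.prod_univ_three]
      simp only [cons_val_zero, cons_val_one, Matrix.cons_val]
      calc _ = 32 * (p : ℝ) ^ 5 * T * (r1 ^ 2 * r2 * max r1 r2 ^ 2) := by ring
        _ ≤ 32 * (p : ℝ) ^ 5 * T * (r1 ^ 2 * r2 * (lam * r2 * (r1 + r2))) := by gcongr
        _ = _ := by ring
  · simp only [card_product, Int.card_Ico, sub_zero, Int.toNat_natCast, nsmul_eq_mul]
    push_cast; ring

theorem lin_far {M lam r1 r2 : ℝ} (hM : 0 ≤ M) (hlam : 1 ≤ lam) (n1 : 0 ≤ r1) (n2 : 0 ≤ r2)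
    (h : lam * r2 ≤ r1) : M * r2 ^ 5 ≤ M / lam ^ 3 * (r1 ^ 2 * r2 ^ 2 * (r1 + r2)) := by
  have l0 : 0 < lam := by linarith
  calc M * r2 ^ 5 = M / lam ^ 3 * ((lam * r2) ^ 2 * r2 ^ 2 * (lam * r2)) := by field_simp
    _ ≤ _ := by gcongr; linarith

theorem bil_step {p I v m : ℕ} [NeZero (p ^ I)] (hp : p.Prime) (hp2 : p ≠ 2) {t : ℝ}
    (hC : Circ m t) (ht : 1 ≤ t) (hv : v ≤ I) (hI : 4 * (m : ℤ) < (p : ℤ) ^ (I - v))
    {c : (Fin 3 → ℤ) → ℂ} {S : Finset (Fin 3 → ℤ)} (hS : ∀ b ∈ S, b ⬝ᵥ b = m) {M lam Y : ℝ}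
    (hM0 : 0 ≤ M) (hlam : 1 ≤ lam) (hY0 : 0 ≤ Y) (hM : Lin (p ^ I) p 0 c S M)
    (hY : Bil (p ^ I) p (v + 1) c S Y) :
    Bil (p ^ I) p v c S (M / lam ^ 3 + 32 * Y +
      64 * (p : ℝ) ^ 8 * (24 * (p : ℝ) ^ 3 * ((I : ℝ) + 2) ^ 8 * t) * lam) := by
  intro B1 h1 B2 h2 hF α1 α2 hα1 hα2
  set T := 24 * (p : ℝ) ^ 3 * ((I : ℝ) + 2) ^ 8 * t with hT
  have hT0 : 0 ≤ T := by positivity
  have n1 : 0 ≤ nr c B1 / α1 := div_nonneg (nr_nonneg _ _) hα1.le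
  have n2 : 0 ≤ nr c B2 / α2 := div_nonneg (nr_nonneg _ _) hα2.le
  have hcl : ∀ A : Finset (Fin 3 → ℤ), ∀ a ∈ A, ∀ b ∈ A, cl p 0 a b := fun A a _ b _ l => by simp
  have hrest : 0 ≤ 32 * Y + 64 * (p : ℝ) ^ 8 * T * lam := by positivity
  rcases le_or_gt (lam * (nr c B2 / α2)) (nr c B1 / α1) with hr | hr
  · refine (mu_mono fun x hx => hx.2).trans ((hM B2 h2 (hcl _) α2 hα2).trans
      ((lin_far hM0 hlam n1 n2 hr).trans ?_))
    gcongr; linarith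
  rcases le_or_gt (lam * (nr c B1 / α1)) (nr c B2 / α2) with hr' | hr'
  · refine (mu_mono fun x hx => hx.1).trans ((hM B1 h1 (hcl _) α1 hα1).trans
      ((lin_far hM0 hlam n2 n1 hr').trans ?_))
    rw [mul_comm ((nr c B2 / α2) ^ 2), add_comm (nr c B2 / α2)]
    gcongr; linarith
  obtain ⟨lab, hlab, hFr, hb1, hb2⟩ := hF.split hp hp2 hC ht hv hI c (fun b hb => hS b (h1 hb))
    fun b hb => hS b (h2 hb)
  have hZ : ((Ico (0 : ℤ) p).card : ℝ) ≤ p := by simp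
  have p0 : (0 : ℝ) < p := by exact_mod_cast hp.pos
  have k1 := broad hp.pos hT0 hlam hα1 hα2 hr hr' hb1
  have k2 := broad hp.pos hT0 hlam hα2 hα1 hr' hr hb2
  rw [mul_comm ((nr c B2 / α2) ^ 2), add_comm (nr c B2 / α2)] at k2
  have k3 : mu (fun x : Fin 3 → ZMod (p ^ I) => ∃ w ∈ Ico (0 : ℤ) p ×ˢ Ico (0 : ℤ) p,
      α1 / 2 ≤ ‖fs id c (B1.filter fun b => lab b = w.1) x‖ ∧
        α2 / 2 ≤ ‖fs id c (B2.filter fun b => lab b = w.2) x‖) ≤ 32 * Y *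
        ((nr c B1 / α1) ^ 2 * (nr c B2 / α2) ^ 2 * (nr c B1 / α1 + nr c B2 / α2)) := by
    refine (mu_exists _ _).trans ((sum_le_sum fun w _ => hY _ ((filter_subset _ _).trans h1) _
      ((filter_subset _ _).trans h2) (hFr w.1 w.2) _ _ (half_pos hα1) (half_pos hα2)).trans
      ((pair_sum c (fun b _ => hlab b) (fun b _ => hlab b) (half_pos hα1) (half_pos hα2)
        hY0).trans (le_of_eq ?_)))
    field_simp; ring
  refine le_trans (mu_mono fun x hx => ?_) ((mu_or _ _).trans ((add_le_add k3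
    ((mu_or _ _).trans (add_le_add k1 k2))).trans ?_))
  · have hZ2 : ((Ico (0 : ℤ) p).card : ℝ) ≤ 2 * p := by linarith
    rcases dich id c (fun b _ => hlab b) hα1 hZ hx.1 with ⟨z, hz, e1⟩ | ⟨z, hz, y, hy, e0, e1, e2⟩
    · rcases dich id c (fun b _ => hlab b) hα2 hZ hx.2 with
        ⟨z', hz', e2⟩ | ⟨z', hz', y, hy, e0, e2, e3⟩
      · exact Or.inl ⟨(z, z'), mem_product.2 ⟨hz, hz'⟩, e1, e2⟩
      · obtain ⟨u, hu, e4⟩ := exists_cell id c (fun b _ => hlab b) hα1 hZ2 hx.1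
        exact Or.inr (Or.inr ⟨(z', y, u), mem_product.2 ⟨hz', mem_product.2 ⟨hy, hu⟩⟩,
          e0, e2, e3, e4⟩)
    · obtain ⟨u, hu, e4⟩ := exists_cell id c (fun b _ => hlab b) hα2 hZ2 hx.2
      exact Or.inr (Or.inl ⟨(z, y, u), mem_product.2 ⟨hz, mem_product.2 ⟨hy, hu⟩⟩,
        e0, e1, e2, e4⟩)
  · have : 0 ≤ M / lam ^ 3 *
        ((nr c B1 / α1) ^ 2 * (nr c B2 / α2) ^ 2 * (nr c B1 / α1 + nr c B2 / α2)) := by positivity
    linarith

theorem bil_end {Q : ℕ} [NeZero Q] {p v m : ℕ} (hp : p.Prime) {t : ℝ} (hC : Circ m t) (ht : 1 ≤ t)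
    (hv : 6 * (m : ℤ) ^ 3 < (p : ℤ) ^ v) {c : (Fin 3 → ℤ) → ℂ} {S : Finset (Fin 3 → ℤ)}
    (hS : ∀ b ∈ S, b ⬝ᵥ b = m) : Bil Q p v c S (t ^ 5) := by
  intro B1 h1 B2 h2 hF α1 α2 hα1 hα2
  have n1 : 0 ≤ nr c B1 / α1 := div_nonneg (nr_nonneg _ _) hα1.le
  have n2 : 0 ≤ nr c B2 / α2 := div_nonneg (nr_nonneg _ _) hα2.le
  refine mu_le_of (by positivity) fun x hx => ?_
  have ne : ∀ {B : Finset (Fin 3 → ℤ)} {α : ℝ}, 0 < α → α ≤ ‖fs id c B x‖ → B.Nonempty := by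
    intro B α hα h
    rw [nonempty_iff_ne_empty]
    rintro rfl
    simp [fs] at h
    linarith
  obtain ⟨c1, c2⟩ := hF.card_le hp hC hv (fun b hb => hS b (h1 hb)) (fun b hb => hS b (h2 hb))
    (ne hα1 hx.1) (ne hα2 hx.2)
  have e1 := triv_le id c ht c1 hα1 hx.1
  have e2 := triv_le id c ht c2 hα2 hx.2
  calc (1 : ℝ) = 1 ^ 2 * 1 ^ 2 * 1 := by norm_num
    _ ≤ (t * (nr c B1 / α1)) ^ 2 * (t * (nr c B2 / α2)) ^ 2 *
        (t * (nr c B1 / α1) + t * (nr c B2 / α2)) := by gcongr; linarith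
    _ = _ := by ring

theorem bil_all {p I L m : ℕ} [NeZero (p ^ I)] (hp : p.Prime) (hp2 : p ≠ 2) {t : ℝ}
    (hC : Circ m t) (ht : 1 ≤ t) (hL : 6 * (m : ℤ) ^ 3 < (p : ℤ) ^ L) (hLI : L ≤ I)
    (hI : 4 * (m : ℤ) < (p : ℤ) ^ (I - L))
    {c : (Fin 3 → ℤ) → ℂ} {S : Finset (Fin 3 → ℤ)} (hS : ∀ b ∈ S, b ⬝ᵥ b = m) {M lam : ℝ}
    (hM0 : 0 ≤ M) (hlam : 1 ≤ lam) (hM : Lin (p ^ I) p 0 c S M) (n : ℕ) :
    ∀ v, L ≤ v + n → Bil (p ^ I) p v c S (33 ^ n * (M / lam ^ 3 +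
      64 * (p : ℝ) ^ 8 * (24 * (p : ℝ) ^ 3 * ((I : ℝ) + 2) ^ 8 * t) * lam + t ^ 5)) := by
  set E := M / lam ^ 3 + 64 * (p : ℝ) ^ 8 * (24 * (p : ℝ) ^ 3 * ((I : ℝ) + 2) ^ 8 * t) * lam + t ^ 5
    with hE
  have p1 : (1 : ℤ) ≤ p := by exact_mod_cast hp.pos
  have a1 : 0 ≤ M / lam ^ 3 := by positivity
  have a2 : 0 ≤ 64 * (p : ℝ) ^ 8 * (24 * (p : ℝ) ^ 3 * ((I : ℝ) + 2) ^ 8 * t) * lam := by positivity
  have a3 : 0 ≤ t ^ 5 := by positivity
  have hE0 : 0 ≤ E := by positivity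
  have hend : ∀ n v, L ≤ v → Bil (p ^ I) p v c S (33 ^ n * E) := fun n v hv =>
    (bil_end hp hC ht (hL.trans_le (pow_le_pow_right₀ p1 hv)) hS).mono (by
      have : (1 : ℝ) ≤ 33 ^ n := one_le_pow₀ (by norm_num)
      nlinarith)
  induction n with
  | zero => exact fun v hv => hend 0 v hv
  | succ n ih =>
    intro v hv
    rcases le_or_gt L v with h | h
    · exact hend _ v h
    refine (bil_step hp hp2 hC ht (by omega) (hI.trans_le (pow_le_pow_right₀ p1 (by omega))) hS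
      hM0 hlam (by positivity) hM (ih (v + 1) (by omega))).mono ?_
    have : (1 : ℝ) ≤ 33 ^ n := one_le_pow₀ (by norm_num)
    have : E ≤ 33 ^ n * E := by nlinarith
    rw [pow_succ (33 : ℝ) n]
    linarith

theorem cell_sum {κ : Type*} [DecidableEq κ] {ι : Type*} (c : ι → ℂ) {A : Finset ι} {Z : Finset κ}
    {lab : ι → κ} (h : ∀ b ∈ A, lab b ∈ Z) {α X : ℝ} (hα : 0 < α) (hX : 0 ≤ X) :
    ∑ z ∈ Z, X * (nr c (A.filter fun b => lab b = z) / α) ^ 5 ≤ X * (nr c A / α) ^ 5 := by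
  rw [← mul_sum]
  gcongr
  calc _ ≤ ∑ z ∈ Z, ms c (A.filter fun b => lab b = z) * (nr c A ^ 3 / α ^ 5) := by
        refine sum_le_sum fun z _ => ?_
        have h1 := nr_nonneg c (A.filter fun b => lab b = z)
        have h2 := nr_mono c (filter_subset (fun b => lab b = z) A)
        rw [← nr_sq, div_pow, ← mul_div_assoc]
        gcongr
        calc _ = nr c (A.filter fun b => lab b = z) ^ 2 * nr c (A.filter fun b => lab b = z) ^ 3 := by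
              ring
          _ ≤ _ := by gcongr
    _ = _ := by rw [← sum_mul, ms_fiber c h, ← nr_sq]; field_simp

theorem card_res_le {p : ℕ} (hp : 0 < p) {k : ℕ} {A : Finset (Fin 3 → ℤ)}
    (h : ∀ a ∈ A, ∀ b ∈ A, cl p k a b) :
    ((A.image fun b => res p (k + 1) b).card : ℝ) ≤ (p : ℝ) ^ 3 := by
  have h1 := card_res_succ hp k id A
  have h2 : (A.image fun b => res p k (id b)).card ≤ 1 := by
    rw [card_le_one]
    intro z hz z' hz'
    obtain ⟨b, hb, rfl⟩ := mem_image.1 hz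
    obtain ⟨b', hb', rfl⟩ := mem_image.1 hz'
    exact res_eq_iff.2 (h b hb b' hb')
  have : (A.image fun b => res p (k + 1) b).card ≤ p ^ 3 :=
    h1.trans (by simpa using Nat.mul_le_mul_right (p ^ 3) h2)
  exact_mod_cast this

theorem lin_step {Q : ℕ} [NeZero Q] {p k m : ℕ} (hp : p.Prime) (hp2 : p ≠ 2) (hpm : ¬ p ∣ m)
    (hk : 1 ≤ k) {c : (Fin 3 → ℤ) → ℂ} {S : Finset (Fin 3 → ℤ)} (hS : ∀ b ∈ S, b ⬝ᵥ b = m)
    {X Y : ℝ} (hX0 : 0 ≤ X) (hY0 : 0 ≤ Y) (hX : Lin Q p (k + 1) c S X)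
    (hY : Bil Q p (2 * k) c S Y) : Lin Q p k c S (32 * X + 64 * (p : ℝ) ^ 15 * Y) := by
  intro A hA hc α hα
  set Z := A.image fun b => res p (k + 1) b with hZ
  have hlab : ∀ b ∈ A, res p (k + 1) b ∈ Z := fun b hb => mem_image_of_mem _ hb
  have hcard : (Z.card : ℝ) ≤ (p : ℝ) ^ 3 := card_res_le hp.pos hc
  have p0 : (0 : ℝ) < p := by exact_mod_cast hp.pos
  have hα' : 0 < α / (2 * (p : ℝ) ^ 3) := by positivity
  have k1 : mu (fun x : Fin 3 → ZMod Q => ∃ z ∈ Z,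
      α / 2 ≤ ‖fs id c (A.filter fun b => res p (k + 1) b = z) x‖) ≤ 32 * X * (nr c A / α) ^ 5 := by
    refine (mu_exists _ _).trans ((sum_le_sum fun z _ => hX _ ((filter_subset _ _).trans hA)
      (fun a ha b hb => res_eq_iff.1 ((mem_filter.1 ha).2.trans (mem_filter.1 hb).2.symm)) _
      (half_pos hα)).trans ((cell_sum c hlab (half_pos hα) hX0).trans (le_of_eq ?_)))
    field_simp; ring
  have k2 : mu (fun x : Fin 3 → ZMod Q => ∃ w ∈ Z ×ˢ Z, w.1 ≠ w.2 ∧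
      α / (2 * (p : ℝ) ^ 3) ≤ ‖fs id c (A.filter fun b => res p (k + 1) b = w.1) x‖ ∧
      α / (2 * (p : ℝ) ^ 3) ≤ ‖fs id c (A.filter fun b => res p (k + 1) b = w.2) x‖) ≤
      64 * (p : ℝ) ^ 15 * Y * (nr c A / α) ^ 5 := by
    refine (mu_exists _ _).trans ((sum_le_sum fun w hw => ?_).trans
      ((pair_sum c hlab hlab hα' hα' hY0).trans (le_of_eq ?_)))
    · by_cases hne : w.1 = w.2
      · rw [mu_empty fun x hx => hx.1 hne]
        have := nr_nonneg c (A.filter fun b => res p (k + 1) b = w.1)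
        have := nr_nonneg c (A.filter fun b => res p (k + 1) b = w.2)
        positivity
      obtain ⟨ν1, hν1, e1⟩ := mem_image.1 (mem_product.1 hw).1
      obtain ⟨ν2, hν2, e2⟩ := mem_image.1 (mem_product.1 hw).2
      refine (mu_mono fun x hx => hx.2).trans (hY _ ((filter_subset _ _).trans hA) _
        ((filter_subset _ _).trans hA) (Fr.init hp hp2 hpm hk (hS _ (hA hν1)) (hS _ (hA hν2))
          (hc _ hν2 _ hν1) (fun h => hne ?_) (fun b hb => ?_) fun b hb => ?_) _ _ hα' hα')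
      · rw [← e1, ← e2]; exact (res_eq_iff.2 h).symm
      · exact res_eq_iff.1 ((mem_filter.1 hb).2.trans e1.symm)
      · exact res_eq_iff.1 ((mem_filter.1 hb).2.trans e2.symm)
    · field_simp; ring
  refine le_trans (mu_mono fun x hx => ?_) ((mu_or _ _).trans ((add_le_add k1 k2).trans
    (le_of_eq (by ring))))
  rcases dich id c hlab hα hcard hx with h | ⟨z, hz, y, hy, h⟩
  · exact Or.inl h
  · exact Or.inr ⟨(z, y), mem_product.2 ⟨hz, hy⟩, h⟩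

theorem lin_triv {Q : ℕ} [NeZero Q] {p k : ℕ} {c : (Fin 3 → ℤ) → ℂ} {S : Finset (Fin 3 → ℤ)}
    {n : ℝ} (hn : 1 ≤ n) (h : ∀ A ⊆ S, (∀ a ∈ A, ∀ b ∈ A, cl p k a b) → (A.card : ℝ) ≤ n) :
    Lin Q p k c S (n ^ 5) := by
  intro A hA hc α hα
  have := nr_nonneg c A
  refine mu_le_of (by positivity) fun x hx => ?_
  rw [← mul_pow]
  exact one_le_pow₀ (triv_le id c hn (h A hA hc) hα hx)

theorem lin_all {Q : ℕ} [NeZero Q] {p K m : ℕ} (hp : p.Prime) (hp2 : p ≠ 2) (hpm : ¬ p ∣ m)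
    (hK : 2 * (m : ℤ) < (p : ℤ) ^ K) {c : (Fin 3 → ℤ) → ℂ} {S : Finset (Fin 3 → ℤ)}
    (hS : ∀ b ∈ S, b ⬝ᵥ b = m) {Y : ℝ} (hY0 : 0 ≤ Y) (hY : ∀ v, Bil Q p v c S Y) (n : ℕ) :
    ∀ k, 1 ≤ k → K ≤ k + n → Lin Q p k c S (33 ^ n * (1 + 64 * (p : ℝ) ^ 15 * Y)) := by
  set E := 1 + 64 * (p : ℝ) ^ 15 * Y with hE
  have p1 : (1 : ℤ) ≤ p := by exact_mod_cast hp.pos
  have a2 : 0 ≤ 64 * (p : ℝ) ^ 15 * Y := by positivity
  have hE0 : 0 ≤ E := by positivity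
  have hend : ∀ n k, K ≤ k → Lin Q p k c S (33 ^ n * E) := fun n k hk => by
    refine (lin_triv le_rfl fun A hA hc => ?_).mono ?_
    · have : A.card ≤ 1 := by
        rw [card_le_one]
        intro a ha b hb
        refine eq_of_cl (hK.trans_le (pow_le_pow_right₀ p1 hk)) (fun l => ?_) (hc a ha b hb)
        have h1 := coord_le (hS a (hA ha)) l
        have h2 := coord_le (hS b (hA hb)) l
        exact (abs_sub _ _).trans (by linarith)
      exact_mod_cast this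
    · have : (1 : ℝ) ≤ 33 ^ n := one_le_pow₀ (by norm_num)
      nlinarith
  induction n with
  | zero => exact fun k _ hk => hend 0 k hk
  | succ n ih =>
    intro k hk1 hk
    rcases le_or_gt K k with h | h
    · exact hend _ k h
    refine (lin_step hp hp2 hpm hk1 hS (by positivity) hY0 (ih (k + 1) (by omega) (by omega))
      (hY _)).mono ?_
    have : (1 : ℝ) ≤ 33 ^ n := one_le_pow₀ (by norm_num)
    have : E ≤ 33 ^ n * E := by nlinarith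
    rw [pow_succ (33 : ℝ) n]
    linarith

theorem lin_zero {Q : ℕ} [NeZero Q] {p : ℕ} (hp : 0 < p) {c : (Fin 3 → ℤ) → ℂ}
    {S : Finset (Fin 3 → ℤ)} {X : ℝ} (hX0 : 0 ≤ X) (hX : Lin Q p 1 c S X) :
    Lin Q p 0 c S ((p : ℝ) ^ 15 * X) := by
  intro A hA hc α hα
  set Z := A.image fun b => res p 1 b with hZ
  have hlab : ∀ b ∈ A, res p 1 b ∈ Z := fun b hb => mem_image_of_mem _ hb
  have hcard : (Z.card : ℝ) ≤ (p : ℝ) ^ 3 := card_res_le hp hc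
  have p0 : (0 : ℝ) < p := by exact_mod_cast hp
  have hα' : 0 < α / (p : ℝ) ^ 3 := by positivity
  refine (mu_mono fun x hx => exists_cell id c hlab hα hcard hx).trans ?_
  refine (mu_exists _ _).trans ((sum_le_sum fun z _ => hX _ ((filter_subset _ _).trans hA)
    (fun a ha b hb => res_eq_iff.1 ((mem_filter.1 ha).2.trans (mem_filter.1 hb).2.symm)) _
    hα').trans ((cell_sum c hlab hα' hX0).trans (le_of_eq ?_)))
  field_simp

/-- the loss of one round of the two inductions -/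
noncomputable def cD (p K L : ℕ) : ℝ := (p : ℝ) ^ 15 * (33 ^ K * (1 + 64 * (p : ℝ) ^ 15 * 33 ^ L))

theorem one_le_cD {p : ℕ} (hp : 0 < p) (K L : ℕ) : 1 ≤ cD p K L := by
  have p1 : (1 : ℝ) ≤ p := by exact_mod_cast hp
  refine one_le_mul_of_one_le_of_one_le (one_le_pow₀ p1)
    (one_le_mul_of_one_le_of_one_le (one_le_pow₀ (by norm_num)) ?_)
  linarith [show 0 ≤ 64 * (p : ℝ) ^ 15 * 33 ^ L by positivity]

/-- the final weak type constant -/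
noncomputable def cF (p K L I : ℕ) (t : ℝ) : ℝ := cD p K L *
  (64 * (p : ℝ) ^ 8 * (24 * (p : ℝ) ^ 3 * ((I : ℝ) + 2) ^ 8 * t) * (2 * cD p K L) + t ^ 5)

theorem boot {p I L K m : ℕ} [NeZero (p ^ I)] (hp : p.Prime) (hp2 : p ≠ 2) (hpm : ¬ p ∣ m) {t : ℝ}
    (hC : Circ m t) (ht : 1 ≤ t) (hL : 6 * (m : ℤ) ^ 3 < (p : ℤ) ^ L) (hLI : L ≤ I)
    (hI : 4 * (m : ℤ) < (p : ℤ) ^ (I - L)) (hK : 2 * (m : ℤ) < (p : ℤ) ^ K)
    {c : (Fin 3 → ℤ) → ℂ} {S : Finset (Fin 3 → ℤ)} (hS : ∀ b ∈ S, b ⬝ᵥ b = m) {M : ℝ}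
    (hM0 : 0 ≤ M) (hM : Lin (p ^ I) p 0 c S M) :
    Lin (p ^ I) p 0 c S (M / 2 + cF p K L I t) := by
  have hD := one_le_cD hp.pos K L
  have h1 := bil_all hp hp2 hC ht hL hLI hI hS hM0 (lam := 2 * cD p K L) (by linarith) hM L
  have h2 := lin_all hp hp2 hpm hK hS (by positivity) (fun v => h1 v (by omega)) K 1 le_rfl
    (by omega)
  refine (lin_zero hp.pos (by positivity) h2).mono ?_
  set R := 64 * (p : ℝ) ^ 8 * (24 * (p : ℝ) ^ 3 * ((I : ℝ) + 2) ^ 8 * t) * (2 * cD p K L) with hR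
  have hR0 : 0 ≤ R := by positivity
  have a1 : 0 ≤ M / (2 * cD p K L) ^ 3 := by positivity
  have a2 : 1 ≤ t ^ 5 := one_le_pow₀ ht
  set E := M / (2 * cD p K L) ^ 3 + R + t ^ 5 with hE
  have hE1 : 1 ≤ E := by linarith
  have a3 : cD p K L * (M / (2 * cD p K L) ^ 3) ≤ M / 2 := by
    rw [← mul_div_assoc, div_le_div_iff₀ (by positivity) (by norm_num)]
    have : cD p K L * 2 ≤ (2 * cD p K L) ^ 3 := by
      have : 1 ≤ (2 * cD p K L) ^ 2 := one_le_pow₀ (by linarith)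
      nlinarith
    nlinarith
  calc _ ≤ (p : ℝ) ^ 15 * (33 ^ K * (E + 64 * (p : ℝ) ^ 15 * (33 ^ L * E))) := by gcongr
    _ = cD p K L * E := by rw [cD]; ring
    _ = cD p K L * (M / (2 * cD p K L) ^ 3) + cF p K L I t := by rw [cF, hE, ← hR]; ring
    _ ≤ _ := by linarith

theorem weak5 {p I L K m : ℕ} [NeZero (p ^ I)] (hp : p.Prime) (hp2 : p ≠ 2) (hpm : ¬ p ∣ m) {t : ℝ}
    (hC : Circ m t) (ht : 1 ≤ t) (hL : 6 * (m : ℤ) ^ 3 < (p : ℤ) ^ L) (hLI : L ≤ I)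
    (hI : 4 * (m : ℤ) < (p : ℤ) ^ (I - L)) (hK : 2 * (m : ℤ) < (p : ℤ) ^ K)
    (c : (Fin 3 → ℤ) → ℂ) {S : Finset (Fin 3 → ℤ)} (hS : ∀ b ∈ S, b ⬝ᵥ b = m) :
    Lin (p ^ I) p 0 c S (1 + 2 * cF p K L I t) := by
  have hD := one_le_cD hp.pos K L
  have hF : 0 ≤ cF p K L I t := by rw [cF]; positivity
  set M0 : ℝ := ((S.card : ℝ) + 1) ^ 5 with hM0
  have h0 : Lin (p ^ I) p 0 c S M0 := lin_triv (by linarith [Nat.cast_nonneg (α := ℝ) S.card])
    fun A hA _ => by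
      have : (A.card : ℝ) ≤ S.card := by exact_mod_cast card_le_card hA
      linarith
  have h1 : ∀ n : ℕ, Lin (p ^ I) p 0 c S (M0 / 2 ^ n + 2 * cF p K L I t) := by
    intro n
    induction n with
    | zero => exact h0.mono (by simp [hF])
    | succ n ih =>
      refine (boot hp hp2 hpm hC ht hL hLI hI hK hS (by positivity) ih).mono (le_of_eq ?_)
      field_simp; ring
  obtain ⟨n, hn⟩ := pow_unbounded_of_one_lt M0 (one_lt_two (α := ℝ))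
  refine (h1 n).mono ?_
  have : M0 / 2 ^ n ≤ 1 := by rw [div_le_one (by positivity)]; exact hn.le
  linarith

end Pool.Agent.P.MP_c76d8c_an
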