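import Pool.Agent.P.MP_c76d8c_an.Disc

/-! Transfer from the finite grid to the torus. -/

namespace Pool.Agent.P.MP_c76d8c_an

open Finset Matrix MeasureTheory

section Torus
variable {T : ℝ} [hT : Fact (0 < T)]

/-- the trigonometric polynomial on the torus -/
noncomputable def U (S : Finset (Fin 3 → ℤ)) (a : (Fin 3 → ℤ) → ℂ) (z : Fin 3 → AddCircle T) : ℂ :=
  ∑ ξ ∈ S, a ξ * ∏ l, fourier (ξ l) (z l)

omit hT in
theorem continuous_U (S : Finset (Fin 3 → ℤ)) (a : (Fin 3 → ℤ) → ℂ) :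
    Continuous (U (T := T) S a) := by
  unfold U; fun_prop

theorem box_int {F : (Fin 3 → AddCircle T) → ℝ} (hF : Continuous F) :
    ∫ x in Set.univ.pi (fun _ : Fin 3 => Set.Icc (0 : ℝ) T), F (fun l => (x l : AddCircle T)) =
      ∫ z, F z := by
  have h1 := measurePreserving_pi (fun _ : Fin 3 => volume.restrict (Set.Ioc (0 : ℝ) (0 + T)))
    (fun _ : Fin 3 => (volume : Measure (AddCircle T)))
    (fun _ => AddCircle.measurePreserving_mk T 0)
  rw [← Measure.restrict_pi_pi, zero_add] at h1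
  rw [volume_pi, volume_pi, ← setIntegral_congr_set Measure.pi_Ioc_ae_eq_pi_Icc, ← h1.map_eq,
    integral_map h1.aemeasurable hF.aestronglyMeasurable]

theorem int_const (B : ℝ) : ∫ _z : Fin 3 → AddCircle T, B = T ^ 3 * B := by
  rw [integral_const, smul_eq_mul, Measure.real, volume_pi, Measure.pi_univ]
  simp [AddCircle.measure_univ, ENNReal.toReal_ofReal hT.out.le]

variable {Q : ℕ} [NeZero Q]

/-- the grid point of the torus attached to `y` -/
noncomputable def gridPt (T : ℝ) (y : Fin 3 → ZMod Q) : Fin 3 → AddCircle T :=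
  fun l => ((T * (y l).val / Q : ℝ) : AddCircle T)

theorem U_shift (S : Finset (Fin 3 → ℤ)) (a : (Fin 3 → ℤ) → ℂ) (z : Fin 3 → AddCircle T)
    (y : Fin 3 → ZMod Q) : U S a (z + gridPt T y) =
      fs id (fun ξ => a ξ * ∏ l, fourier (ξ l) (z l)) S y := by
  unfold U fs
  refine sum_congr rfl fun ξ _ => ?_
  have h1 : ∀ l, fourier (ξ l) ((z + gridPt T y) l) =
      fourier (ξ l) (z l) * ZMod.stdAddChar ((ξ l : ZMod Q) * y l) := by
    intro l
    have h2 : (ξ l : ZMod Q) * y l = ((ξ l * (y l).val : ℤ) : ZMod Q) := by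
      push_cast; rw [ZMod.natCast_zmod_val]
    rw [h2, ZMod.stdAddChar_coe, Pi.add_apply, fourier_apply, zsmul_add, AddCircle.toCircle_add,
      Circle.coe_mul, ← fourier_apply, ← fourier_apply, gridPt, fourier_coe_apply]
    congr 2
    have : (T : ℂ) ≠ 0 := by exact_mod_cast hT.out.ne'
    push_cast; field_simp
  simp only [h1, prod_mul_distrib, ch, id, Fin.sum_univ_three, Fin.prod_univ_three,
    AddChar.map_add_eq_mul]
  ring

omit hT [NeZero Q] in
theorem ms_mod (S : Finset (Fin 3 → ℤ)) (a : (Fin 3 → ℤ) → ℂ) (z : Fin 3 → AddCircle T) :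
    ms (fun ξ => a ξ * ∏ l, fourier (ξ l) (z l)) S = ms a S := by
  simp only [ms, norm_mul, norm_prod, fourier_apply, Circle.norm_coe, prod_const_one, mul_one]

theorem int_av {F : (Fin 3 → AddCircle T) → ℝ} (hF : Continuous F) :
    ∫ z, F z = ∫ z, av fun y : Fin 3 → ZMod Q => F (z + gridPt T y) := by
  unfold av
  rw [integral_div, integral_finsetSum]
  · simp only [integral_add_right_eq_self]
    exact (av_const _).symm
  · intro y _
    exact (hF.comp (continuous_add_const _)).integrable_of_hasCompactSupport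
      (HasCompactSupport.of_compactSpace _)

theorem int_le {F : (Fin 3 → AddCircle T) → ℝ} (hF : Continuous F) (h0 : ∀ z, 0 ≤ F z) {B : ℝ}
    (h : ∀ z, av (fun y : Fin 3 → ZMod Q => F (z + gridPt T y)) ≤ B) : ∫ z, F z ≤ T ^ 3 * B := by
  rw [int_av (Q := Q) hF, ← int_const]
  exact integral_mono_of_nonneg (Filter.Eventually.of_forall fun z => av_nonneg fun y => h0 _)
    (integrable_const _) (Filter.Eventually.of_forall h)

theorem int_sq {m : ℕ} {S : Finset (Fin 3 → ℤ)} (hS : ∀ b ∈ S, b ⬝ᵥ b = m)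
    (a : (Fin 3 → ℤ) → ℂ) : ∫ z : Fin 3 → AddCircle T, ‖U S a z‖ ^ 2 = T ^ 3 * ms a S := by
  rw [int_av (Q := 2 * m + 1) (F := fun z => ‖U S a z‖ ^ 2) ((continuous_U S a).norm.pow 2), ← int_const]
  congr 1; funext z
  simp only [U_shift]
  rw [av_sq_eq, ms_mod]
  intro b hb b' hb' h
  funext l
  have h1 := coord_le (hS b hb) l
  have h2 := coord_le (hS b' hb') l
  refine sub_eq_zero.1 (Int.eq_zero_of_abs_lt_dvd (h l) ((abs_sub _ _).trans_lt ?_))
  simp only [id] at *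
  push_cast; linarith

end Torus

theorem main (p : ℝ) (hp : 2 ≤ p) (ε : ℝ) (hε : 0 < ε) : ∃ C : ℝ, ∀ n : ℕ, 1 ≤ n →
    ∀ S : Finset (Fin 3 → ℤ), (∀ ξ ∈ S, ∑ j, (ξ j) ^ 2 = (n : ℤ)) →
    ∀ a : (Fin 3 → ℤ) → ℂ,
      (∫ x in Set.univ.pi (fun _ : Fin 3 => Set.Icc (0 : ℝ) (2 * Real.pi)),
          ‖∑ ξ ∈ S, a ξ * Complex.exp (Complex.I * ∑ j, ((ξ j : ℂ) * ((x j : ℝ) : ℂ)))‖ ^ p)
          ^ (1 / p)
        ≤ C * (Real.sqrt (n : ℝ)) ^ (max (1 / 2 - 5 / (2 * p)) 0 + ε) *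
          (∫ x in Set.univ.pi (fun _ : Fin 3 => Set.Icc (0 : ℝ) (2 * Real.pi)),
            ‖∑ ξ ∈ S, a ξ * Complex.exp (Complex.I * ∑ j, ((ξ j : ℂ) * ((x j : ℝ) : ℂ)))‖ ^ (2 : ℝ))
            ^ (1 / 2 : ℝ) := by
  have hT : Fact (0 < 2 * Real.pi) := ⟨Real.two_pi_pos⟩
  obtain ⟨C, hC, h⟩ := discq hp hε
  refine ⟨((2 * Real.pi) ^ 3 * C) ^ (1 / p), fun n hn S hS a => ?_⟩
  have hS' : ∀ b ∈ S, b ⬝ᵥ b = n := fun b hb => by
    rw [← hS b hb, dotProduct]; simp only [sq]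
  obtain ⟨Q, hQ, h1⟩ := h n hn
  have e : ∀ x : Fin 3 → ℝ,
      ∑ ξ ∈ S, a ξ * Complex.exp (Complex.I * ∑ j, ((ξ j : ℂ) * ((x j : ℝ) : ℂ))) =
        U S a fun l => (x l : AddCircle (2 * Real.pi)) := by
    intro x
    refine sum_congr rfl fun ξ _ => ?_
    simp only [fourier_coe_apply, ← Complex.exp_sum, mul_sum]
    congr 2
    refine sum_congr rfl fun l _ => ?_
    have : (Real.pi : ℂ) ≠ 0 := by exact_mod_cast Real.pi_ne_zero
    push_cast; field_simp
  have p0 : 0 < p := by linarith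
  have hc : Continuous fun z : Fin 3 → AddCircle (2 * Real.pi) => ‖U S a z‖ ^ p :=
    (continuous_U S a).norm.rpow_const fun _ => Or.inr p0.le
  simp only [e, Real.rpow_two]
  rw [box_int hc, box_int (F := fun z => ‖U S a z‖ ^ 2) ((continuous_U S a).norm.pow 2),
    int_sq hS']
  set l := √(n : ℝ) ^ (max (1 / 2 - 5 / (2 * p)) 0 + ε) with hl
  have l0 : 0 ≤ l := by positivity
  have s0 := nr_nonneg a S
  have h2 := int_le (Q := Q) hc (fun z => by positivity) (B := C * (l * nr a S) ^ p) fun z => by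
    simp only [U_shift]
    refine (h1 S _ hS').trans (le_of_eq ?_)
    simp only [nr, ms_mod, hl]
  have pi1 : 1 ≤ (2 * Real.pi) ^ 3 := one_le_pow₀ (by linarith [Real.pi_gt_three])
  calc _ ≤ ((2 * Real.pi) ^ 3 * (C * (l * nr a S) ^ p)) ^ (1 / p) := by
        gcongr
    _ = ((2 * Real.pi) ^ 3 * C) ^ (1 / p) * l * nr a S := by
        rw [← mul_assoc, Real.mul_rpow (by positivity) (by positivity), one_div,
          Real.rpow_rpow_inv (by positivity) p0.ne', mul_assoc]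
    _ ≤ _ := by
        gcongr
        rw [← Real.sqrt_eq_rpow]
        exact Real.sqrt_le_sqrt (le_mul_of_one_le_left (ms_nonneg _ _) pi1)

end Pool.Agent.P.MP_c76d8c_an
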