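import Pool.Agent.P.MP_c76d8c_an.Four

/-! The trilinear weak `L^5` bound on `(ZMod (p^I))^3`. -/

namespace Pool.Agent.P.MP_c76d8c_an

open Finset ComplexConjugate

/-- congruence of vectors modulo `p^i` -/
def cl (p i : ℕ) (u v : Fin 3 → ℤ) : Prop := ∀ l, (p : ℤ) ^ i ∣ u l - v l

theorem cl_refl (p i : ℕ) (u : Fin 3 → ℤ) : cl p i u u := fun l => by simp

theorem cl_mono {p i k : ℕ} (h : i ≤ k) {u v : Fin 3 → ℤ} (hc : cl p k u v) : cl p i u v :=
  fun l => (pow_dvd_pow _ h).trans (hc l)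

/-- residue of a vector modulo `p^i` -/
def res (p i : ℕ) (u : Fin 3 → ℤ) : Fin 3 → ℤ := fun l => u l % (p : ℤ) ^ i

theorem res_eq_iff {p i : ℕ} {u v : Fin 3 → ℤ} : res p i u = res p i v ↔ cl p i u v := by
  unfold res cl
  rw [funext_iff]
  refine forall_congr' fun l => ?_
  rw [Int.emod_eq_emod_iff_emod_sub_eq_zero, Int.dvd_iff_emod_eq_zero]

variable {ι : Type*}

/-- chords of `A` are `p`-adically orthogonal to the direction `j` -/
def Chord (p : ℕ) (a : ι → Fin 3 → ℤ) (A : Finset ι) (j : Fin 3) : Prop :=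
  ∀ b ∈ A, ∀ b' ∈ A, ∀ i, cl p i (a b) (a b') → (p : ℤ) ^ (i + 1) ∣ a b j - a b' j

/-- frequencies of `A` are distinct modulo `p^I` -/
def Sep (p I : ℕ) (a : ι → Fin 3 → ℤ) (A : Finset ι) : Prop :=
  ∀ b ∈ A, ∀ b' ∈ A, cl p I (a b) (a b') → b = b'

/-- nonzero differences of `A` have at most `t` representations modulo `p^I` -/
def Sid (p I : ℕ) (a : ι → Fin 3 → ℤ) (A : Finset ι) (t : ℝ) : Prop :=
  ∀ b ∈ A, ∀ b' ∈ A, b ≠ b' → ∀ P : Finset (ι × ι),
    (∀ z ∈ P, z.1 ∈ A ∧ z.2 ∈ A ∧ cl p I (a b - a b') (a z.1 - a z.2)) → (P.card : ℝ) ≤ t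

theorem Chord.mono {p : ℕ} {a : ι → Fin 3 → ℤ} {A B : Finset ι} {j : Fin 3} (h : Chord p a A j)
    (hB : B ⊆ A) : Chord p a B j := fun b hb b' hb' => h b (hB hb) b' (hB hb')

theorem Sid.mono {p I : ℕ} {a : ι → Fin 3 → ℤ} {A B : Finset ι} {t : ℝ} (h : Sid p I a A t)
    (hB : B ⊆ A) : Sid p I a B t := fun b hb b' hb' hne P hP =>
  h b (hB hb) b' (hB hb') hne P fun z hz => ⟨hB (hP z hz).1, hB (hP z hz).2.1, (hP z hz).2.2⟩

theorem card_res_succ {p : ℕ} (hp : 0 < p) (i : ℕ) (a : ι → Fin 3 → ℤ) (D : Finset ι) :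
    (D.image fun b => res p (i + 1) (a b)).card ≤ (D.image fun b => res p i (a b)).card * p ^ 3 := by
  classical
  have hc : ((D.image fun b => res p i (a b)) ×ˢ
      Fintype.piFinset fun _ : Fin 3 => Ico (0 : ℤ) p).card =
      (D.image fun b => res p i (a b)).card * p ^ 3 := by
    simp [card_product]
  rw [← hc]
  have hpi : (0 : ℤ) < (p : ℤ) ^ i := by positivity
  refine card_le_card_of_injOn (fun z => (res p i z, fun l => z l / (p : ℤ) ^ i)) ?_ ?_
  · intro z hz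
    obtain ⟨b, hb, rfl⟩ := mem_image.1 hz
    simp only [coe_product, Set.mem_prod, mem_coe, mem_image, Fintype.mem_piFinset, mem_Ico]
    refine ⟨⟨b, hb, ?_⟩, fun l => ⟨?_, ?_⟩⟩
    · funext l
      exact (Int.emod_emod_of_dvd _ (pow_dvd_pow _ (Nat.le_succ i))).symm
    · exact Int.ediv_nonneg (Int.emod_nonneg _ (by positivity)) hpi.le
    · rw [Int.ediv_lt_iff_lt_mul hpi, ← pow_succ']
      exact Int.emod_lt_of_pos _ (by positivity)
  · intro z _ z' _ h
    simp only [Prod.mk.injEq] at h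
    funext l
    have h1 := congrFun h.1 l
    have h2 := congrFun h.2 l
    simp only [res] at h1 h2
    rw [← Int.emod_add_mul_ediv (z l) ((p : ℤ) ^ i), ← Int.emod_add_mul_ediv (z' l) ((p : ℤ) ^ i),
      h1, h2]

variable {p I : ℕ} [NeZero (p ^ I)]

/-- the square function at level `i` -/
noncomputable def hh (i : ℕ) (a : ι → Fin 3 → ℤ) (c : ι → ℂ) (A : Finset ι)
    (x : Fin 3 → ZMod (p ^ I)) : ℝ :=
  Eop ((((p : ℤ) ^ (I - i) : ℤ)) : ZMod (p ^ I)) (fun x => ‖fs a c A x‖ ^ 2) x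

theorem hh_nonneg (i : ℕ) (a : ι → Fin 3 → ℤ) (c : ι → ℂ) (A : Finset ι)
    (x : Fin 3 → ZMod (p ^ I)) : 0 ≤ hh i a c A x := av_nonneg fun _ => by positivity

open Classical in
theorem hh_eq (hp : 0 < p) {i : ℕ} (hi : i ≤ I) (a : ι → Fin 3 → ℤ) (c : ι → ℂ) (A : Finset ι)
    (x : Fin 3 → ZMod (p ^ I)) : ((hh i a c A x : ℝ) : ℂ) =
      ∑ b ∈ A, ∑ b' ∈ A, if cl p i (a b) (a b') then
        c b * conj (c b') * ch (a b - a b') x else 0 := by
  rw [hh, Eop_sq]
  refine sum_congr rfl fun b _ => sum_congr rfl fun b' _ => ?_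
  refine if_congr (forall_congr' fun l => ?_) rfl rfl
  have : (((p ^ I : ℕ)) : ℤ) = (p : ℤ) ^ (I - i) * (p : ℤ) ^ i := by
    rw [← pow_add, Nat.sub_add_cancel hi]; push_cast; rfl
  rw [this, mul_dvd_mul_iff_left (by positivity)]

theorem hh_inv (hp : 0 < p) {i : ℕ} (hi : i < I) {a : ι → Fin 3 → ℤ} (c : ι → ℂ) {A : Finset ι}
    {j : Fin 3} (h : Chord p a A j) (x : Fin 3 → ZMod (p ^ I)) (s : ZMod (p ^ I)) :
    hh i a c A (x + ((((p : ℤ) ^ (I - (i + 1)) : ℤ)) : ZMod (p ^ I)) •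
      (Pi.single j s : Fin 3 → ZMod (p ^ I))) = hh i a c A x := by
  apply Complex.ofReal_injective
  rw [hh_eq hp hi.le, hh_eq hp hi.le]
  refine sum_congr rfl fun b hb => sum_congr rfl fun b' hb' => ?_
  split_ifs with hc
  · rw [ch_add, ch_smul, ch_single]
    have : ((((p : ℤ) ^ (I - (i + 1)) • (a b - a b')) j : ℤ) : ZMod (p ^ I)) = 0 := by
      rw [ZMod.intCast_zmod_eq_zero_iff_dvd]
      have : (((p ^ I : ℕ)) : ℤ) = (p : ℤ) ^ (I - (i + 1)) * (p : ℤ) ^ (i + 1) := by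
        rw [← pow_add, Nat.sub_add_cancel hi]; push_cast; rfl
      rw [this]
      exact mul_dvd_mul_left _ (h b hb b' hb' i hc)
    rw [this, zero_mul, AddChar.map_zero_eq_one, mul_one]
  · rfl

theorem tri_E (hp : 0 < p) {a : ι → Fin 3 → ℤ} (c : ι → ℂ) {A : Fin 3 → Finset ι}
    (h : ∀ j, Chord p a (A j) j) : ∀ i ≤ I, ∀ x : Fin 3 → ZMod (p ^ I),
      Eop ((((p : ℤ) ^ (I - i) : ℤ)) : ZMod (p ^ I)) (fun x => ∏ j, ‖fs a c (A j) x‖) x ≤
        ∏ j, √(hh i a c (A j) x) := by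
  intro i
  induction i with
  | zero =>
    intro _ x
    have : ((((p : ℤ) ^ (I - 0) : ℤ)) : ZMod (p ^ I)) = 0 := by
      rw [ZMod.intCast_zmod_eq_zero_iff_dvd]; simp
    simp only [hh, this, Eop_zero, Real.sqrt_sq (norm_nonneg _), le_refl]
  | succ i ih =>
    intro hi x
    have e : ((((p : ℤ) ^ (I - i) : ℤ)) : ZMod (p ^ I)) =
        ((((p : ℤ) ^ (I - (i + 1)) : ℤ)) : ZMod (p ^ I)) * p := by
      have : I - i = I - (i + 1) + 1 := by omega
      rw [this, pow_succ]; push_cast; rfl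
    rw [← Eop_Eop _ (p : ZMod (p ^ I)), ← e]
    refine (av_mono fun y => ih (by omega) _).trans ?_
    refine (lw (fun j y => √(hh i a c (A j)
      (x + ((((p : ℤ) ^ (I - (i + 1)) : ℤ)) : ZMod (p ^ I)) • y))) fun j y s => ?_).trans ?_
    · simp only [smul_add, ← add_assoc]
      rw [hh_inv hp hi c (h j)]
    · refine le_of_eq (prod_congr rfl fun j _ => ?_)
      simp only [Real.sq_sqrt (hh_nonneg _ _ _ _ _)]
      congr 1
      conv_rhs => rw [hh, ← Eop_Eop _ (p : ZMod (p ^ I)), ← e]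
      rfl

theorem hh_top (hp : 0 < p) {a : ι → Fin 3 → ℤ} (c : ι → ℂ) {A : Finset ι} (h : Sep p I a A)
    (x : Fin 3 → ZMod (p ^ I)) : hh I a c A x = ms c A := by
  classical
  apply Complex.ofReal_injective
  rw [hh_eq hp le_rfl, ms, Complex.ofReal_sum]
  refine sum_congr rfl fun b hb => ?_
  rw [sum_eq_single_of_mem b hb]
  · rw [if_pos (cl_refl _ _ _), sub_self, ch_of_dvd (by simp), mul_one, Complex.mul_conj']
    push_cast; rfl
  · intro b' hb' hne
    rw [if_neg fun hc => hne (h b hb b' hb' hc).symm]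

theorem hh_cs (hp : 0 < p) {i : ℕ} (hi : i ≤ I) (a : ι → Fin 3 → ℤ) (c : ι → ℂ) (A : Finset ι)
    (x : Fin 3 → ZMod (p ^ I)) :
    ‖fs a c A x‖ ^ 2 ≤ (A.image fun b => res p i (a b)).card * hh i a c A x := by
  classical
  have hm : ∀ b ∈ A, res p i (a b) ∈ A.image fun b => res p i (a b) :=
    fun b hb => mem_image_of_mem _ hb
  rw [← fs_fiber a c hm]
  refine (norm_sum_sq_le _ _).trans (le_of_eq ?_)
  congr 1
  apply Complex.ofReal_injective
  rw [hh_eq hp hi, Complex.ofReal_sum, ← sum_fiberwise_of_maps_to hm]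
  refine sum_congr rfl fun z _ => ?_
  rw [fs_sq]
  refine sum_congr rfl fun b hb => ?_
  rw [sum_filter]
  refine sum_congr rfl fun b' _ => if_congr ?_ rfl rfl
  rw [← (mem_filter.1 hb).2, eq_comm, res_eq_iff]

open Classical in
theorem hh_var (hp : 0 < p) {i : ℕ} (hi : i ≤ I) {a : ι → Fin 3 → ℤ} (c : ι → ℂ) {A : Finset ι}
    {t e : ℝ} (ht : 0 ≤ t) (hs : Sid p I a A t)
    (hl : ∀ b ∈ A, ms c (A.filter fun b' => cl p i (a b) (a b')) ≤ e) :
    av (fun x : Fin 3 → ZMod (p ^ I) => (hh i a c A x - ms c A) ^ 2) ≤ t * (ms c A * e) := by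
  set P := (A ×ˢ A).filter fun z => cl p i (a z.1) (a z.2) ∧ z.1 ≠ z.2 with hP
  have h1 : ∀ x : Fin 3 → ZMod (p ^ I), ((hh i a c A x - ms c A : ℝ) : ℂ) =
      fs (fun z : ι × ι => a z.1 - a z.2) (fun z => c z.1 * conj (c z.2)) P x := by
    intro x
    rw [Complex.ofReal_sub, hh_eq hp hi, ms, Complex.ofReal_sum, ← sum_sub_distrib, fs, hP,
      sum_filter, sum_product]
    refine sum_congr rfl fun b hb => ?_
    have : ((‖c b‖ ^ 2 : ℝ) : ℂ) = ∑ b' ∈ A, if b = b' then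
        c b * conj (c b') * ch (a b - a b') x else 0 := by
      rw [sum_ite_eq, if_pos hb, sub_self, ch_of_dvd (by simp), mul_one, Complex.mul_conj']
      push_cast; rfl
    rw [this, ← sum_sub_distrib]
    refine sum_congr rfl fun b' _ => ?_
    by_cases h1 : b = b'
    · subst h1; simp [cl_refl]
    · simp [h1]
  have h2 : ∀ x : Fin 3 → ZMod (p ^ I), (hh i a c A x - ms c A) ^ 2 =
      ‖fs (fun z : ι × ι => a z.1 - a z.2) (fun z => c z.1 * conj (c z.2)) P x‖ ^ 2 := by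
    intro x; rw [← h1, Complex.norm_real, Real.norm_eq_abs, sq_abs]
  simp only [h2]
  refine (av_sq_le _ _ _ (t := t) fun z hz => ?_).trans ?_
  · simp only [hP, mem_filter, mem_product] at hz
    refine hs z.1 hz.1.1 z.2 hz.1.2 hz.2.2 _ fun w hw => ?_
    simp only [hP, mem_filter, mem_product] at hw
    refine ⟨hw.1.1.1, hw.1.1.2, fun l => ?_⟩
    have := hw.2 l
    push_cast at this
    exact this
  · gcongr
    rw [ms, hP, sum_filter, sum_product, ms, sum_mul]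
    refine sum_le_sum fun b hb => ?_
    refine le_trans ?_ (mul_le_mul_of_nonneg_left (hl b hb) (by positivity))
    rw [ms, sum_filter, mul_sum]
    refine sum_le_sum fun b' _ => ?_
    by_cases h1 : cl p i (a b) (a b')
    · rw [if_pos h1]
      split_ifs
      · rw [norm_mul, RCLike.norm_conj, mul_pow]
      · positivity
    · simp [h1]

theorem pt_ineq {h m s : Fin 3 → ℝ} (hs : ∀ j, 0 < s j) (hh0 : ∀ j, 0 ≤ h j)
    (hm : ∀ j, m j ≤ s j ^ 2) {j0 : Fin 3} (hj : 2 * s j0 ^ 2 ≤ h j0) :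
    ∏ j, √(h j) ≤ 4 * (∏ j, s j) * ∑ j, (s j ^ 4)⁻¹ * (h j - m j) ^ 2 := by
  obtain ⟨j1, hj1⟩ := Finite.exists_max fun j => h j / s j ^ 2
  set g := h j1 / s j1 ^ 2 with hg
  have g2 : 2 ≤ g := le_trans (by rw [le_div_iff₀ (pow_pos (hs j0) 2)]; exact hj) (hj1 j0)
  have e1 : ∀ j, √(h j) ≤ s j * √g := fun j => by
    rw [← Real.sqrt_sq (hs j).le, ← Real.sqrt_mul (by positivity)]
    refine Real.sqrt_le_sqrt ?_
    have := hj1 j
    rwa [div_le_iff₀' (pow_pos (hs j) 2)] at this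
  have e2 : g ^ 2 ≤ 4 * ∑ j, (s j ^ 4)⁻¹ * (h j - m j) ^ 2 := by
    have a1 : (s j1 ^ 4)⁻¹ * (h j1 - m j1) ^ 2 ≤ ∑ j, (s j ^ 4)⁻¹ * (h j - m j) ^ 2 :=
      single_le_sum (f := fun j => (s j ^ 4)⁻¹ * (h j - m j) ^ 2)
        (fun j _ => by have := hs j; positivity) (mem_univ j1)
    have a2 : (s j1 ^ 4)⁻¹ * (h j1 - m j1) ^ 2 = (g - m j1 / s j1 ^ 2) ^ 2 := by
      have := hs j1; rw [hg]; field_simp
    have a3 : m j1 / s j1 ^ 2 ≤ 1 := by
      rw [div_le_one (pow_pos (hs j1) 2)]; exact hm j1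
    nlinarith
  have e3 : √g ^ 3 ≤ g ^ 2 := by
    have a1 : √g ^ 2 = g := Real.sq_sqrt (by linarith)
    have a2 : √g ≤ g := Real.sqrt_le_iff.2 ⟨by linarith, by nlinarith⟩
    calc √g ^ 3 = g * √g := by rw [pow_succ, a1]
      _ ≤ g * g := by gcongr
      _ = _ := by ring
  have p0 : 0 ≤ ∏ j, s j := prod_nonneg fun j _ => (hs j).le
  calc ∏ j, √(h j) ≤ ∏ j, (s j * √g) := prod_le_prod (fun _ _ => Real.sqrt_nonneg _) fun j _ => e1 j
    _ = (∏ j, s j) * √g ^ 3 := by rw [prod_mul_distrib]; simp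
    _ ≤ (∏ j, s j) * (4 * ∑ j, (s j ^ 4)⁻¹ * (h j - m j) ^ 2) := by gcongr; exact e3.trans e2
    _ = _ := by ring

open Classical in
theorem lemT0 (hp : 0 < p) {a : ι → Fin 3 → ℤ} (c : ι → ℂ) {D : Fin 3 → Finset ι} {t e : ℝ}
    (ht : 0 ≤ t) (he : 0 ≤ e) (hc : ∀ j, Chord p a (D j) j) (hsid : ∀ j, Sid p I a (D j) t)
    {i : ℕ} (hi : i ≤ I) {s α : Fin 3 → ℝ} (hs : ∀ j, 0 < s j) (hα : ∀ j, 0 ≤ α j)
    (hm : ∀ j, ms c (D j) ≤ s j ^ 2)
    (hl : ∀ j, ∀ b ∈ D j, ms c ((D j).filter fun b' => cl p i (a b) (a b')) ≤ s j ^ 2 * e)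
    {j0 : Fin 3} (hb : ∀ x : Fin 3 → ZMod (p ^ I), α j0 ≤ ‖fs a c (D j0) x‖ →
      2 * s j0 ^ 2 ≤ hh i a c (D j0) x) :
    (∏ j, α j) * mu (fun x : Fin 3 → ZMod (p ^ I) => ∀ j, α j ≤ ‖fs a c (D j) x‖) ≤
      12 * t * e * ∏ j, s j := by
  set r : ZMod (p ^ I) := (((p : ℤ) ^ (I - i) : ℤ) : ZMod (p ^ I)) with hr
  set V : (Fin 3 → ZMod (p ^ I)) → ℝ := fun x =>
    if 2 * s j0 ^ 2 ≤ hh i a c (D j0) x then 1 else 0 with hV
  have hV0 : ∀ x, 0 ≤ V x := fun x => by simp only [hV]; split_ifs <;> norm_num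
  have hVi : ∀ x y, V (x + r • y) = V x := fun x y => by
    simp only [hV, hh, ← hr, Eop_inv]
  have p0 : 0 ≤ ∏ j, s j := prod_nonneg fun j _ => (hs j).le
  calc _ ≤ av fun x => V x * ∏ j, ‖fs a c (D j) x‖ := by
        refine mul_mu_le (fun x => mul_nonneg (hV0 x) (prod_nonneg fun _ _ => norm_nonneg _))
          fun x hx => ?_
        simp only [hV]
        rw [if_pos (hb x (hx j0)), one_mul]
        exact prod_le_prod (fun j _ => hα j) fun j _ => hx j
    _ = av fun x => V x * Eop r (fun x => ∏ j, ‖fs a c (D j) x‖) x := by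
        rw [← av_Eop r]
        congr 1; funext x
        simp only [Eop, hVi, av_mul]
    _ ≤ av fun x : Fin 3 → ZMod (p ^ I) => 4 * (∏ j, s j) *
          ∑ j, (s j ^ 4)⁻¹ * (hh i a c (D j) x - ms c (D j)) ^ 2 := by
        refine av_mono fun x => ?_
        simp only [hV]
        split_ifs with hx
        · rw [one_mul]
          exact (tri_E hp c hc i hi x).trans (pt_ineq hs (fun j => hh_nonneg _ _ _ _ _) hm hx)
        · rw [zero_mul]
          exact mul_nonneg (by positivity) (sum_nonneg fun j _ => by have := hs j; positivity)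
    _ = 4 * (∏ j, s j) * ∑ j, (s j ^ 4)⁻¹ * av fun x : Fin 3 → ZMod (p ^ I) =>
          (hh i a c (D j) x - ms c (D j)) ^ 2 := by
        rw [av_mul, av_sum]; simp only [av_mul]
    _ ≤ 4 * (∏ j, s j) * ∑ _j : Fin 3, t * e := by
        refine mul_le_mul_of_nonneg_left (sum_le_sum fun j _ => ?_) (by positivity)
        have := hs j
        rw [inv_mul_le_iff₀ (by positivity)]
        refine (hh_var hp hi c ht (hsid j) (hl j)).trans ?_
        calc t * (ms c (D j) * (s j ^ 2 * e)) ≤ t * (s j ^ 2 * (s j ^ 2 * e)) := by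
              gcongr; exact hm j
          _ = _ := by ring
    _ = _ := by simp; ring

open Classical in
theorem heavy_count {i : ℕ} (a : ι → Fin 3 → ℤ) (c : ι → ℂ) {A D : Finset ι} (hD : D ⊆ A)
    {w : ℝ} (h : ∀ b ∈ D, w ≤ ms c (A.filter fun b' => cl p i (a b) (a b'))) :
    (D.image fun b => res p i (a b)).card * w ≤ ms c A := by
  set Z := D.image fun b => res p i (a b)
  calc (Z.card : ℝ) * w = ∑ _z ∈ Z, w := by simp
    _ ≤ ∑ z ∈ Z, ms c ((A.filter fun b => res p i (a b) ∈ Z).filter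
          fun b => res p i (a b) = z) := by
        refine sum_le_sum fun z hz => ?_
        obtain ⟨b, hb, rfl⟩ := mem_image.1 hz
        refine (h b hb).trans (ms_mono _ fun b' hb' => ?_)
        simp only [mem_filter] at hb' ⊢
        have := (res_eq_iff.2 hb'.2).symm
        exact ⟨⟨hb'.1, this ▸ hz⟩, this⟩
    _ = ms c (A.filter fun b => res p i (a b) ∈ Z) := ms_fiber c fun b hb => (mem_filter.1 hb).2
    _ ≤ _ := ms_mono _ (filter_subset _ _)

theorem exists_cell {Q : ℕ} [NeZero Q] {κ : Type*} [DecidableEq κ] (a : ι → Fin 3 → ℤ) (c : ι → ℂ)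
    {A : Finset ι} {Z : Finset κ} {lab : ι → κ} (h : ∀ b ∈ A, lab b ∈ Z) {α n : ℝ} (hα : 0 < α)
    (hn : (Z.card : ℝ) ≤ n) {x : Fin 3 → ZMod Q} (hx : α ≤ ‖fs a c A x‖) :
    ∃ z ∈ Z, α / n ≤ ‖fs a c (A.filter fun b => lab b = z) x‖ := by
  rw [← fs_fiber a c h] at hx
  have h1 := hx.trans (norm_sum_le _ _)
  rcases Z.eq_empty_or_nonempty with rfl | hZ
  · simp at h1; linarith
  have hc : (0 : ℝ) < Z.card := by exact_mod_cast hZ.card_pos
  refine exists_le_of_sum_le hZ (le_trans ?_ h1)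
  rw [sum_const, nsmul_eq_mul, ← mul_div_assoc, div_le_iff₀ (by linarith), mul_comm]
  gcongr

/-- The trilinear weak `L^5` estimate. -/
theorem lemT (hp : 0 < p) {a : ι → Fin 3 → ℤ} (c : ι → ℂ) {A : Fin 3 → Finset ι} {t : ℝ}
    (ht : 1 ≤ t) (hc : ∀ j, Chord p a (A j) j) (hsep : ∀ j, Sep p I a (A j))
    (hsid : ∀ j, Sid p I a (A j) t) {α ρ : Fin 3 → ℝ} {r : ℝ} (hα : ∀ j, 0 < α j)
    (hρ : ∀ j, 0 < ρ j) (hr : ∀ j, ρ j ≤ r) (hm : ∀ j, ms c (A j) ≤ (ρ j * α j) ^ 2) :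
    mu (fun x : Fin 3 → ZMod (p ^ I) => ∀ j, α j ≤ ‖fs a c (A j) x‖) ≤
      24 * (p : ℝ) ^ 3 * ((I : ℝ) + 2) ^ 8 * t * ((∏ j, ρ j) * r ^ 2) := by
  classical
  set W : ℝ := (I : ℝ) + 2 with hW
  have hW1 : 1 ≤ W := by rw [hW]; linarith [Nat.cast_nonneg (α := ℝ) I]
  have hp1 : (1 : ℝ) ≤ p := by exact_mod_cast hp
  have hp3 : (1 : ℝ) ≤ (p : ℝ) ^ 3 := one_le_pow₀ hp1
  have hr0 : 0 < r := (hρ 0).trans_le (hr 0)
  set e : ℝ := 2 * (p : ℝ) ^ 3 * W ^ 2 * r ^ 2 with he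
  have he0 : 0 < e := by positivity
  have pα : 0 < ∏ j, α j := prod_pos fun j _ => hα j
  have pρ : 0 < ∏ j, ρ j := prod_pos fun j _ => hρ j
  set s : Fin 3 → ℝ := fun j => ρ j * α j with hs
  have hs0 : ∀ j, 0 < s j := fun j => mul_pos (hρ j) (hα j)
  have ps : ∏ j, s j = (∏ j, α j) * ∏ j, ρ j := by rw [hs, prod_mul_distrib, mul_comm]
  have hfin : 24 * (p : ℝ) ^ 3 * W ^ 8 * t * ((∏ j, ρ j) * r ^ 2) =
      W ^ 3 * (W ^ 3 * (12 * t * e * ∏ j, ρ j)) := by rw [he]; ring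
  rw [hfin]
  rcases le_or_gt 1 e with he1 | he1
  · have h1 : (∏ j, α j) * mu (fun x : Fin 3 → ZMod (p ^ I) => ∀ j, α j ≤ ‖fs a c (A j) x‖) ≤
        (∏ j, α j) * ∏ j, ρ j := by
      refine (mul_mu_le (F := fun x => ∏ j, ‖fs a c (A j) x‖)
        (fun x => prod_nonneg fun _ _ => norm_nonneg _)
        fun x hx => prod_le_prod (fun j _ => (hα j).le) fun j _ => hx j).trans ?_
      have := tri_E hp c hc I le_rfl 0
      rw [Nat.sub_self, pow_zero, Int.cast_one, Eop_one] at this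
      refine this.trans ?_
      rw [← ps]
      refine prod_le_prod (fun _ _ => Real.sqrt_nonneg _) fun j _ => ?_
      rw [hh_top hp c (hsep j)]
      exact Real.sqrt_le_iff.2 ⟨(hs0 j).le, hm j⟩
    refine (le_of_mul_le_mul_left h1 pα).trans ?_
    have : 1 ≤ W ^ 3 := one_le_pow₀ hW1
    calc ∏ j, ρ j = 1 * (1 * (1 * 1 * 1 * ∏ j, ρ j)) := by ring
      _ ≤ _ := by gcongr; norm_num
  have hex : ∀ j b, ∃ i, ms c ((A j).filter fun b' => cl p i (a b) (a b')) ≤ s j ^ 2 * e ∨ I < i :=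
    fun j b => ⟨I + 1, Or.inr (Nat.lt_succ_self I)⟩
  set cls : Fin 3 → ι → ℕ := fun j b => Nat.find (hex j b) with hcls
  have cls_le : ∀ j b, cls j b ∈ range (I + 2) := fun j b =>
    mem_range.2 (Nat.lt_succ_of_le (Nat.find_min' _ (Or.inr (Nat.lt_succ_self I))))
  set D : Fin 3 → ℕ → Finset ι := fun j i => (A j).filter fun b => cls j b = i with hD
  have hDA : ∀ j i, D j i ⊆ A j := fun j i => filter_subset _ _
  have heavy : ∀ j i, ((D j (i + 1)).image fun b => res p i (a b)).card * e ≤ 1 := by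
    intro j i
    have h1 := heavy_count (p := p) (i := i) a c (hDA j (i + 1)) (w := s j ^ 2 * e) fun b hb => by
      have h2 : i < Nat.find (hex j b) := by
        have := (mem_filter.1 hb).2
        simp only [hcls] at this
        omega
      have := Nat.find_min _ h2
      push Not at this
      exact this.1.le
    have h2 := h1.trans (hm j)
    have h3 : s j ^ 2 * (((D j (i + 1)).image fun b => res p i (a b)).card * e) ≤ s j ^ 2 * 1 := by
      simp only [hs] at h2 ⊢; linarith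
    exact le_of_mul_le_mul_left h3 (pow_pos (hs0 j) 2)
  have cells : ∀ j i, ((D j i).image fun b => res p i (a b)).card * e ≤ (p : ℝ) ^ 3 := by
    intro j i
    rcases i with _ | i
    · have : ((D j 0).image fun b => res p 0 (a b)).card ≤ 1 := by
        rw [card_le_one]
        intro z hz z' hz'
        obtain ⟨b, -, rfl⟩ := mem_image.1 hz
        obtain ⟨b', -, rfl⟩ := mem_image.1 hz'
        exact res_eq_iff.2 fun l => by simp
      have h2 : (((D j 0).image fun b => res p 0 (a b)).card : ℝ) ≤ 1 := by exact_mod_cast this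
      nlinarith
    · have h1 : (((D j (i + 1)).image fun b => res p (i + 1) (a b)).card : ℝ) ≤
          ((D j (i + 1)).image fun b => res p i (a b)).card * (p : ℝ) ^ 3 := by
        exact_mod_cast card_res_succ hp i a (D j (i + 1))
      calc _ ≤ ((D j (i + 1)).image fun b => res p i (a b)).card * (p : ℝ) ^ 3 * e := by gcongr
        _ = ((D j (i + 1)).image fun b => res p i (a b)).card * e * (p : ℝ) ^ 3 := by ring
        _ ≤ 1 * (p : ℝ) ^ 3 := by gcongr; exact heavy j i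
        _ = _ := one_mul _
  have hkey : ∀ j, 2 * (p : ℝ) ^ 3 * s j ^ 2 ≤ e * (α j / W) ^ 2 := by
    intro j
    have : e * (α j / W) ^ 2 = 2 * (p : ℝ) ^ 3 * (r * α j) ^ 2 := by rw [he]; field_simp
    rw [this]
    have := hα j
    have := hρ j
    simp only [hs]
    gcongr
    exact hr j
  have cover : ∀ x : Fin 3 → ZMod (p ^ I), (∀ j, α j ≤ ‖fs a c (A j) x‖) →
      ∃ k ∈ Fintype.piFinset fun _ : Fin 3 => range (I + 1),
        ∀ j, α j / W ≤ ‖fs a c (D j (k j)) x‖ := by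
    intro x hx
    have : ∀ j, ∃ i ∈ range (I + 1), α j / W ≤ ‖fs a c (D j i) x‖ := by
      intro j
      obtain ⟨i, hi, h⟩ := exists_cell a c (fun b _ => cls_le j b) (hα j) (n := W)
        (by simp [hW]) (hx j)
      refine ⟨i, ?_, h⟩
      by_contra hne
      obtain rfl : i = I + 1 := by simp only [mem_range] at hi hne; omega
      have h1 := heavy j I
      rw [card_image_of_injOn fun b hb b' hb' hbb =>
        hsep j b (hDA _ _ hb) b' (hDA _ _ hb') (res_eq_iff.1 hbb)] at h1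
      have h2 := fs_sq_le a c (D j (I + 1)) x
      have h3 : ms c (D j (I + 1)) ≤ s j ^ 2 := (ms_mono c (hDA _ _)).trans (hm j)
      have h4 : (α j / W) ^ 2 ≤ ‖fs a c (D j (I + 1)) x‖ ^ 2 := by
        have := hα j
        gcongr
      have h5 : e * (α j / W) ^ 2 ≤ s j ^ 2 := by
        calc e * (α j / W) ^ 2 ≤ e * ((D j (I + 1)).card * s j ^ 2) := by
              gcongr
              exact h4.trans (h2.trans (by gcongr))
          _ = (D j (I + 1)).card * e * s j ^ 2 := by ring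
          _ ≤ 1 * s j ^ 2 := by gcongr
          _ = _ := one_mul _
      have h6 := hkey j
      have h7 := pow_pos (hs0 j) 2
      nlinarith
    choose k hk1 hk2 using this
    exact ⟨k, Fintype.mem_piFinset.2 hk1, hk2⟩
  refine (mu_mono cover).trans ((mu_exists _ _).trans ?_)
  have each : ∀ k ∈ Fintype.piFinset fun _ : Fin 3 => range (I + 1),
      mu (fun x : Fin 3 → ZMod (p ^ I) => ∀ j, α j / W ≤ ‖fs a c (D j (k j)) x‖) ≤
        W ^ 3 * (12 * t * e * ∏ j, ρ j) := by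
    intro k hk
    obtain ⟨j0, hj0⟩ := Finite.exists_max k
    have hkI : ∀ j, k j ≤ I := fun j =>
      Nat.lt_succ_iff.1 (mem_range.1 (Fintype.mem_piFinset.1 hk j))
    have h1 := lemT0 hp c (D := fun j => D j (k j)) (t := t) (e := e) (by linarith) he0.le
      (fun j => (hc j).mono (hDA _ _)) (fun j => (hsid j).mono (hDA _ _)) (hkI j0) hs0
      (α := fun j => α j / W) (fun j => by have := hα j; positivity)
      (fun j => (ms_mono c (hDA _ _)).trans (hm j)) (fun j b hb => ?_) (j0 := j0) (fun x hx => ?_)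
    · rw [prod_div_distrib, ps] at h1
      simp only [prod_const, card_univ, Fintype.card_fin] at h1
      rw [div_mul_eq_mul_div, div_le_iff₀ (by positivity)] at h1
      refine le_of_mul_le_mul_left (h1.trans (le_of_eq ?_)) pα
      ring
    · have h2 := Nat.find_spec (hex j b)
      have h3 : Nat.find (hex j b) = k j := (mem_filter.1 hb).2
      rw [h3] at h2
      refine le_trans (ms_mono c fun b' hb' => ?_) (h2.resolve_right (not_lt.2 (hkI j)))
      rw [mem_filter] at hb' ⊢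
      exact ⟨hDA _ _ hb'.1, cl_mono (hj0 j) hb'.2⟩
    · have h2 := hh_cs hp (hkI j0) a c (D j0 (k j0)) x
      have h3 := hh_nonneg (p := p) (I := I) (k j0) a c (D j0 (k j0)) x
      have h4 : (α j0 / W) ^ 2 ≤ ‖fs a c (D j0 (k j0)) x‖ ^ 2 := by
        have := hα j0
        gcongr
      have h5 : (p : ℝ) ^ 3 * (2 * s j0 ^ 2) ≤ (p : ℝ) ^ 3 * hh (k j0) a c (D j0 (k j0)) x := by
        calc _ = 2 * (p : ℝ) ^ 3 * s j0 ^ 2 := by ring
          _ ≤ e * (α j0 / W) ^ 2 := hkey j0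
          _ ≤ e * (((D j0 (k j0)).image fun b => res p (k j0) (a b)).card *
              hh (k j0) a c (D j0 (k j0)) x) := by gcongr; exact h4.trans h2
          _ = ((D j0 (k j0)).image fun b => res p (k j0) (a b)).card * e *
              hh (k j0) a c (D j0 (k j0)) x := by ring
          _ ≤ _ := by gcongr; exact cells _ _
      exact le_of_mul_le_mul_left h5 (by positivity)
  refine (sum_le_sum each).trans ?_
  rw [sum_const, nsmul_eq_mul]
  gcongr
  simp only [Fintype.card_piFinset, card_range, prod_const, card_univ, Fintype.card_fin]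
  push_cast
  gcongr
  rw [hW]; linarith

end Pool.Agent.P.MP_c76d8c_an
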